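import Pool.Agent.H.MP_ac3185_nt.V7.Defs
import Pool.Agent.H.MP_ac3185_nt.V4.Local

/-! Positivity at the real places of `F` with only one real place of `LF` above them. -/

set_option autoImplicit false

open NumberField IsDedekindDomain
open scoped Pointwise

namespace Pool.Agent.H.MP_ac3185_nt

universe u

/-- An involution with one fixed point. -/
theorem v7_prod_inv {X : Type*} [Fintype X] [DecidableEq X] (τ : X → X) (hτ : ∀ x, τ (τ x) = x)
    (x₀ : X) (h0 : ∀ x, τ x = x ↔ x = x₀) (φ : X → ℂ) (hne : ∀ x, φ x ≠ 0)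
    (hφ : ∀ x, φ (τ x) = starRingEnd ℂ (φ x)) : ∃ t : ℝ, 0 < t ∧ ∏ x, φ x = φ x₀ * t := by
  have hn : ∀ x, (‖φ x‖ : ℂ) ≠ 0 := fun x => by
    rw [Ne, Complex.ofReal_eq_zero, norm_eq_zero]
    exact hne x
  have h1 : ∏ x ∈ Finset.univ.erase x₀, φ x / (‖φ x‖ : ℂ) = 1 := by
    refine Finset.prod_involution (fun x _ => τ x) ?_ ?_ ?_ ?_
    · intro x _
      rw [hφ, RCLike.norm_conj, div_mul_div_comm, Complex.mul_conj, Complex.normSq_eq_norm_sq,
        Complex.ofReal_pow, pow_two, div_self (mul_ne_zero (hn x) (hn x))]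
    · intro x hx _ h
      exact (Finset.mem_erase.1 hx).1 ((h0 x).1 h)
    · intro x hx
      refine Finset.mem_erase.2 ⟨fun h => (Finset.mem_erase.1 hx).1 ?_, Finset.mem_univ _⟩
      rw [← hτ x, h]
      exact (h0 x₀).2 rfl
    · intro x _
      exact hτ x
  refine ⟨∏ x ∈ Finset.univ.erase x₀, ‖φ x‖,
    Finset.prod_pos fun x _ => norm_pos_iff.2 (hne x), ?_⟩
  rw [← Finset.mul_prod_erase Finset.univ φ (Finset.mem_univ x₀), Complex.ofReal_prod]
  congr 1
  rw [Finset.prod_div_distrib] at h1
  have h2 : (∏ x ∈ Finset.univ.erase x₀, (‖φ x‖ : ℂ)) ≠ 0 :=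
    Finset.prod_ne_zero_iff.2 fun x _ => hn x
  exact (div_eq_one_iff_eq h2).1 h1

/-- The complex conjugation of `Kbar` over `K` at a real place. -/
theorem v7_conj {K : Type u} [Field K] (e : AlgebraicClosure K →+* ℂ)
    (he : ∀ x : K, starRingEnd ℂ (e (algebraMap K (AlgebraicClosure K) x)) =
      e (algebraMap K (AlgebraicClosure K) x)) :
    ∃ s : AlgebraicClosure K ≃ₐ[K] AlgebraicClosure K, ∀ z, e (s z) = starRingEnd ℂ (e z) := by
  let _ : Algebra (AlgebraicClosure K) ℂ := e.toAlgebra
  let _ : Algebra K ℂ := (e.comp (algebraMap K (AlgebraicClosure K))).toAlgebra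
  have _ : IsScalarTower K (AlgebraicClosure K) ℂ := IsScalarTower.of_algebraMap_eq fun x => rfl
  let ψ : AlgebraicClosure K →ₐ[K] ℂ :=
    { (starRingEnd ℂ).comp e with
      commutes' := fun x => he x }
  let φ : AlgebraicClosure K →ₐ[K] AlgebraicClosure K := ψ.restrictNormal (AlgebraicClosure K)
  refine ⟨AlgEquiv.ofBijective φ (Algebra.IsAlgebraic.algHom_bijective φ), fun z => ?_⟩
  exact AlgHom.restrictNormal_commutes ψ (AlgebraicClosure K) z

/-- If there is only one real embedding of `LF` above a real embedding of `F`, then it is positive at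
the elements whose norm to `F` is a square. -/
theorem v7_pos {K : Type u} [Field K] [CharZero K] (L F : IntermediateField K (AlgebraicClosure K))
    [FiniteDimensional K L] [FiniteDimensional K F] (hT : TransOn L F.fixingSubgroup)
    (e : AlgebraicClosure K →+* ℂ) (hreal : ∀ x ∈ L ⊔ F, starRingEnd ℂ (e x) = e x)
    (hone : OneRealOver L F (e.comp (algebraMap F (AlgebraicClosure K)))) {a d : AlgebraicClosure K}
    (ha : a ≠ 0) (haf : FixG (L.fixingSubgroup ⊓ F.fixingSubgroup) a)
    (hd : FixG F.fixingSubgroup d) (hN : normG L F.fixingSubgroup a = d * d) :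
    ∃ t : ℝ, 0 < t ∧ e a = t := by
  classical
  have hfi := vn_finiteIndex L
  let _ := L.fixingSubgroup.fintypeQuotientOfFiniteIndex
  have hfix : L.fixingSubgroup ⊓ F.fixingSubgroup = (L ⊔ F).fixingSubgroup := by
    rw [IntermediateField.fixingSubgroup_sup]
  obtain ⟨s, hs⟩ := v7_conj e fun x => hreal _ ((L ⊔ F).algebraMap_mem x)
  have hss : ∀ z, s (s z) = z := fun z => by
    apply e.injective
    rw [hs, hs, Complex.conj_conj]
  have hsF : s ∈ F.fixingSubgroup := by
    rw [IntermediateField.mem_fixingSubgroup_iff]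
    intro x hx
    apply e.injective
    rw [hs]
    exact hreal x ((le_sup_right : F ≤ L ⊔ F) hx)
  have hsL : s ∈ L.fixingSubgroup := by
    rw [IntermediateField.mem_fixingSubgroup_iff]
    intro x hx
    apply e.injective
    rw [hs]
    exact hreal x ((le_sup_left : L ≤ L ⊔ F) hx)
  let X := (AlgebraicClosure K ≃ₐ[K] AlgebraicClosure K) ⧸ L.fixingSubgroup
  let τ : X → X := fun q => s • q
  let φ : X → ℂ := fun q => e (repG L F.fixingSubgroup q a)
  have hrep := v4_rep L F.fixingSubgroup hT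
  have hs1 : s * s = 1 := AlgEquiv.ext fun z => hss z
  have hτ : ∀ q, τ (τ q) = q := fun q => by
    show s • s • q = q
    rw [← mul_smul, hs1, one_smul]
  have hmul : ∀ q, ((s * repG L F.fixingSubgroup q :
      AlgebraicClosure K ≃ₐ[K] AlgebraicClosure K) : X) = τ q := fun q => by
    show s • ((repG L F.fixingSubgroup q : AlgebraicClosure K ≃ₐ[K] AlgebraicClosure K) : X) = s • q
    rw [(hrep q).2]
  have hφ : ∀ q, φ (τ q) = starRingEnd ℂ (φ q) := fun q => by
    show e (repG L F.fixingSubgroup (τ q) a) = starRingEnd ℂ (e (repG L F.fixingSubgroup q a))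
    rw [v4_rep_apply L F.fixingSubgroup hT haf (τ q)
      (F.fixingSubgroup.mul_mem hsF (hrep q).1) (hmul q), AlgEquiv.mul_apply, hs]
  have hne : ∀ q, φ q ≠ 0 := fun q h => by
    have h1 : repG L F.fixingSubgroup q a = 0 := (map_eq_zero e).1 h
    exact ha ((map_eq_zero_iff _ (repG L F.fixingSubgroup q).injective).1 h1)
  let x₀ : X := ((1 : AlgebraicClosure K ≃ₐ[K] AlgebraicClosure K) : X)
  have h0 : ∀ q, τ q = q ↔ q = x₀ := by
    intro q
    constructor
    · intro hq
      set g := repG L F.fixingSubgroup q with hg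
      have hgF : g ∈ F.fixingSubgroup := (hrep q).1
      have h1 : g⁻¹ * (s * g) ∈ L.fixingSubgroup := by
        refine QuotientGroup.eq.1 ?_
        rw [hmul q, hq]
        exact (hrep q).2
      have h2 : g⁻¹ * (s * g) ∈ (L ⊔ F).fixingSubgroup := by
        rw [← hfix]
        exact ⟨h1, F.fixingSubgroup.mul_mem (F.fixingSubgroup.inv_mem hgF)
          (F.fixingSubgroup.mul_mem hsF hgF)⟩
      have h3 : ∀ x ∈ L ⊔ F, s (g x) = g x := fun x hx => by
        have h4 := (IntermediateField.mem_fixingSubgroup_iff _ _).1 h2 x hx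
        have h5 : g ((g⁻¹ * (s * g)) x) = g x := by rw [h4]
        rw [← AlgEquiv.mul_apply, mul_inv_cancel_left, AlgEquiv.mul_apply] at h5
        exact h5
      have h6 := hone e (e.comp (g : AlgebraicClosure K →+* AlgebraicClosure K)) rfl
        (RingHom.ext fun x => by
          show e (g x) = e x
          rw [(IntermediateField.mem_fixingSubgroup_iff _ _).1 hgF x x.2]) hreal
        (fun x hx => by
          show starRingEnd ℂ (e (g x)) = e (g x)
          rw [← hs, h3 x hx])
      have h7 : g ∈ L.fixingSubgroup := by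
        rw [IntermediateField.mem_fixingSubgroup_iff]
        intro x hx
        exact e.injective (h6 x ((le_sup_left : L ≤ L ⊔ F) hx)).symm
      rw [← (hrep q).2]
      refine (QuotientGroup.eq.2 ?_).symm
      rw [inv_one, one_mul]
      exact h7
    · rintro rfl
      show s • ((1 : AlgebraicClosure K ≃ₐ[K] AlgebraicClosure K) : X) = _
      refine (QuotientGroup.eq.2 ?_).symm
      rw [inv_one, one_mul]
      simpa using hsL
  obtain ⟨t, ht, hprod⟩ := v7_prod_inv τ hτ x₀ h0 φ hne hφ
  have hx0 : φ x₀ = e a := by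
    show e (repG L F.fixingSubgroup x₀ a) = e a
    rw [v4_rep_apply L F.fixingSubgroup hT haf x₀ F.fixingSubgroup.one_mem rfl,
      AlgEquiv.one_apply]
  have hdF : starRingEnd ℂ (e d) = e d := by rw [← hs, hd s hsF]
  have haR : starRingEnd ℂ (e a) = e a := by rw [← hs, haf s ⟨hsL, hsF⟩]
  obtain ⟨r, hr⟩ := Complex.conj_eq_iff_real.1 haR
  obtain ⟨δ, hδ⟩ := Complex.conj_eq_iff_real.1 hdF
  have h1 : (δ : ℂ) * δ = r * t := by
    rw [← hδ, ← hr, ← map_mul, ← hN, v4_norm_prod, map_prod, ← hx0]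
    exact hprod
  have h2 : δ * δ = r * t := by exact_mod_cast h1
  have hd0 : δ ≠ 0 := by
    rintro rfl
    have h3 : d = 0 := e.injective (by rw [hδ, Complex.ofReal_zero, map_zero])
    rw [h3, mul_zero] at hN
    exact v4_norm_ne L F.fixingSubgroup ha hN
  refine ⟨r, ?_, hr⟩
  have h3 : 0 < δ * δ := mul_self_pos.2 hd0
  rw [h2] at h3
  exact pos_of_mul_pos_left h3 ht.le

end Pool.Agent.H.MP_ac3185_nt
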