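import Pool.Agent.H.MP_ac3185_nt.V7.Defs

/-! Primes above a place of `F`. -/

set_option autoImplicit false

open NumberField IsDedekindDomain

namespace Pool.Agent.H.MP_ac3185_nt

universe u

variable {K : Type u} [Field K] (F : IntermediateField K (AlgebraicClosure K))

theorem v7_fin {𝔓 : Ideal (𝓞 (AlgebraicClosure K))} {v : HeightOneSpectrum (𝓞 F)}
    (h : PrimeOver F 𝔓 v) : FinPrime 𝔓 := by
  refine ⟨h.1, fun h0 => v.ne_bot ?_⟩
  rw [← h.2, h0, Ideal.comap_bot_of_injective]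
  exact FaithfulSMul.algebraMap_injective (𝓞 F) (𝓞 (AlgebraicClosure K))

theorem v7_two {𝔓 : Ideal (𝓞 (AlgebraicClosure K))} {v : HeightOneSpectrum (𝓞 F)}
    (h : PrimeOver F 𝔓 v) (h2 : 2 ∉ v.asIdeal) : 2 ∉ 𝔓 := by
  intro h3
  apply h2
  rw [← h.2, Ideal.mem_comap, map_ofNat]
  exact h3

end Pool.Agent.H.MP_ac3185_nt
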