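import Pool.Agent.H.MP_ac3185_nt.V7.Even
import Pool.Agent.H.MP_ac3185_nt.V7.Pos
import Pool.Agent.H.MP_ac3185_nt.V7.Prime
import Pool.Agent.H.MP_ac3185_nt.R.PlB
import Pool.Agent.H.MP_ac3185_nt.V4.Quad

/-! The class condition over `K`. -/

set_option autoImplicit false

open NumberField IsDedekindDomain
open scoped Pointwise

namespace Pool.Agent.H.MP_ac3185_nt

universe u

variable {K : Type u} [Field K] [NumberField K] (L F : IntermediateField K (AlgebraicClosure K))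

/-- The primes at which the classes are unramified. -/
def unrF (F : IntermediateField K (AlgebraicClosure K)) (T : Set (HeightOneSpectrum (𝓞 F))) :
    Set (Ideal (𝓞 (AlgebraicClosure K))) :=
  {𝔓 | ∃ v : HeightOneSpectrum (𝓞 F), PrimeOver F 𝔓 v ∧ (2 ∉ v.asIdeal ∨ v ∈ T)}

/-- The primes at which the classes have even valuation. -/
def evenF (L F : IntermediateField K (AlgebraicClosure K)) (T : Set (HeightOneSpectrum (𝓞 F))) :
    Set (Ideal (𝓞 (AlgebraicClosure K))) :=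
  {𝔓 | ∃ v : HeightOneSpectrum (𝓞 F), PrimeOver F 𝔓 v ∧ 2 ∈ v.asIdeal ∧ v ∉ T ∧ ¬ OneOver L F v}

/-- The embeddings at which the classes are positive. -/
def posF (L F : IntermediateField K (AlgebraicClosure K)) (R : Set (F →+* ℂ)) :
    Set (AlgebraicClosure K →+* ℂ) :=
  {e | e.comp (algebraMap F (AlgebraicClosure K)) ∈ R ∧
    ¬ OneRealOver L F (e.comp (algebraMap F (AlgebraicClosure K)))}

/-- Translates by `Gal(Kbar/F)` lie above the same place of `F`. -/
theorem v7_over_smul {g : AlgebraicClosure K ≃ₐ[K] AlgebraicClosure K} (hg : g ∈ F.fixingSubgroup)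
    {𝔓 : Ideal (𝓞 (AlgebraicClosure K))} {v : HeightOneSpectrum (𝓞 F)} (h : PrimeOver F 𝔓 v) :
    PrimeOver F (g • 𝔓) v := by
  have hP : 𝔓.IsPrime := h.1
  refine ⟨Ideal.IsPrime.smul g, ?_⟩
  rw [← h.2]
  ext x
  rw [Ideal.mem_comap, Ideal.mem_comap]
  conv_lhs => rw [← plb_smul_fix F hg x]
  exact Ideal.smul_mem_pointwise_smul_iff

theorem v7_stab_unr (T : Set (HeightOneSpectrum (𝓞 F))) : StabU F.fixingSubgroup (unrF F T) := by
  rintro g hg 𝔓 ⟨v, hv, hT⟩
  exact ⟨v, v7_over_smul F hg hv, hT⟩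

theorem v7_stab_even (T : Set (HeightOneSpectrum (𝓞 F))) :
    StabU F.fixingSubgroup (evenF L F T) := by
  rintro g hg 𝔓 ⟨v, hv, h2, hT⟩
  exact ⟨v, v7_over_smul F hg hv, h2, hT⟩

omit [NumberField K] in
theorem v7_stab_pos (R : Set (F →+* ℂ)) : StabP F.fixingSubgroup (posF L F R) := by
  rintro g hg e ⟨h1, h2⟩
  have h3 : (e.comp (g : AlgebraicClosure K →+* AlgebraicClosure K)).comp
      (algebraMap F (AlgebraicClosure K)) = e.comp (algebraMap F (AlgebraicClosure K)) := by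
    ext x
    show e (g (algebraMap F (AlgebraicClosure K) x)) = e (algebraMap F (AlgebraicClosure K) x)
    congr 1
    exact (IntermediateField.mem_fixingSubgroup_iff F g).1 hg _ x.2
  unfold posF
  rw [Set.mem_ofPred_eq, h3]
  exact ⟨h1, h2⟩

/-- The class condition over `K`. -/
theorem v7_base [FiniteDimensional K L] [FiniteDimensional K F]
    (Rel : Set (Set ((AlgebraicClosure K ≃ₐ[K] AlgebraicClosure K) ⧸ F.fixingSubgroup)))
    (hodd : Odd (Module.finrank K L)) (hlin : TransOn L F.fixingSubgroup)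
    (T : Set (HeightOneSpectrum (𝓞 F))) (R : Set (F →+* ℂ))
    (hcls : ∀ a ∈ frameClasses L F Rel T R, IsSquare a) :
    TrivF L F Rel ⊤ (unrF F T) (evenF L F T) (posF L F R) := by
  rintro a ⟨⟨ha0, ha, ⟨d, hd, hN⟩, hU, hP⟩, hE, hRel⟩
  rw [inf_top_eq] at *
  have hsup : (L ⊔ F : IntermediateField K (AlgebraicClosure K)).fixingSubgroup =
      L.fixingSubgroup ⊓ F.fixingSubgroup := IntermediateField.fixingSubgroup_sup
  have haL : a ∈ L ⊔ F := vn_mem _ fun s hs => ha s (by rw [← hsup]; exact hs)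
  have hmem : (⟨a, haL⟩ : (L ⊔ F : IntermediateField K (AlgebraicClosure K))) ∈
      frameClasses L F Rel T R := by
    refine ⟨fun h => ha0 (congrArg Subtype.val h), ⟨d, vn_mem F hd, hN⟩, ?_, ?_, ?_, ?_⟩
    · intro Ω hΩ
      obtain ⟨d', h1, h2⟩ := hRel Ω hΩ
      exact ⟨d', fun s hs h3 => h1 s hs (Subgroup.mem_top s) h3, h2⟩
    · intro v 𝔓 h𝔓 hT s hs hsL z hz
      rw [hsup] at hsL
      exact hU 𝔓 ⟨v, h𝔓, hT⟩ s hs hsL z hz
    · intro v 𝔓 h𝔓 h2v hT
      by_cases h1 : OneOver L F v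
      · exact v4_even L hodd F hlin 𝔓 (v7_fin F h𝔓) (h1 𝔓 h𝔓) ha0 ha hd hN
      · rw [← v7_evenG_iff, hsup]
        exact hE 𝔓 ⟨v, h𝔓, h2v, hT, h1⟩
    · intro e he hreal
      by_cases h1 : OneRealOver L F (e.comp (algebraMap F (AlgebraicClosure K)))
      · exact v7_pos L F hlin e hreal h1 ha0 ha hd hN
      · exact hP e ⟨he, h1⟩ fun x hx => hreal x (vn_mem _ fun s hs => hx s (by
          rw [← hsup]
          exact hs))
  obtain ⟨b, hb⟩ := hcls _ hmem
  refine ⟨(b : AlgebraicClosure K), fun s hs => vn_fix _ b.2 (by rw [hsup]; exact hs), ?_⟩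
  exact congrArg Subtype.val hb

end Pool.Agent.H.MP_ac3185_nt
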