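import Pool.Agent.H.MP_ac3185_nt.V8.Defs

/-! Definitions for the theorem on towers, for the descent along Galois stable subgroups of
`A(Kbar)`. -/

set_option autoImplicit false

open CategoryTheory AlgebraicGeometry NumberField IsDedekindDomain
open scoped MonObj Pointwise

namespace Pool.Agent.H.MP_ac3185_nt

universe u

section field

variable {K : Type u} [Field K]

/-- The valuation of `a` at the place of the field given by `H` below `𝔓` is even. -/
def EvenG (H : Subgroup (AlgebraicClosure K ≃ₐ[K] AlgebraicClosure K))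
    (𝔓 : Ideal (𝓞 (AlgebraicClosure K))) (a : AlgebraicClosure K) : Prop :=
  ∃ b, FixG H b ∧ b ≠ 0 ∧ ∃ x y : 𝓞 (AlgebraicClosure K), x ∉ 𝔓 ∧ y ∉ 𝔓 ∧
    a * (y : AlgebraicClosure K) = b * b * (x : AlgebraicClosure K)

/-- The elements `a` of the field `N` given by `Gal(Kbar/LF) ∩ G` with these properties: the norm to
the field given by `Gal(Kbar/F) ∩ G` is a square in it; for all sets `Ω` in `Rel` of cosets of
`Gal(Kbar/F)` the product of the conjugates `τ a`, for the classes in `Ω` with representatives `τ` in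
`Gal(Kbar/L) ∩ G`, is the square of an element fixed by all `s` in `Gal(Kbar/L) ∩ G` with `s Ω = Ω`;
`N(√a) / N` is unramified at the primes in `U`; the valuation of `a` is even at the primes in `E`; `a`
is positive at the `e` in `P` which are real on `N`. -/
def selF (L F : IntermediateField K (AlgebraicClosure K))
    (Rel : Set (Set ((AlgebraicClosure K ≃ₐ[K] AlgebraicClosure K) ⧸ F.fixingSubgroup)))
    (G : Subgroup (AlgebraicClosure K ≃ₐ[K] AlgebraicClosure K))
    (U E : Set (Ideal (𝓞 (AlgebraicClosure K)))) (P : Set (AlgebraicClosure K →+* ℂ)) :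
    Set (AlgebraicClosure K) :=
  {a | a ∈ selG L (F.fixingSubgroup ⊓ G) U P ∧
    (∀ 𝔓 ∈ E, EvenG (L.fixingSubgroup ⊓ (F.fixingSubgroup ⊓ G)) 𝔓 a) ∧
    ∀ Ω ∈ Rel, ∃ d : AlgebraicClosure K,
      (∀ s ∈ L.fixingSubgroup, s ∈ G → (∀ q ∈ Ω, s • q ∈ Ω) → s d = d) ∧
      ∏ᶠ q ∈ Ω, repG F (L.fixingSubgroup ⊓ G) q a = d * d}

/-- All elements of `selF L F Rel G U E P` are squares. -/
def TrivF (L F : IntermediateField K (AlgebraicClosure K))
    (Rel : Set (Set ((AlgebraicClosure K ≃ₐ[K] AlgebraicClosure K) ⧸ F.fixingSubgroup)))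
    (G : Subgroup (AlgebraicClosure K ≃ₐ[K] AlgebraicClosure K))
    (U E : Set (Ideal (𝓞 (AlgebraicClosure K)))) (P : Set (AlgebraicClosure K →+* ℂ)) : Prop :=
  ∀ a ∈ selF L F Rel G U E P,
    ∃ b, FixG (L.fixingSubgroup ⊓ (F.fixingSubgroup ⊓ G)) b ∧ a = b * b

/-- A set of primes which is stable under the group `S`. -/
def StabU (S : Subgroup (AlgebraicClosure K ≃ₐ[K] AlgebraicClosure K))
    (U : Set (Ideal (𝓞 (AlgebraicClosure K)))) : Prop :=
  ∀ g ∈ S, ∀ 𝔓 ∈ U, g • 𝔓 ∈ U

/-- A set of embeddings which is stable under the group `S`. -/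
def StabP (S : Subgroup (AlgebraicClosure K ≃ₐ[K] AlgebraicClosure K))
    (P : Set (AlgebraicClosure K →+* ℂ)) : Prop :=
  ∀ g ∈ S, ∀ e ∈ P, e.comp (g : AlgebraicClosure K →+* AlgebraicClosure K) ∈ P

/-- A set of sets of cosets which is stable under the Galois group. -/
def StabR {F : IntermediateField K (AlgebraicClosure K)}
    (Rel : Set (Set ((AlgebraicClosure K ≃ₐ[K] AlgebraicClosure K) ⧸ F.fixingSubgroup))) : Prop :=
  ∀ g : AlgebraicClosure K ≃ₐ[K] AlgebraicClosure K, ∀ Ω ∈ Rel, {q | g • q ∈ Ω} ∈ Rel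

/-- The sets `Ω` of cosets of `Gal(Kbar/F)` such that for all `x` in `N'` the number of the classes
`g Gal(Kbar/F)` in `Ω` with `g⁻¹ x ∉ H` is even. -/
def relSets (F : IntermediateField K (AlgebraicClosure K)) {A : Over (Spec (.of K))} [GrpObj A]
    [IsAbVar A] (N' H : AddSubgroup (Pts A (AlgebraicClosure K))) :
    Set (Set ((AlgebraicClosure K ≃ₐ[K] AlgebraicClosure K) ⧸ F.fixingSubgroup)) :=
  {Ω | ∀ x, InSub N' x → Even (Ω ∩ shadow F H x).ncard}

/-- The group `A[n]` of the points of `A(Kbar)` killed by `n`. -/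
noncomputable def torPts (A : Over (Spec (.of K))) [GrpObj A] [IsAbVar A] (n : ℕ) :
    AddSubgroup (Pts A (AlgebraicClosure K)) :=
  (nsmulAddMonoidHom n).ker

/-- The point `x` of `A(Kbar)` is fixed by the subgroup `S` of the Galois group. For
`S = Gal(Kbar/M)` this says that `x` is in `A(M)`. -/
def FixPt (A : Over (Spec (.of K))) [GrpObj A] [IsAbVar A]
    (S : Subgroup (AlgebraicClosure K ≃ₐ[K] AlgebraicClosure K))
    (x : Pts A (AlgebraicClosure K)) : Prop :=
  ∀ s ∈ S, act A s x = x

/-- There is at most one real embedding of `LF` which extends the embedding `ε` of `F`. -/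
def OneRealOver (L F : IntermediateField K (AlgebraicClosure K)) (ε : F →+* ℂ) : Prop :=
  ∀ e e' : AlgebraicClosure K →+* ℂ, e.comp (algebraMap F (AlgebraicClosure K)) = ε →
    e'.comp (algebraMap F (AlgebraicClosure K)) = ε →
    (∀ x ∈ L ⊔ F, starRingEnd ℂ (e x) = e x) → (∀ x ∈ L ⊔ F, starRingEnd ℂ (e' x) = e' x) →
    ∀ x ∈ L ⊔ F, e x = e' x

end field

section numberField

variable {K : Type u} [Field K] [NumberField K]

/-- There is only one place of `LF` above the finite place `v` of `F`. -/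
def OneOver (L F : IntermediateField K (AlgebraicClosure K)) (v : HeightOneSpectrum (𝓞 F)) :
    Prop :=
  ∀ 𝔓 : Ideal (𝓞 (AlgebraicClosure K)), PrimeOver F 𝔓 v →
    TransOn L (decompGrp K 𝔓 ⊓ F.fixingSubgroup)

/-- `MF / F` is unramified at the finite place `v` of `F`. -/
def UnramifiedOver (M F : IntermediateField K (AlgebraicClosure K)) (v : HeightOneSpectrum (𝓞 F)) :
    Prop :=
  ∀ 𝔓 : Ideal (𝓞 (AlgebraicClosure K)), PrimeOver F 𝔓 v →
    ∀ s ∈ inertia K 𝔓, s ∈ F.fixingSubgroup → s ∈ M.fixingSubgroup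

/-- `N ≤ H ≤ N'` are subgroups of `A(Kbar)` with `ModFrame F N N' H` and with these properties, for a
set `T` of finite places and a set `R` of embeddings of `F`:
the degree of `F / K` is odd; `L` is linearly disjoint from the field given by the automorphisms which
act trivially on `N' / N`;
`MF / F` is unramified at the finite places of `F` with more than one place of `LF` above them, and at
the real places of `F` in `R` with more than one real place of `LF` above them;
`N' / H` is etale at the places in `T`;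
at the other places `v` of `F` above `2` the fibres over `LM` are even or there is only one place of
`LF` above `v`; at the finite places `v` not above `2`, `N' / H` is etale, or the fibres over `LM` are
even, or there is only one place of `LF` above `v`;
if `s x - x` is in `N'` for a complex conjugation `s` in `Gal(Kbar/F)` above an embedding in `R`, then
it is in `H`;
all elements of `frameClasses L F (relSets F N' H) T R` are squares. -/
structure PureLayer (L M F : IntermediateField K (AlgebraicClosure K))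
    (T : Set (HeightOneSpectrum (𝓞 F))) (R : Set (F →+* ℂ))
    {A : Over (Spec (.of K))} [GrpObj A] [IsAbVar A]
    (N N' H : AddSubgroup (Pts A (AlgebraicClosure K))) : Prop extends ModFrame F N N' H where
  deg : Odd (Module.finrank K F)
  lin : ∀ s, ∃ t ∈ L.fixingSubgroup, ∀ x, InSub N' x → InSub N (act A (t⁻¹ * s) x - x)
  unr : ∀ v, OneOver L F v ∨ UnramifiedOver M F v
  inf : ∀ (e : AlgebraicClosure K →+* ℂ) (s : AlgebraicClosure K ≃ₐ[K] AlgebraicClosure K),
    e.comp (algebraMap F (AlgebraicClosure K)) ∈ R → s ∈ F.fixingSubgroup →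
    (∀ z, e (s z) = starRingEnd ℂ (e z)) →
    OneRealOver L F (e.comp (algebraMap F (AlgebraicClosure K))) ∨ s ∈ M.fixingSubgroup
  etale : ∀ v ∈ T, ∀ 𝔓, PrimeOver F 𝔓 v → EtaleQuot F N' H 𝔓
  two : ∀ v ∉ T, 2 ∈ v.asIdeal → OneOver L F v ∨
    ∀ 𝔓, PrimeOver F 𝔓 v → EvenQuot (L ⊔ M) F N' H ∅ 𝔓
  away : ∀ v, 2 ∉ v.asIdeal → OneOver L F v ∨ (∀ 𝔓, PrimeOver F 𝔓 v → EtaleQuot F N' H 𝔓) ∨
    ∀ 𝔓, PrimeOver F 𝔓 v → EvenQuot (L ⊔ M) F N' H ∅ 𝔓
  real : ∀ (e : AlgebraicClosure K →+* ℂ) (s : AlgebraicClosure K ≃ₐ[K] AlgebraicClosure K),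
    e.comp (algebraMap F (AlgebraicClosure K)) ∈ R → s ∈ F.fixingSubgroup →
    (∀ z, e (s z) = starRingEnd ℂ (e z)) →
    ∀ x, InSub N' (act A s x - x) → InSub H (act A s x - x)
  cls : ∀ a ∈ frameClasses L F (relSets F N' H) T R, IsSquare a

/-- There are subgroups `0 = N_0 ≤ ⋯ ≤ N_r = N` of `A(Kbar)` with `PureLayer L M F T R N_(i-1) N_i H`
for all `i`, where `F`, `H`, `T` and `R` depend on `i`. -/
inductive LayerChain (L M : IntermediateField K (AlgebraicClosure K)) (A : Over (Spec (.of K)))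
    [GrpObj A] [IsAbVar A] : AddSubgroup (Pts A (AlgebraicClosure K)) → Prop
  | zero : LayerChain L M A ⊥
  | step (N N' H : AddSubgroup (Pts A (AlgebraicClosure K)))
      (F : IntermediateField K (AlgebraicClosure K)) [FiniteDimensional K F]
      (T : Set (HeightOneSpectrum (𝓞 F))) (R : Set (F →+* ℂ)) :
      LayerChain L M A N → PureLayer L M F T R N N' H → LayerChain L M A N'

end numberField

end Pool.Agent.H.MP_ac3185_nt
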