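import Pool.Agent.H.MP_ac3185_nt.V7.Defs
import Pool.Agent.H.MP_ac3185_nt.V4.Quad

/-! Products of conjugates over a set of cosets. -/

set_option autoImplicit false

open NumberField IsDedekindDomain
open scoped Pointwise

namespace Pool.Agent.H.MP_ac3185_nt

universe u

variable {K : Type u} [Field K] [CharZero K] (L F : IntermediateField K (AlgebraicClosure K))
  [FiniteDimensional K L] [FiniteDimensional K F]

/-- The product of the conjugates of `a` over `Ω`, with representatives in `S`. -/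
noncomputable def relP {K : Type u} [Field K] (F : IntermediateField K (AlgebraicClosure K))
    (S : Subgroup (AlgebraicClosure K ≃ₐ[K] AlgebraicClosure K))
    (Ω : Set ((AlgebraicClosure K ≃ₐ[K] AlgebraicClosure K) ⧸ F.fixingSubgroup))
    (a : AlgebraicClosure K) : AlgebraicClosure K :=
  ∏ᶠ q ∈ Ω, repG F S q a

omit [FiniteDimensional K L] [FiniteDimensional K F] [CharZero K] in
theorem v7r_swap {S : Subgroup (AlgebraicClosure K ≃ₐ[K] AlgebraicClosure K)}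
    (hT : TransOn L (F.fixingSubgroup ⊓ S)) (hTF : TransOn F S) :
    TransOn F (L.fixingSubgroup ⊓ S) := by
  intro s
  obtain ⟨t, ht, hts⟩ := hTF s
  obtain ⟨φ, ⟨hφF, hφS⟩, hφ⟩ := hT t⁻¹
  refine ⟨t * φ, ⟨?_, mul_mem ht hφS⟩, ?_⟩
  · have h1 := inv_mem hφ
    rwa [mul_inv_rev, inv_inv, inv_inv] at h1
  · have h1 : (t * φ)⁻¹ * s = φ⁻¹ * (t⁻¹ * s) := by group
    rw [h1]
    exact mul_mem (inv_mem hφF) hts

variable (Ω : Set ((AlgebraicClosure K ≃ₐ[K] AlgebraicClosure K) ⧸ F.fixingSubgroup))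

theorem v7r_fin : Ω.Finite := by
  have := vn_finiteIndex F
  let _ := F.fixingSubgroup.fintypeQuotientOfFiniteIndex
  exact Set.toFinite Ω

variable (S : Subgroup (AlgebraicClosure K ≃ₐ[K] AlgebraicClosure K))

theorem v7r_mul (a b : AlgebraicClosure K) :
    relP F S Ω (a * b) = relP F S Ω a * relP F S Ω b := by
  unfold relP
  rw [← finprod_mem_mul_distrib (v7r_fin F Ω)]
  exact finprod_mem_congr rfl fun q _ => map_mul _ _ _

omit [CharZero K] [FiniteDimensional K F] in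
theorem v7r_ne {a : AlgebraicClosure K} (ha : a ≠ 0) : relP F S Ω a ≠ 0 := by
  unfold relP
  refine finprod_mem_induction (fun x => x ≠ 0) one_ne_zero (fun x y hx hy => mul_ne_zero hx hy)
    fun q _ => ?_
  rw [Ne, map_eq_zero]
  exact ha

theorem v7r_div (a b : AlgebraicClosure K) (hb : b ≠ 0) :
    relP F S Ω (a / b) = relP F S Ω a / relP F S Ω b := by
  rw [eq_div_iff (v7r_ne F Ω S hb), ← v7r_mul, div_mul_cancel₀ _ hb]

omit [CharZero K] [FiniteDimensional K F] in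
/-- A smaller group of representatives. -/
theorem v7r_low {S' : Subgroup (AlgebraicClosure K ≃ₐ[K] AlgebraicClosure K)} (hle : S' ≤ S)
    (hT : TransOn F S') {a : AlgebraicClosure K} (ha : FixG (F.fixingSubgroup ⊓ S) a) :
    relP F S' Ω a = relP F S Ω a := by
  have hT' : TransOn F S := fun s => by
    obtain ⟨t, ht, h⟩ := hT s
    exact ⟨t, hle ht, h⟩
  refine finprod_mem_congr rfl fun q _ => ?_
  obtain ⟨h1, h2⟩ := v4_rep F S' hT q
  exact (v4_rep_apply F S hT' ha q (hle h1) h2).symm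

/-- The action of an element which stabilizes `Ω`. -/
theorem v7r_act {s : AlgebraicClosure K ≃ₐ[K] AlgebraicClosure K} (hs : ∀ q ∈ Ω, s • q ∈ Ω)
    {a a' : AlgebraicClosure K} (h : ∀ q, s (repG F S q a) = repG F S (s • q) a') :
    s (relP F S Ω a) = relP F S Ω a' := by
  have h1 : s (relP F S Ω a) = ∏ᶠ q ∈ Ω, s (repG F S q a) :=
    (s : AlgebraicClosure K →* AlgebraicClosure K).map_finprod_mem _ (v7r_fin F Ω)
  rw [h1]
  refine finprod_mem_eq_of_bijOn (fun q => s • q) ?_ fun q _ => h q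
  exact ((v7r_fin F Ω).injOn_iff_bijOn_of_mapsTo hs).1 (MulAction.injective s).injOn

/-- Translation of `Ω`. -/
theorem v7r_shift {σ : AlgebraicClosure K ≃ₐ[K] AlgebraicClosure K}
    {a a' : AlgebraicClosure K} (h : ∀ q, repG F S (σ • q) a' = σ (repG F S q a)) :
    relP F S Ω a' = σ (relP F S {q | σ • q ∈ Ω} a) := by
  have h1 : σ (relP F S {q | σ • q ∈ Ω} a) = ∏ᶠ q ∈ {q | σ • q ∈ Ω}, σ (repG F S q a) :=
    (σ : AlgebraicClosure K →* AlgebraicClosure K).map_finprod_mem _ (v7r_fin F _)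
  rw [h1]
  refine (finprod_mem_eq_of_bijOn (fun q => σ • q) ⟨fun q hq => hq,
    (MulAction.injective σ).injOn, fun q hq => ⟨σ⁻¹ • q, ?_, smul_inv_smul σ q⟩⟩
    fun q _ => (h q).symm).symm
  show σ • (σ⁻¹ • q) ∈ Ω
  rwa [smul_inv_smul]

omit [CharZero K] [FiniteDimensional K F] in
theorem v7r_rep (hT : TransOn F S) {a : AlgebraicClosure K} (ha : FixG (F.fixingSubgroup ⊓ S) a)
    {s : AlgebraicClosure K ≃ₐ[K] AlgebraicClosure K} (hs : s ∈ S)
    (q : (AlgebraicClosure K ≃ₐ[K] AlgebraicClosure K) ⧸ F.fixingSubgroup) :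
    s (repG F S q a) = repG F S (s • q) a := by
  obtain ⟨h1, h2⟩ := v4_rep F S hT q
  have h3 : ((s * repG F S q : AlgebraicClosure K ≃ₐ[K] AlgebraicClosure K) :
      (AlgebraicClosure K ≃ₐ[K] AlgebraicClosure K) ⧸ F.fixingSubgroup) = s • q := by
    rw [← smul_eq_mul, ← MulAction.Quotient.smul_coe, h2]
  rw [v4_rep_apply F S hT ha (s • q) (mul_mem hs h1) h3, AlgEquiv.mul_apply]

omit [FiniteDimensional K L] [FiniteDimensional K F] [CharZero K] in
/-- Three factors outside the subgroup of index `2`, one inside. -/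
theorem v7r_four {G' G : Subgroup (AlgebraicClosure K ≃ₐ[K] AlgebraicClosure K)} (hle : G' ≤ G)
    (h2 : IndexTwo G' G) {σ s x y : AlgebraicClosure K ≃ₐ[K] AlgebraicClosure K} (hσ : σ ∈ G)
    (hσ' : σ ∉ G') (hs : s ∈ G) (hs' : s ∉ G') (hx : x ∈ G') (hy : y ∈ G') :
    (x * σ)⁻¹ * (s * y) ∈ G' := by
  refine v4q_coset h2 (mul_mem (hle hx) hσ) (fun h => hσ' ?_) (mul_mem hs (hle hy)) fun h => hs' ?_
  · have h1 := mul_mem (inv_mem hx) h
    rwa [inv_mul_cancel_left] at h1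
  · have h1 := mul_mem h (inv_mem hy)
    rwa [mul_inv_cancel_right] at h1

omit [FiniteDimensional K L] in
/-- The relation for `a σ(a)`. -/
theorem v7r_sigma {G' G : Subgroup (AlgebraicClosure K ≃ₐ[K] AlgebraicClosure K)} (hle : G' ≤ G)
    (h2 : IndexTwo G' G) (hT' : TransOn F (L.fixingSubgroup ⊓ G'))
    {σ : AlgebraicClosure K ≃ₐ[K] AlgebraicClosure K} (hσL : σ ∈ L.fixingSubgroup)
    (hσF : σ ∈ F.fixingSubgroup) (hσG : σ ∈ G) (hσG' : σ ∉ G') {a d₁ d₂ : AlgebraicClosure K}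
    (ha : FixG (L.fixingSubgroup ⊓ (F.fixingSubgroup ⊓ G')) a)
    (h₁ : ∀ s ∈ L.fixingSubgroup, s ∈ G' → (∀ q ∈ Ω, s • q ∈ Ω) → s d₁ = d₁)
    (e₁ : relP F (L.fixingSubgroup ⊓ G') Ω a = d₁ * d₁)
    (h₂ : ∀ s ∈ L.fixingSubgroup, s ∈ G' → (∀ q ∈ {q | σ • q ∈ Ω}, s • q ∈ {q | σ • q ∈ Ω}) →
      s d₂ = d₂)
    (e₂ : relP F (L.fixingSubgroup ⊓ G') {q | σ • q ∈ Ω} a = d₂ * d₂) :
    (∀ s ∈ L.fixingSubgroup, s ∈ G → (∀ q ∈ Ω, s • q ∈ Ω) → s (d₁ * σ d₂) = d₁ * σ d₂) ∧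
      relP F (L.fixingSubgroup ⊓ G) Ω (a * σ a) = d₁ * σ d₂ * (d₁ * σ d₂) := by
  set Λ := L.fixingSubgroup with hΛ
  set S := Λ ⊓ G' with hS
  have hcomm : Λ ⊓ (F.fixingSubgroup ⊓ G') = F.fixingSubgroup ⊓ S := by
    rw [hS, ← inf_assoc, ← inf_assoc, inf_comm Λ F.fixingSubgroup]
  have ha' : FixG (F.fixingSubgroup ⊓ S) a := by rwa [← hcomm]
  -- the representatives and `σ`
  have hsh : ∀ s ∈ Λ, s ∈ G → s ∉ G' → ∀ q, s (repG F S q a) = repG F S (s • q) (σ a) := by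
    intro s hsL hsG hsG' q
    obtain ⟨⟨x1, x2⟩, x3⟩ := v4_rep F S hT' (s • q)
    obtain ⟨⟨y1, y2⟩, y3⟩ := v4_rep F S hT' q
    have h3 : (repG F S (s • q) * σ)⁻¹ * (s * repG F S q) ∈ F.fixingSubgroup ⊓ S := by
      refine ⟨?_, Λ.mul_mem (Λ.inv_mem (Λ.mul_mem x1 hσL)) (Λ.mul_mem hsL y1),
        v7r_four hle h2 hσG hσG' hsG hsG' x2 y2⟩
      have e3 : (repG F S (s • q) * σ)⁻¹ * (s * repG F S q) =
          σ⁻¹ * ((repG F S (s • q))⁻¹ * (s * repG F S q)) := by group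
      rw [e3]
      refine F.fixingSubgroup.mul_mem (F.fixingSubgroup.inv_mem hσF) ?_
      rw [← QuotientGroup.eq, x3, ← smul_eq_mul, ← MulAction.Quotient.smul_coe, y3]
    have h4 := ha' _ h3
    have h5 := congrArg (repG F S (s • q) * σ) h4
    rw [← AlgEquiv.mul_apply, mul_inv_cancel_left, AlgEquiv.mul_apply, AlgEquiv.mul_apply] at h5
    exact h5
  have hshift := v7r_shift F Ω S (σ := σ) (a := a) (a' := σ a)
    fun q => (hsh σ hσL hσG hσG' q).symm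
  rw [e₂, map_mul] at hshift
  have hσS : ∀ s ∈ S, σ⁻¹ * s * σ ∈ S := fun s hs =>
    ⟨Λ.mul_mem (Λ.mul_mem (Λ.inv_mem hσL) hs.1) hσL, v4q_conj' hle h2 hσG hs.2⟩
  have haσ : FixG (F.fixingSubgroup ⊓ S) (σ a) := by
    refine v4q_fix_gal (F.fixingSubgroup ⊓ S) (fun s hs => ⟨?_, hσS s hs.2⟩) ha'
    exact F.fixingSubgroup.mul_mem (F.fixingSubgroup.mul_mem (F.fixingSubgroup.inv_mem hσF) hs.1)
      hσF
  have hσσ : σ (σ a) = a := ha' (σ * σ) ⟨F.fixingSubgroup.mul_mem hσF hσF,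
    Λ.mul_mem hσL hσL, v4q_sq h2 hσG⟩
  have hfixG : FixG (F.fixingSubgroup ⊓ (Λ ⊓ G)) (a * σ a) := by
    have h3 : FixG ((F.fixingSubgroup ⊓ Λ) ⊓ G) (a * σ a) := by
      refine v4q_fix_up h2 (F.fixingSubgroup ⊓ Λ) ⟨hσF, hσL⟩ hσG hσG' ?_ ?_
      · rw [inf_assoc]
        exact v4q_fix_mul ha' haσ
      · rw [map_mul, hσσ, mul_comm]
    rwa [inf_assoc] at h3
  have hprod : relP F (Λ ⊓ G) Ω (a * σ a) = d₁ * σ d₂ * (d₁ * σ d₂) := by
    rw [← v7r_low F Ω (Λ ⊓ G) (inf_le_inf_left _ hle) hT' hfixG, v7r_mul, e₁, hshift]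
    ring
  refine ⟨fun s hsL hsG hsΩ => ?_, hprod⟩
  by_cases hsG' : s ∈ G'
  · rw [map_mul, h₁ s hsL hsG' hsΩ]
    congr 1
    have h3 : s (σ d₂) = σ ((σ⁻¹ * s * σ) d₂) := by
      rw [← AlgEquiv.mul_apply, ← AlgEquiv.mul_apply]
      congr 1
      group
    have h4 := hσS s ⟨hsL, hsG'⟩
    rw [h3, h₂ _ h4.1 h4.2 fun q hq => ?_]
    show σ • ((σ⁻¹ * s * σ) • q) ∈ Ω
    rw [← mul_smul]
    have h5 : σ * (σ⁻¹ * s * σ) = s * σ := by group
    rw [h5, mul_smul]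
    exact hsΩ _ hq
  · have h3 : s d₁ * s d₁ = σ d₂ * σ d₂ := by
      rw [← map_mul, ← e₁, v7r_act F Ω S hsΩ (hsh s hsL hsG hsG'), hshift]
    have h4 : s (s d₁) = d₁ := by
      rw [← AlgEquiv.mul_apply]
      refine h₁ _ (Λ.mul_mem hsL hsL) (v4q_sq h2 hsG) fun q hq => ?_
      rw [mul_smul]
      exact hsΩ _ (hsΩ q hq)
    rcases mul_self_eq_mul_self_iff.1 h3 with h5 | h5
    · have h6 : s (σ d₂) = d₁ := by rw [← h5, h4]
      rw [map_mul, h5, h6, mul_comm]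
    · have h6 : s (σ d₂) = -d₁ := by
        have h7 : σ d₂ = -(s d₁) := by rw [h5, neg_neg]
        rw [h7, map_neg, h4]
      rw [map_mul, h5, h6]
      ring

/-- The relation for `a z`, where `z = e²` is the norm of `a`: `w` is a square root of the product of
the conjugates of `a`, and `w` times the product of the conjugates of `e` is fixed by the elements of
`G` which stabilize `Ω`. -/
theorem v7r_norm (hodd : Odd (Module.finrank K L))
    (W : Subgroup (AlgebraicClosure K ≃ₐ[K] AlgebraicClosure K))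
    (hW : ∀ w ∈ W, ∀ g : AlgebraicClosure K ≃ₐ[K] AlgebraicClosure K,
      g⁻¹ * w * g ∈ F.fixingSubgroup)
    {G' G : Subgroup (AlgebraicClosure K ≃ₐ[K] AlgebraicClosure K)} (hle : G' ≤ G)
    (h2 : IndexTwo G' G) (hTW : TransOn L (W ⊓ G')) (hTL : TransOn L (F.fixingSubgroup ⊓ G'))
    (hTF : TransOn F (L.fixingSubgroup ⊓ G')) {a e w : AlgebraicClosure K}
    (ha : FixG (L.fixingSubgroup ⊓ (F.fixingSubgroup ⊓ G)) a)
    (he : FixG (F.fixingSubgroup ⊓ G') e)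
    (hN : normG L (F.fixingSubgroup ⊓ G) a = e * e)
    (hw : ∀ s ∈ L.fixingSubgroup, s ∈ G' → (∀ q ∈ Ω, s • q ∈ Ω) → s w = w)
    (hy : relP F (L.fixingSubgroup ⊓ G) Ω a = w * w)
    (s : AlgebraicClosure K ≃ₐ[K] AlgebraicClosure K) (hsL : s ∈ L.fixingSubgroup) (hsG : s ∈ G)
    (hsΩ : ∀ q ∈ Ω, s • q ∈ Ω) :
    s (w * relP F (L.fixingSubgroup ⊓ G') Ω e) = w * relP F (L.fixingSubgroup ⊓ G') Ω e := by
  classical
  have hfi := vn_finiteIndex L
  let _ := L.fixingSubgroup.fintypeQuotientOfFiniteIndex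
  set Λ := L.fixingSubgroup with hΛ
  have heF : FixG (F.fixingSubgroup ⊓ (Λ ⊓ G')) e := v4q_fix_mono (by
    rw [← inf_assoc, inf_comm F.fixingSubgroup Λ, inf_assoc]
    exact inf_le_right) he
  have haF : FixG (F.fixingSubgroup ⊓ (Λ ⊓ G)) a := v4q_fix_mono (by
    rw [← inf_assoc, ← inf_assoc, inf_comm F.fixingSubgroup Λ]) ha
  by_cases hsG' : s ∈ G'
  · rw [map_mul, hw s hsL hsG' hsΩ]
    congr 1
    exact v7r_act F Ω (Λ ⊓ G') hsΩ (v7r_rep F (Λ ⊓ G') hTF heF ⟨hsL, hsG'⟩)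
  -- the sign for `w`
  have hTF' : TransOn F (Λ ⊓ G) := fun x => by
    obtain ⟨t, ht, hx⟩ := hTF x
    exact ⟨t, ⟨ht.1, hle ht.2⟩, hx⟩
  have hsw : s w * s w = w * w := by
    rw [← map_mul, ← hy]
    exact v7r_act F Ω (Λ ⊓ G) hsΩ (v7r_rep F (Λ ⊓ G) hTF' haF ⟨hsL, hsG⟩)
  have hsame : ∀ v ∈ Λ, v ∈ G → v ∉ G' → (∀ q ∈ Ω, v • q ∈ Ω) → v w = s w := by
    intro v hv hvG hvG' hvΩ
    have h3 : (s⁻¹ * v) w = w := by
      refine hw _ (Λ.mul_mem (Λ.inv_mem hsL) hv) (v4q_coset h2 hsG hsG' hvG hvG') fun q hq => ?_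
      rw [mul_smul]
      have h4 := ((v7r_fin F Ω).injOn_iff_bijOn_of_mapsTo hsΩ).1 (MulAction.injective s).injOn
      obtain ⟨q', hq', h5⟩ := h4.surjOn (hvΩ q hq)
      have h6 : s • q' = v • q := h5
      rw [← h6, inv_smul_smul]
      exact hq'
    have h5 := congrArg s h3
    rwa [← AlgEquiv.mul_apply, mul_inv_cancel_left] at h5
  -- the norm of `w`
  have hWF : ∀ x ∈ W, ∀ q : (AlgebraicClosure K ≃ₐ[K] AlgebraicClosure K) ⧸ F.fixingSubgroup,
      x • q = q := by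
    intro x hx q
    obtain ⟨g, rfl⟩ := QuotientGroup.mk_surjective q
    rw [MulAction.Quotient.smul_coe, smul_eq_mul, eq_comm, QuotientGroup.eq, ← mul_assoc]
    exact hW x hx g
  set ρ := repG L (W ⊓ G') with hρ
  have hρm : ∀ r, ρ r ∈ W ⊓ G' := fun r => (v4_rep L (W ⊓ G') hTW r).1
  have hρq : ∀ r, (ρ r : (AlgebraicClosure K ≃ₐ[K] AlgebraicClosure K) ⧸ Λ) = r :=
    fun r => (v4_rep L (W ⊓ G') hTW r).2
  set π := repG L (F.fixingSubgroup ⊓ G') with hπ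
  have hπm : ∀ r, π r ∈ F.fixingSubgroup ⊓ G' := fun r =>
    (v4_rep L (F.fixingSubgroup ⊓ G') hTL r).1
  have hπq : ∀ r, (π r : (AlgebraicClosure K ≃ₐ[K] AlgebraicClosure K) ⧸ Λ) = r :=
    fun r => (v4_rep L (F.fixingSubgroup ⊓ G') hTL r).2
  set τ := repG F (Λ ⊓ G') with hτ
  have hτm : ∀ q, τ q ∈ Λ ⊓ G' := fun q => (v4_rep F (Λ ⊓ G') hTF q).1
  obtain ⟨V, hV⟩ : ∃ V, V = ∏ r, ρ r w := ⟨_, rfl⟩
  obtain ⟨E, hE⟩ : ∃ E, E = relP F (Λ ⊓ G') Ω e := ⟨_, rfl⟩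
  have hrel : ∀ x, relP F (Λ ⊓ G') Ω x = ∏ q ∈ (v7r_fin F Ω).toFinset, τ q x := fun x =>
    finprod_mem_eq_finite_toFinset_prod _ _
  have hVE : V * V = E * E := by
    have h3 : E * E = ∏ q ∈ (v7r_fin F Ω).toFinset, ∏ r, τ q (π r a) := by
      rw [hE, ← v7r_mul, ← hN, ← v4_norm_le L (F.fixingSubgroup ⊓ G) (F.fixingSubgroup ⊓ G')
        (inf_le_inf_left _ hle) hTL ha, hrel, v4_norm_prod]
      exact Finset.prod_congr rfl fun q _ => map_prod _ _ _
    have h4 : V * V = ∏ q ∈ (v7r_fin F Ω).toFinset, ∏ r, ρ r (τ q a) := by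
      rw [hV, ← Finset.prod_mul_distrib, Finset.prod_comm]
      refine Finset.prod_congr rfl fun r _ => ?_
      rw [← map_mul, ← hy, ← v7r_low F Ω (Λ ⊓ G) (inf_le_inf_left _ hle) hTF haF, hrel, map_prod]
    rw [h3, h4]
    refine Finset.prod_congr rfl fun q _ => ?_
    refine (Fintype.prod_equiv (MulAction.toPerm (τ q)) _ _ fun r => ?_).symm
    rw [MulAction.toPerm_apply, ← AlgEquiv.mul_apply, ← AlgEquiv.mul_apply]
    have h51 : (ρ (τ q • r) * τ q)⁻¹ * (τ q * π r) ∈ Λ := by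
      have h6 : (τ q)⁻¹ * ((ρ (τ q • r))⁻¹ * (τ q * π r)) ∈ Λ := by
        refine Λ.mul_mem (Λ.inv_mem (hτm q).1) ?_
        rw [← QuotientGroup.eq, hρq, ← smul_eq_mul, ← MulAction.Quotient.smul_coe, hπq]
      rwa [← mul_assoc, ← mul_inv_rev] at h6
    have h5 : (ρ (τ q • r) * τ q)⁻¹ * (τ q * π r) ∈ Λ ⊓ (F.fixingSubgroup ⊓ G) := by
      refine ⟨h51, ?_, ?_⟩
      · have h7 : (ρ (τ q • r) * τ q)⁻¹ * (τ q * π r) =
            ((τ q)⁻¹ * (ρ (τ q • r))⁻¹ * τ q) * π r := by group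
        rw [h7]
        exact F.fixingSubgroup.mul_mem (hW _ (W.inv_mem (hρm _).1) _) (hπm r).1
      · exact G.mul_mem (G.inv_mem (G.mul_mem (hle (hρm _).2) (hle (hτm q).2)))
          (G.mul_mem (hle (hτm q).2) (hle (hπm r).2))
    have h6 := congrArg (ρ (τ q • r) * τ q) (ha _ h5)
    rwa [← AlgEquiv.mul_apply, mul_inv_cancel_left] at h6
  -- the action of `s` on `V`
  have hsV : ∀ κ : AlgebraicClosure K, s w = κ * w → (κ = 1 ∨ κ = -1) → s V = κ * V := by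
    intro κ hκ hκ'
    have h3 : ∀ r, s (ρ r w) = κ * ρ (s • r) w := by
      intro r
      have h4 : (ρ (s • r))⁻¹ * (s * ρ r) ∈ Λ := by
        rw [← QuotientGroup.eq, hρq, ← smul_eq_mul, ← MulAction.Quotient.smul_coe, hρq]
      have h5 := hsame ((ρ (s • r))⁻¹ * (s * ρ r)) h4
        (G.mul_mem (G.inv_mem (hle (hρm _).2)) (G.mul_mem hsG (hle (hρm r).2))) (fun h => hsG' (by
          have h6 := G'.mul_mem (G'.mul_mem (hρm (s • r)).2 h) (G'.inv_mem (hρm r).2)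
          have h7 : ρ (s • r) * ((ρ (s • r))⁻¹ * (s * ρ r)) * (ρ r)⁻¹ = s := by group
          rwa [h7] at h6)) (fun q hq => by
          rw [mul_smul, mul_smul, hWF _ (hρm r).1, hWF _ (W.inv_mem (hρm (s • r)).1)]
          exact hsΩ q hq)
      rw [hκ] at h5
      have h6 := congrArg (ρ (s • r)) h5
      rw [← AlgEquiv.mul_apply, mul_inv_cancel_left, map_mul] at h6
      have h7 : ρ (s • r) κ = κ := by
        rcases hκ' with h | h
        · rw [h, map_one]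
        · rw [h, map_neg, map_one]
      rw [h7] at h6
      exact h6
    have h4 : ∏ r, ρ (s • r) w = ∏ r, ρ r w :=
      Equiv.prod_comp (MulAction.toPerm s) (fun r : (AlgebraicClosure K ≃ₐ[K]
        AlgebraicClosure K) ⧸ Λ => ρ r w)
    rw [hV, map_prod, Finset.prod_congr rfl fun r _ => h3 r, Finset.prod_mul_distrib, h4,
      Finset.prod_const, Finset.card_univ, vn_card]
    congr 1
    rcases hκ' with h | h
    · rw [h, one_pow]
    · rw [h, hodd.neg_one_pow]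
  rw [← hE, map_mul]
  rcases mul_self_eq_mul_self_iff.1 hsw with h3 | h3
  · have h4 := hsV 1 (by rw [h3, one_mul]) (Or.inl rfl)
    rw [one_mul] at h4
    rcases mul_self_eq_mul_self_iff.1 hVE with h5 | h5
    · rw [h3, ← h5, h4]
    · have h6 : E = -V := by rw [h5, neg_neg]
      rw [h3, h6, map_neg, h4]
  · have h4 := hsV (-1) (by rw [h3, neg_one_mul]) (Or.inr rfl)
    rw [neg_one_mul] at h4
    rcases mul_self_eq_mul_self_iff.1 hVE with h5 | h5
    · rw [h3, ← h5, h4]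
      ring
    · have h6 : E = -V := by rw [h5, neg_neg]
      rw [h3, h6, map_neg, h4]
      ring

end Pool.Agent.H.MP_ac3185_nt
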