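import Pool.Agent.H.MP_ac3185_nt.V7.Defs
import Pool.Agent.H.MP_ac3185_nt.V4.Local
import Pool.Agent.H.MP_ac3185_nt.V8.UnrEven

/-! Even valuations in unramified quadratic extensions. -/

set_option autoImplicit false

open NumberField IsDedekindDomain
open scoped Pointwise

namespace Pool.Agent.H.MP_ac3185_nt

universe u

variable {K : Type u} [Field K] [NumberField K]

/-- `EvenAt L` is `EvenG` for `Gal(Kbar/L)`. -/
theorem v7_evenG_iff (L : IntermediateField K (AlgebraicClosure K))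
    (𝔓 : Ideal (𝓞 (AlgebraicClosure K))) (a : AlgebraicClosure K) :
    EvenG L.fixingSubgroup 𝔓 a ↔ EvenAt L 𝔓 a := by
  constructor
  · rintro ⟨b, hb, h⟩
    exact ⟨b, unreven_mem L b hb, h⟩
  · rintro ⟨b, hb, h⟩
    exact ⟨b, fun s hs => (IntermediateField.mem_fixingSubgroup_iff L s).1 hs b hb, h⟩

/-- The field given by an open subgroup. -/
private theorem Even_field (S : Subgroup (AlgebraicClosure K ≃ₐ[K] AlgebraicClosure K))
    (M : IntermediateField K (AlgebraicClosure K)) [FiniteDimensional K M]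
    (hM : M.fixingSubgroup ≤ S) :
    ∃ E : IntermediateField K (AlgebraicClosure K), FiniteDimensional K E ∧
      E.fixingSubgroup = S := by
  have hG : IsGalois K (AlgebraicClosure K) := IsAlgClosure.isGalois K (AlgebraicClosure K)
  refine ⟨IntermediateField.fixedField S, ?_, ?_⟩
  · have h1 : IntermediateField.fixedField S ≤ M := by
      intro x hx
      rw [IntermediateField.mem_fixedField_iff] at hx
      exact unreven_mem M x fun s hs => hx s (hM hs)
    exact FiniteDimensional.of_injective (IntermediateField.inclusion h1).toLinearMap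
      (IntermediateField.inclusion_injective h1)
  · refine le_antisymm ?_ ?_
    · intro s hs
      refine v4_closed S M hM s fun x hx => ?_
      refine (IntermediateField.mem_fixingSubgroup_iff _ s).1 hs x ?_
      rw [IntermediateField.mem_fixedField_iff]
      exact hx
    · intro s hs
      rw [IntermediateField.mem_fixingSubgroup_iff]
      intro x hx
      rw [IntermediateField.mem_fixedField_iff] at hx
      exact hx s hs

omit [NumberField K] in
/-- Traces from the quadratic extension. -/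
private theorem Even_trace (H' H : Subgroup (AlgebraicClosure K ≃ₐ[K] AlgebraicClosure K))
    (hle : H' ≤ H) (h2 : IndexTwo H' H) {σ : AlgebraicClosure K ≃ₐ[K] AlgebraicClosure K}
    (hσ : σ ∈ H) (hσ' : σ ∉ H') {z : AlgebraicClosure K} (hz : FixG H' z) :
    FixG H' (σ z) ∧ FixG H (z + σ z) := by
  have hi : σ⁻¹ ∉ H' := fun h => hσ' (by simpa using inv_mem h)
  have hconj : ∀ s ∈ H', σ⁻¹ * s * σ ∈ H' := by
    intro s hs
    by_contra hcon
    have h5 : σ⁻¹ * s * σ ∈ H := mul_mem (mul_mem (inv_mem hσ) (hle hs)) hσ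
    have h6 := h2 σ hσ _ h5 hσ' hcon
    have h7 : σ * (σ⁻¹ * s * σ) = s * σ := by group
    rw [h7] at h6
    apply hσ'
    have h8 : s⁻¹ * (s * σ) ∈ H' := mul_mem (inv_mem hs) h6
    rwa [inv_mul_cancel_left] at h8
  have hst : ∀ s ∈ H', s (σ z) = σ z := by
    intro s hs
    have h10 := hz _ (hconj s hs)
    rw [AlgEquiv.mul_apply, AlgEquiv.mul_apply] at h10
    have h11 := congrArg σ h10
    rwa [← AlgEquiv.mul_apply, mul_inv_cancel, AlgEquiv.one_apply] at h11
  refine ⟨hst, fun s hs => ?_⟩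
  by_cases h : s ∈ H'
  · rw [map_add, hz s h, hst s h]
  · have h3 : s (σ z) = z := by
      have h4 := hz _ (h2 s hs σ hσ h hσ')
      rwa [AlgEquiv.mul_apply] at h4
    have h5 : s z = σ z := by
      have h6 := hz _ (h2 σ⁻¹ (inv_mem hσ) s hs hi h)
      rw [AlgEquiv.mul_apply] at h6
      have h7 := congrArg σ h6
      rwa [← AlgEquiv.mul_apply, mul_inv_cancel, AlgEquiv.one_apply] at h7
    rw [map_add, h3, h5, add_comm]

/-- There is an integer of `E` which `σ` moves modulo `𝔓`. -/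
private theorem Even_moved (E : IntermediateField K (AlgebraicClosure K))
    (H : Subgroup (AlgebraicClosure K ≃ₐ[K] AlgebraicClosure K)) (hle : E.fixingSubgroup ≤ H)
    {𝔓 : Ideal (𝓞 (AlgebraicClosure K))} (h𝔓 : 𝔓.IsPrime)
    (hI : ∀ s ∈ inertia K 𝔓, s ∈ H → s ∈ E.fixingSubgroup)
    {σ : AlgebraicClosure K ≃ₐ[K] AlgebraicClosure K} (hσ : σ ∈ H)
    (hσ' : σ ∉ E.fixingSubgroup) (hσ𝔓 : σ • 𝔓 = 𝔓) :
    ∃ x : 𝓞 E, σ • algebraMap (𝓞 E) (𝓞 (AlgebraicClosure K)) x -
      algebraMap (𝓞 E) (𝓞 (AlgebraicClosure K)) x ∉ 𝔓 := by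
  by_contra hcon
  push Not at hcon
  obtain ⟨g, hg, hg𝔓, hgs⟩ := v8_res_surj E 𝔓 σ hσ𝔓 hcon
  have h1 : g⁻¹ * σ ∈ inertia K 𝔓 := by
    intro x
    show (g⁻¹ * σ) • x - x ∈ 𝔓
    have h1 := neg_mem (hgs x)
    rw [neg_sub, ← Ideal.smul_mem_pointwise_smul_iff (a := g⁻¹)] at h1
    have h2 : g⁻¹ • 𝔓 = 𝔓 := by
      rw [inv_smul_eq_iff]
      exact hg𝔓.symm
    rw [h2, smul_sub, inv_smul_smul, ← mul_smul] at h1
    exact h1
  have h2 := hI _ h1 (mul_mem (inv_mem (hle hg)) hσ)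
  have h3 := mul_mem hg h2
  rw [mul_inv_cancel_left] at h3
  exact hσ' h3

/-- The case where the place of `N` below `𝔓` has one place of `N'` above it. -/
private theorem Even_inert (E : IntermediateField K (AlgebraicClosure K))
    (H : Subgroup (AlgebraicClosure K ≃ₐ[K] AlgebraicClosure K)) (hle : E.fixingSubgroup ≤ H)
    (h2 : IndexTwo E.fixingSubgroup H) {𝔓 : Ideal (𝓞 (AlgebraicClosure K))} (h𝔓 : FinPrime 𝔓)
    (hI : ∀ s ∈ inertia K 𝔓, s ∈ H → s ∈ E.fixingSubgroup)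
    {σ : AlgebraicClosure K ≃ₐ[K] AlgebraicClosure K} (hσ : σ ∈ H)
    (hσ' : σ ∉ E.fixingSubgroup) (hσ𝔓 : σ • 𝔓 = 𝔓) {b : AlgebraicClosure K}
    (hb : FixG E.fixingSubgroup b) (hb0 : b ≠ 0) :
    ∃ b0, FixG H b0 ∧ UnitAt 𝔓 (b0 / b) := by
  have hP : 𝔓.IsPrime := h𝔓.1
  obtain ⟨x0, hx0⟩ := Even_moved E H hle hP hI hσ hσ' hσ𝔓
  have hσD : σ ∈ decomp K 𝔓 := by
    intro x
    show σ • x ∈ 𝔓 ↔ x ∈ 𝔓
    conv_lhs => rw [← hσ𝔓]
    exact Ideal.smul_mem_pointwise_smul_iff
  obtain ⟨X, Y, hX, hY, hXY⟩ := vu_unitAt h𝔓 hσD hb0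
  by_cases hXY' : X + Y ∈ 𝔓
  · set x1 := algebraMap (𝓞 E) (𝓞 (AlgebraicClosure K)) x0 with hx1
    have hx1fix : FixG E.fixingSubgroup (x1 : AlgebraicClosure K) := fun s hs =>
      (IntermediateField.mem_fixingSubgroup_iff E s).1 hs _ (x0 : E).2
    have hbx : FixG E.fixingSubgroup (b * (x1 : AlgebraicClosure K)) := fun s hs => by
      rw [map_mul, hb s hs, hx1fix s hs]
    refine ⟨_, (Even_trace _ H hle h2 hσ hσ' hbx).2, x1 * (X + Y) + X * (σ • x1 - x1), Y, ?_, hY, ?_⟩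
    · intro h
      have h3 : X * (σ • x1 - x1) ∈ 𝔓 := by
        have h4 := sub_mem h (𝔓.mul_mem_left x1 hXY')
        rwa [add_sub_cancel_left] at h4
      rcases hP.mem_or_mem h3 with h4 | h4
      · exact hX h4
      · exact hx0 h4
    · show (b * (x1 : AlgebraicClosure K) + σ (b * (x1 : AlgebraicClosure K))) / b *
        (Y : AlgebraicClosure K) = (x1 : AlgebraicClosure K) * ((X : AlgebraicClosure K) + Y) +
          (X : AlgebraicClosure K) * (σ (x1 : AlgebraicClosure K) - x1)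
      rw [← hXY, map_mul]
      field_simp
      ring
  · refine ⟨_, (Even_trace _ H hle h2 hσ hσ' hb).2, X + Y, Y, hXY', hY, ?_⟩
    show (b + σ b) / b * (Y : AlgebraicClosure K) = (X : AlgebraicClosure K) + Y
    rw [← hXY]
    field_simp
    ring

/-- The case where the place of `N` below `𝔓` has two places of `N'` above it. -/
private theorem Even_split (E : IntermediateField K (AlgebraicClosure K)) [NumberField E]
    (H : Subgroup (AlgebraicClosure K ≃ₐ[K] AlgebraicClosure K)) (hle : E.fixingSubgroup ≤ H)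
    (h2 : IndexTwo E.fixingSubgroup H) {𝔓 : Ideal (𝓞 (AlgebraicClosure K))} (h𝔓 : FinPrime 𝔓)
    {σ : AlgebraicClosure K ≃ₐ[K] AlgebraicClosure K} (hσ : σ ∈ H)
    (hσ' : σ ∉ E.fixingSubgroup)
    (hne : ∀ τ ∈ H, τ ∉ E.fixingSubgroup → τ • 𝔓 ≠ 𝔓) {b : AlgebraicClosure K}
    (hb : FixG E.fixingSubgroup b) (hb0 : b ≠ 0) :
    ∃ b0, FixG H b0 ∧ UnitAt 𝔓 (b0 / b) := by
  have hP : 𝔓.IsPrime := h𝔓.1
  obtain ⟨v, hv⟩ := v2c_above 𝔓 h𝔓
  obtain ⟨w, hw⟩ := v2_place E hv
  obtain ⟨w', hw', -⟩ := exists_placeBelow E v 𝔓 hv σ⁻¹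
  -- the places are different
  have hww : w.1.asIdeal ≠ w'.asIdeal := by
    intro h
    have h3 : (σ⁻¹ • 𝔓).comap (algebraMap (𝓞 E) (𝓞 (AlgebraicClosure K))) =
        ((1 : AlgebraicClosure K ≃ₐ[K] AlgebraicClosure K) • 𝔓).comap
          (algebraMap (𝓞 E) (𝓞 (AlgebraicClosure K))) := by
      rw [one_smul, hw'.2, hw.2, h]
    obtain ⟨g, hg, hgs⟩ := (same_place_iff E 𝔓 σ⁻¹ 1).1 h3
    rw [one_smul, ← mul_smul] at hgs
    refine hne (g * σ⁻¹) (mul_mem (hle hg) (inv_mem hσ)) ?_ hgs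
    intro h4
    have h5 := mul_mem (inv_mem hg) h4
    rw [inv_mul_cancel_left] at h5
    exact hσ' (by simpa using inv_mem h5)
  obtain ⟨e, he', he⟩ : ∃ e ∈ w'.asIdeal, e ∉ w.1.asIdeal := by
    by_contra hcon
    push Not at hcon
    exact hww (w'.isMaximal.eq_of_le w.1.isPrime.ne_top hcon).symm
  set e1 := algebraMap (𝓞 E) (𝓞 (AlgebraicClosure K)) e with he1
  have he1fix : FixG E.fixingSubgroup (e1 : AlgebraicClosure K) := fun s hs =>
    (IntermediateField.mem_fixingSubgroup_iff E s).1 hs _ (e : E).2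
  -- the elements of `E`
  have hbE : b ∈ E := unreven_mem E b hb
  have hsb : σ b ∈ E := unreven_mem E _ (Even_trace _ H hle h2 hσ hσ' hb).1
  have hse : σ (e1 : AlgebraicClosure K) ∈ E :=
    unreven_mem E _ (Even_trace _ H hle h2 hσ hσ' he1fix).1
  have hsei : IsIntegral ℤ (⟨σ (e1 : AlgebraicClosure K), hse⟩ : E) := by
    have h3 : IsIntegral ℤ (algebraMap E (AlgebraicClosure K) ⟨σ (e1 : AlgebraicClosure K), hse⟩) := by
      show IsIntegral ℤ (σ (e1 : AlgebraicClosure K))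
      exact RingOfIntegers.isIntegral_coe (σ • e1)
    exact (isIntegral_algebraMap_iff (algebraMap E (AlgebraicClosure K)).injective).1 h3
  set f : 𝓞 E := ⟨⟨σ (e1 : AlgebraicClosure K), hse⟩, hsei⟩ with hf
  have hfe : algebraMap (𝓞 E) (𝓞 (AlgebraicClosure K)) f = σ • e1 := by
    apply RingOfIntegers.ext
    rfl
  have hfw : f ∈ w.1.asIdeal := by
    rw [← hw.2, Ideal.mem_comap, hfe]
    rw [← hw'.2, Ideal.mem_comap, Ideal.mem_pointwise_smul_iff_inv_smul_mem, inv_inv] at he'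
    exact he'
  have hfb : (⟨b, hbE⟩ : E) ≠ 0 := fun h => hb0 (congrArg Subtype.val h)
  have hfsb : (⟨σ b, hsb⟩ : E) ≠ 0 := fun h => hb0 (by
    have h3 : σ b = 0 := congrArg Subtype.val h
    simpa using h3)
  set u : E := ⟨σ b, hsb⟩ / ⟨b, hbE⟩ with hu
  have hu0 : u ≠ 0 := div_ne_zero hfsb hfb
  -- a power
  obtain ⟨n, hn⟩ : ∃ n : ℕ, w.1.valuation E (u * (f : E) ^ n) < 1 := by
    by_cases hf0 : (f : E) = 0
    · refine ⟨1, ?_⟩
      rw [hf0, zero_pow one_ne_zero, mul_zero, map_zero]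
      exact zero_lt_one
    · have h3 : 1 ≤ vOrd w.1 (f : E) := by
        have h4 : w.1.valuation E (f : E) < 1 :=
          (w.1.valuation_lt_one_iff_mem (K := E) f).2 hfw
        have h5 : w.1.valuation E (f : E) ≠ 0 := vOrd_ne w.1 hf0
        have h6 : WithZero.log (w.1.valuation E (f : E)) < 0 := by
          rw [← WithZero.log_one, WithZero.log_lt_log h5 one_ne_zero]
          exact h4
        unfold vOrd
        omega
      obtain ⟨n, hn⟩ : ∃ n : ℕ, 0 < vOrd w.1 (u * (f : E) ^ n) := by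
        refine ⟨(vOrd w.1 u).natAbs + 1, ?_⟩
        rw [vOrd_mul w.1 hu0 (pow_ne_zero _ hf0), vOrd_pow]
        have h9 : ((((vOrd w.1 u).natAbs + 1 : ℕ)) : ℤ) * 1 ≤
            (((vOrd w.1 u).natAbs + 1 : ℕ) : ℤ) * vOrd w.1 (f : E) :=
          mul_le_mul_of_nonneg_left h3 (by positivity)
        push_cast at h9 ⊢
        have h10 := neg_abs_le (vOrd w.1 u)
        linarith
      refine ⟨n, ?_⟩
      have h7 : u * (f : E) ^ n ≠ 0 := mul_ne_zero hu0 (pow_ne_zero _ hf0)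
      rw [← WithZero.log_lt_log (vOrd_ne w.1 h7) one_ne_zero, WithZero.log_one]
      have h8 : vOrd w.1 (u * (f : E) ^ n) =
        -WithZero.log (w.1.valuation E (u * (f : E) ^ n)) := rfl
      rw [h8] at hn
      linarith
  -- the trace
  set t : E := (e : E) ^ n + u * (f : E) ^ n with ht
  have hval : w.1.valuation E t = 1 := by
    have h3 : w.1.valuation E ((e : E) ^ n) = 1 := by
      rw [map_pow, (vOrd_notMem w.1).2 he, one_pow]
    have h4 : w.1.valuation E (u * (f : E) ^ n) < w.1.valuation E ((e : E) ^ n) := by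
      rw [h3]
      exact hn
    rw [ht, Valuation.map_add_eq_of_lt_left _ h4, h3]
  have ht0 : t ≠ 0 := by
    intro h
    rw [h, map_zero] at hval
    exact zero_ne_one hval
  have hord : vOrd w.1 t = 0 := by
    unfold vOrd
    rw [hval, WithZero.log_one, neg_zero]
  obtain ⟨x, y, hx, hy, hxy⟩ := vOrd_zero w.1 ht0 hord
  have hbe : FixG E.fixingSubgroup (b * (e1 : AlgebraicClosure K) ^ n) := fun s hs => by
    rw [map_mul, map_pow, hb s hs, he1fix s hs]
  have hmem : ∀ z : 𝓞 E, algebraMap (𝓞 E) (𝓞 (AlgebraicClosure K)) z ∈ 𝔓 ↔ z ∈ w.1.asIdeal := by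
    intro z
    rw [← hw.2]
    exact Iff.rfl
  refine ⟨_, (Even_trace _ H hle h2 hσ hσ' hbe).2, algebraMap (𝓞 E) (𝓞 (AlgebraicClosure K)) x,
    algebraMap (𝓞 E) (𝓞 (AlgebraicClosure K)) y, fun h => hx ((hmem x).1 h),
    fun h => hy ((hmem y).1 h), ?_⟩
  have h5 : (b * (e1 : AlgebraicClosure K) ^ n + σ (b * (e1 : AlgebraicClosure K) ^ n)) / b =
      (t : AlgebraicClosure K) := by
    have h6 : (t : AlgebraicClosure K) = (e1 : AlgebraicClosure K) ^ n +
        σ b / b * (σ (e1 : AlgebraicClosure K)) ^ n := rfl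
    rw [h6, map_mul, map_pow]
    field_simp
  rw [h5]
  exact congrArg (algebraMap E (AlgebraicClosure K)) hxy

/-- If the quadratic extension `N' / N` given by `H' ≤ H` is unramified at `𝔓` and the valuation of
`c` in `N` is even at the place of `N'` below `𝔓`, then it is even at the place of `N` below `𝔓`. -/
theorem v7_even_down (H' H : Subgroup (AlgebraicClosure K ≃ₐ[K] AlgebraicClosure K)) (hle : H' ≤ H)
    (h2 : IndexTwo H' H) (M : IntermediateField K (AlgebraicClosure K)) [FiniteDimensional K M]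
    (hM : M.fixingSubgroup ≤ H') {𝔓 : Ideal (𝓞 (AlgebraicClosure K))} (h𝔓 : FinPrime 𝔓)
    (hI : ∀ s ∈ inertia K 𝔓, s ∈ H → s ∈ H') {c : AlgebraicClosure K} (hc : FixG H c)
    (h : EvenG H' 𝔓 c) : EvenG H 𝔓 c := by
  obtain ⟨E, hE, rfl⟩ := Even_field H' M hM
  have _ : NumberField E := NumberField.of_module_finite K E
  have hP : 𝔓.IsPrime := h𝔓.1
  obtain ⟨b, hb, hb0, x, y, hx, hy, hxy⟩ := h
  have key : ∃ b0, FixG H b0 ∧ UnitAt 𝔓 (b0 / b) := by
    by_cases hall : ∀ s ∈ H, s ∈ E.fixingSubgroup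
    · refine ⟨b, fun s hs => hb s (hall s hs), ?_⟩
      rw [div_self hb0]
      exact UnitAt.one hP.ne_top
    · push Not at hall
      obtain ⟨σ, hσ, hσ'⟩ := hall
      by_cases hD : ∃ τ ∈ H, τ ∉ E.fixingSubgroup ∧ τ • 𝔓 = 𝔓
      · obtain ⟨τ, hτ, hτ', hτ𝔓⟩ := hD
        exact Even_inert E H hle h2 h𝔓 hI hτ hτ' hτ𝔓 hb hb0
      · push Not at hD
        exact Even_split E H hle h2 h𝔓 hσ hσ' hD hb hb0
  obtain ⟨b0, hb0H, hU⟩ := key
  have hb00 : b0 ≠ 0 := by
    rintro rfl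
    exact hU.ne_zero (zero_div b)
  obtain ⟨X, Y, hX, hY, hXY⟩ := hU
  have hXY' : b0 * (Y : AlgebraicClosure K) = b * X := by
    rw [← hXY]
    field_simp
  refine ⟨b0, hb0H, hb00, x * (Y * Y), y * (X * X), ?_, ?_, ?_⟩
  · intro h
    rcases hP.mem_or_mem h with h | h
    · exact hx h
    · rcases hP.mem_or_mem h with h | h <;> exact hY h
  · intro h
    rcases hP.mem_or_mem h with h | h
    · exact hy h
    · rcases hP.mem_or_mem h with h | h <;> exact hX h
  · show c * ((y : AlgebraicClosure K) * ((X : AlgebraicClosure K) * X)) =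
      b0 * b0 * ((x : AlgebraicClosure K) * ((Y : AlgebraicClosure K) * Y))
    calc c * ((y : AlgebraicClosure K) * ((X : AlgebraicClosure K) * X)) =
        (c * y) * ((X : AlgebraicClosure K) * X) := by ring
      _ = b * b * x * ((X : AlgebraicClosure K) * X) := by rw [hxy]
      _ = (b * X) * (b * X) * x := by ring
      _ = (b0 * Y) * (b0 * Y) * x := by rw [hXY']
      _ = b0 * b0 * ((x : AlgebraicClosure K) * ((Y : AlgebraicClosure K) * Y)) := by ring

end Pool.Agent.H.MP_ac3185_nt
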