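import Pool.Agent.H.MP_ac3185_nt.V7.Main
import Pool.Agent.H.MP_ac3185_nt.V8.Exist

/-! The conclusion with points of `A(Kbar)`, and the existence of the layers. -/

set_option autoImplicit false

open CategoryTheory AlgebraicGeometry NumberField IsDedekindDomain
open scoped MonObj

namespace Pool.Agent.H.MP_ac3185_nt

universe u

theorem mem_torPts {K : Type u} [Field K] {A : Over (Spec (.of K))} [GrpObj A] [IsAbVar A] {n : ℕ}
    {x : Pts A (AlgebraicClosure K)} : x ∈ torPts A n ↔ n • x = 0 := Iff.rfl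

/-- Odd multiples in `A(M)`, for the points of `A(Kbar)` fixed by `Gal(Kbar/LM)`. -/
theorem v7_fixPt {K : Type u} [Field K] [NumberField K]
    (L M : IntermediateField K (AlgebraicClosure K)) (A : Over (Spec (.of K))) [GrpObj A]
    [IsAbVar A]
    (h : ∀ x : Pts A (L ⊔ M : IntermediateField K (AlgebraicClosure K)), ∃ n : ℕ, Odd n ∧
      n • x ∈ (ptsa_j A (le_sup_right : M ≤ L ⊔ M)).range)
    (x : Pts A (AlgebraicClosure K)) (hx : FixPt A (L ⊔ M).fixingSubgroup x) :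
    ∃ n : ℕ, Odd n ∧ FixPt A M.fixingSubgroup (n • x) := by
  obtain ⟨y, rfl⟩ := sp_bar_of_fixed A (L ⊔ M) x hx
  obtain ⟨n, hn, z, hz⟩ := h y
  refine ⟨n, hn, fun s hs => ?_⟩
  rw [← map_nsmul, ← hz, sp_bar_j]
  exact sp_bar_fix A M s hs z

/-- The layers of `A[2]`. -/
theorem v7_layers {K : Type u} [Field K] [NumberField K] (A : Over (Spec (.of K))) [GrpObj A]
    [IsAbVar A] : ∃ (S : Finset (HeightOneSpectrum (𝓞 K))) (r : ℕ)
      (N H : ℕ → AddSubgroup (Pts A (AlgebraicClosure K)))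
      (F : ℕ → IntermediateField K (AlgebraicClosure K)), N 0 = ⊥ ∧ N r = torPts A 2 ∧
      (∀ i, FiniteDimensional K (F i)) ∧
      ∀ i < r, Odd (Module.finrank K (F i)) ∧
        (∀ s, (∀ x, InSub (torPts A 2) x → act A s x = x) → s ∈ (F i).fixingSubgroup) ∧
        ModFrame (F i) (N i) (N (i + 1)) (H i) ∧
        ∀ v : HeightOneSpectrum (𝓞 (F i)), (∀ v₀ ∈ S, ¬ Divides (F i) v v₀) →
          ∀ 𝔓, PrimeOver (F i) 𝔓 v → EtaleQuot (F i) (N (i + 1)) (H i) 𝔓 := by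
  obtain ⟨S, r, N, H, F, h0, hr, -, hF, hi⟩ := v8_exists A
  refine ⟨S, r, N, H, F, h0, AddSubgroup.ext hr, hF, fun i hir => ?_⟩
  obtain ⟨h1, h2, -, h3⟩ := hi i hir
  exact ⟨h1.odd, h2, h1.toModFrame, fun v hv => (h3 v hv).2⟩

end Pool.Agent.H.MP_ac3185_nt
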