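import Pool.Agent.H.MP_ac3185_nt.V7.SignB
import Pool.Agent.H.MP_ac3185_nt.R.LP

/-! Parities of numbers of double cosets with characters. -/

set_option autoImplicit false

namespace Pool.Agent.H.MP_ac3185_nt

section

variable {G : Type*} [Group G] (D H : Subgroup G)

/-- The number of double cosets `H g D` such that `ε` is trivial on `D ∩ g⁻¹ H g`. -/
noncomputable def v7s_cnt {Ω : Type*} (T : G → Ω) (ε : D →* ℤˣ) : ℕ :=
  Nat.card {ω : Ω // ∀ g, T g = ω → ∀ d : D, g * d * g⁻¹ ∈ H → ε d = 1}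

theorem v7s_cnt_one {Ω : Type*} (T : G → Ω) : v7s_cnt D H T (1 : D →* ℤˣ) = Nat.card Ω :=
  Nat.card_congr
    { toFun := fun ω => ω.1
      invFun := fun ω => ⟨ω, fun _ _ _ _ => rfl⟩
      left_inv := fun _ => rfl
      right_inv := fun _ => rfl }

theorem v7s_cnt_eps [Finite G] {Ω : Type*} (T : G → Ω) (hT : Function.Surjective T)
    (hfib : ∀ g g', T g = T g' ↔ ∃ h ∈ H, ∃ d : D, g' = h * g * d) (ε : D →* ℤˣ) :
    v7s_cnt D H T ε = Module.finrank ℚ (epsPart (permRep D (G ⧸ H)) ε) := by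
  classical
  have hΩ := v7s_fin T hT
  unfold v7s_cnt
  rw [← finrank_fixedVec_ind D ε H T hT hfib]
  have hP1 : ∀ (f : fixedVec (indRep D ε) (H : Set G)) (g : G) (d : D),
      f.1.1 (g * d) = ((ε d : ℤ) : ℚ) * f.1.1 g := fun f g d => f.1.2 g d
  have hP2 : ∀ (f : fixedVec (indRep D ε) (H : Set G)) (h : G), h ∈ H → ∀ g : G,
      f.1.1 (h * g) = f.1.1 g := by
    intro f h hh g
    have h1 := f.2 h⁻¹ (H.inv_mem hh)
    have h2 := congrArg (fun z : indSub D ε => z.1 g) h1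
    have h3 : f.1.1 (h⁻¹⁻¹ * g) = f.1.1 g := h2
    rwa [inv_inv] at h3
  have hrep : ∀ (F : G ⧸ H → ℚ) (d : D) (g : G),
      permRep D (G ⧸ H) d F (g : G ⧸ H) = F (((d : G)⁻¹ * g : G) : G ⧸ H) := fun _ _ _ => rfl
  have hwd : ∀ (f : fixedVec (indRep D ε) (H : Set G)) (a b : G),
      (QuotientGroup.leftRel H) a b → f.1.1 a⁻¹ = f.1.1 b⁻¹ := by
    intro f a b hab
    have h1 : a⁻¹ * b ∈ H := QuotientGroup.leftRel_apply.1 hab
    have h2 := hP2 f (a⁻¹ * b) h1 b⁻¹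
    have e : a⁻¹ * b * b⁻¹ = a⁻¹ := by group
    rwa [e] at h2
  refine LinearEquiv.finrank_eq
    { toFun := fun f => ⟨fun x => Quotient.liftOn' x (fun g => f.1.1 g⁻¹) (hwd f), ?_⟩
      map_add' := ?_
      map_smul' := ?_
      invFun := fun F => ⟨⟨fun g => F.1 ((g⁻¹ : G) : G ⧸ H), ?_⟩, ?_⟩
      left_inv := ?_
      right_inv := ?_ }
  · intro d
    funext x
    obtain ⟨g, rfl⟩ := QuotientGroup.mk_surjective x
    rw [hrep]
    show f.1.1 ((d : G)⁻¹ * g)⁻¹ = ((ε d : ℤ) : ℚ) * f.1.1 g⁻¹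
    rw [← hP1]
    congr 1
    group
  · intro f f'
    apply Subtype.ext
    funext x
    obtain ⟨g, rfl⟩ := QuotientGroup.mk_surjective x
    rfl
  · intro a f
    apply Subtype.ext
    funext x
    obtain ⟨g, rfl⟩ := QuotientGroup.mk_surjective x
    rfl
  · intro g d
    have h1 := congrFun (F.2 d) ((g⁻¹ : G) : G ⧸ H)
    rw [hrep] at h1
    show F.1 (((g * d)⁻¹ : G) : G ⧸ H) = ((ε d : ℤ) : ℚ) * F.1 ((g⁻¹ : G) : G ⧸ H)
    rw [mul_inv_rev, h1]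
    rfl
  · intro h hh
    apply Subtype.ext
    funext g
    show F.1 (((h⁻¹ * g)⁻¹ : G) : G ⧸ H) = F.1 ((g⁻¹ : G) : G ⧸ H)
    have e : (((h⁻¹ * g)⁻¹ : G) : G ⧸ H) = ((g⁻¹ : G) : G ⧸ H) := by
      rw [QuotientGroup.eq]
      have e2 : ((h⁻¹ * g)⁻¹)⁻¹ * g⁻¹ = h⁻¹ := by group
      rw [e2]
      exact H.inv_mem hh
    rw [e]
  · intro f
    apply Subtype.ext
    apply Subtype.ext
    funext g
    show f.1.1 (g⁻¹)⁻¹ = f.1.1 g
    rw [inv_inv]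
  · intro F
    apply Subtype.ext
    funext x
    obtain ⟨g, rfl⟩ := QuotientGroup.mk_surjective x
    show F.1 (((g⁻¹)⁻¹ : G) : G ⧸ H) = F.1 (g : G ⧸ H)
    rw [inv_inv]

theorem v7s_count_eps [Finite G] {I : Subgroup D} {φ : D} (h : CycMod I φ)
    (hIH : ∀ x : G ⧸ H, Odd (MulAction.orbit I x).ncard) {Ω : Type*} (T : G → Ω)
    (hT : Function.Surjective T)
    (hfib : ∀ g g', T g = T g' ↔ ∃ h ∈ H, ∃ d : D, g' = h * g * d) (ε : D →* ℤˣ) (hε : ε ≠ 1)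
    (hεI : ∀ i ∈ I, ε i = 1) : v7s_cnt D H T ε + Nat.card Ω ≡ H.index [MOD 2] := by
  have h1 := corg_finrank_ker (permRep D (G ⧸ H)) ε hε
  have h2 : Module.finrank ℚ (fixedVec (permRep D (G ⧸ H)) (Set.univ : Set D)) = Nat.card Ω := by
    rw [← v7s_cnt_one D H T, v7s_cnt_eps D H T hT hfib, corg_epsPart_one]
  rw [h2, ← v7s_cnt_eps D H T hT hfib ε, add_comm] at h1
  rw [← h1]
  have hφ : ε φ = -1 := by
    refine (Int.units_eq_one_or (ε φ)).resolve_left fun h3 => hε ?_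
    ext d
    obtain ⟨n, i, hi, rfl⟩ := h.gen d
    rw [map_mul, map_pow, h3, hεI i hi, one_pow, mul_one, MonoidHom.one_apply]
  have h3 := v7s_even h (S := ε.ker) (fun i hi => hεI i hi) (fun s hs => by
    obtain ⟨n, i, hi, rfl⟩ := h.gen s
    have h4 : ε (φ ^ n * i) = 1 := hs
    rw [map_mul, map_pow, hφ, hεI i hi, mul_one] at h4
    have h5 : Even n := by
      by_contra hn
      rw [Nat.not_even_iff_odd] at hn
      rw [hn.neg_one_pow] at h4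
      exact absurd h4 (by decide)
    obtain ⟨k, rfl⟩ := h5
    exact ⟨k, i, hi, by rw [two_mul]⟩) (permRep D (G ⧸ H))
  refine h3.trans ?_
  rw [finrank_permRep]
  exact v7s_orb hIH

theorem v7s_count_zero [Finite G] {I : Subgroup D}
    (hIH : ∀ x : G ⧸ H, Odd (MulAction.orbit I x).ncard) {Ω : Type*} (T : G → Ω)
    (hT : Function.Surjective T) (ε : D →* ℤˣ) (hε : ∃ i ∈ I, ε i ≠ 1) :
    v7s_cnt D H T ε = 0 := by
  have hem : IsEmpty {ω : Ω // ∀ g, T g = ω → ∀ d : D, g * d * g⁻¹ ∈ H → ε d = 1} := by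
    constructor
    rintro ⟨ω, hω⟩
    obtain ⟨g, rfl⟩ := hT ω
    obtain ⟨i, hi, hne⟩ := hε
    have h1 := hIH ((g⁻¹ : G) : G ⧸ H)
    rw [← MulAction.index_stabilizer] at h1
    have h2 := vr_char (ε.comp I.subtype) (MulAction.stabilizer I ((g⁻¹ : G) : G ⧸ H)) h1 (by
      intro s hs
      rw [MulAction.mem_stabilizer_iff] at hs
      have h3 : (((s.1 : G) * g⁻¹ : G) : G ⧸ H) = ((g⁻¹ : G) : G ⧸ H) := hs
      rw [QuotientGroup.eq] at h3
      have e : ((s.1 : G) * g⁻¹)⁻¹ * g⁻¹ = (g * (s.1 : G) * g⁻¹)⁻¹ := by group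
      rw [e] at h3
      have h4 : g * (s.1 : G) * g⁻¹ ∈ H := by
        have h5 := H.inv_mem h3
        rwa [inv_inv] at h5
      exact hω g rfl s.1 h4) ⟨i, hi⟩
    exact hne h2
  unfold v7s_cnt
  rw [Nat.card_eq_zero]
  exact Or.inl hem

/-- The product of the local signs. -/
theorem v7s_prod [Finite G] (w : (D →* ℤˣ) → ℕ) {Ω : Type*} (T : G → Ω)
    (hT : Function.Surjective T)
    (hfib : ∀ g g', T g = T g' ↔ ∃ h ∈ H, ∃ d : D, g' = h * g * d) (W : Ω → ℤ)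
    (hW : ∀ g, W (T g) = (-1) ^ (∑ᶠ ε : D →* ℤˣ, (open Classical in
      if ∀ d : D, g * d * g⁻¹ ∈ H → ε d = 1 then w ε else 0))) :
    ∏ᶠ ω, W ω = (-1) ^ (∑ᶠ ε : D →* ℤˣ, v7s_cnt D H T ε * w ε) := by
  classical
  have hfinD : Finite (D →* ℤˣ) :=
    Finite.of_injective (fun f : D →* ℤˣ => (f : D → ℤˣ)) DFunLike.coe_injective
  have _ : Fintype (D →* ℤˣ) := Fintype.ofFinite _
  have hΩ := v7s_fin T hT
  have _ : Fintype Ω := Fintype.ofFinite _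
  let P : Ω → (D →* ℤˣ) → Prop := fun ω ε =>
    ∀ g, T g = ω → ∀ d : D, g * d * g⁻¹ ∈ H → ε d = 1
  have hW2 : ∀ ω, W ω = (-1) ^ (∑ ε : D →* ℤˣ, if P ω ε then w ε else 0) := by
    intro ω
    obtain ⟨g, rfl⟩ := hT ω
    rw [hW, finsum_eq_sum_of_fintype]
    congr 1
    refine Finset.sum_congr rfl fun ε _ => ?_
    have h1 := lp_indep D H T hfib ε g
    by_cases h2 : P (T g) ε
    · rw [if_pos h2, if_pos (h1.2 h2)]
    · rw [if_neg h2, if_neg (fun h3 => h2 (h1.1 h3))]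
  rw [finprod_eq_prod_of_fintype, finsum_eq_sum_of_fintype,
    Finset.prod_congr rfl fun ω _ => hW2 ω, Finset.prod_pow_eq_pow_sum, Finset.sum_comm]
  congr 1
  refine Finset.sum_congr rfl fun ε _ => ?_
  rw [← Finset.sum_filter, Finset.sum_const, smul_eq_mul]
  congr 1
  unfold v7s_cnt
  rw [Nat.card_eq_fintype_card, Fintype.card_subtype]

end

section

variable {G : Type*} [Group G] (D A B : Subgroup G)

theorem v7s_orbB {I : Subgroup D}
    (hIB : ∀ g : G, ∀ i ∈ I, g * ((i : D) : G) * g⁻¹ ∈ B) (x : G ⧸ B) :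
    Odd (MulAction.orbit I x).ncard := by
  obtain ⟨g, rfl⟩ := QuotientGroup.mk_surjective x
  rw [← MulAction.index_stabilizer]
  have h1 : MulAction.stabilizer I (g : G ⧸ B) = ⊤ := by
    rw [eq_top_iff]
    intro i _
    rw [MulAction.mem_stabilizer_iff]
    show (((i.1 : G) * g : G) : G ⧸ B) = (g : G ⧸ B)
    rw [QuotientGroup.eq]
    have h2 := hIB g⁻¹ i.1⁻¹ (I.inv_mem i.2)
    have e : ((i.1 : G) * g)⁻¹ * g = g⁻¹ * ((i.1⁻¹ : D) : G) * (g⁻¹)⁻¹ := by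
      push_cast
      group
    rw [e]
    exact h2
  rw [h1, Subgroup.index_top]
  exact odd_one

theorem v7s_orbAB {I : Subgroup D}
    (hIB : ∀ g : G, ∀ i ∈ I, g * ((i : D) : G) * g⁻¹ ∈ B)
    (hIA : ∀ x : G ⧸ A, Odd (MulAction.orbit I x).ncard) (x : G ⧸ (A ⊓ B)) :
    Odd (MulAction.orbit I x).ncard := by
  obtain ⟨g, rfl⟩ := QuotientGroup.mk_surjective x
  have h1 := hIA (g : G ⧸ A)
  rw [← MulAction.index_stabilizer] at h1 ⊢
  have h2 : MulAction.stabilizer I (g : G ⧸ (A ⊓ B)) = MulAction.stabilizer I (g : G ⧸ A) := by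
    ext i
    rw [MulAction.mem_stabilizer_iff, MulAction.mem_stabilizer_iff]
    show (((i.1 : G) * g : G) : G ⧸ (A ⊓ B)) = (g : G ⧸ (A ⊓ B)) ↔
      (((i.1 : G) * g : G) : G ⧸ A) = (g : G ⧸ A)
    rw [QuotientGroup.eq, QuotientGroup.eq]
    refine ⟨fun h => h.1, fun h => ⟨h, ?_⟩⟩
    have h2 := hIB g⁻¹ i.1⁻¹ (I.inv_mem i.2)
    have e : ((i.1 : G) * g)⁻¹ * g = g⁻¹ * ((i.1⁻¹ : D) : G) * (g⁻¹)⁻¹ := by
      push_cast
      group
    rw [e]
    exact h2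
  rw [h2]
  exact h1

theorem v7s_main [Finite G] {I : Subgroup D} {φ : D} (h : CycMod I φ)
    (hAB : ∀ g, ∃ b ∈ B, b⁻¹ * g ∈ A) (hA : Odd A.index) (hB : Even B.index)
    (hIB : ∀ g : G, ∀ i ∈ I, g * ((i : D) : G) * g⁻¹ ∈ B)
    (hIA : ∀ x : G ⧸ A, Odd (MulAction.orbit I x).ncard) {Ω Ω' : Type*} (T : G → Ω)
    (hT : Function.Surjective T)
    (hfib : ∀ g g', T g = T g' ↔ ∃ h ∈ B, ∃ d : D, g' = h * g * d) (T' : G → Ω')
    (hT' : Function.Surjective T')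
    (hfib' : ∀ g g', T' g = T' g' ↔ ∃ h ∈ A ⊓ B, ∃ d : D, g' = h * g * d) (ε : D →* ℤˣ) :
    v7s_cnt D (A ⊓ B) T' ε ≡ v7s_cnt D B T ε [MOD 2] := by
  have h1 := v7s_count_one D A B h hAB hA hB hIB hIA T hT hfib T' hT' hfib'
  by_cases hεI : ∃ i ∈ I, ε i ≠ 1
  · rw [v7s_count_zero D (A ⊓ B) (v7s_orbAB D A B hIB hIA) T' hT' ε hεI,
      v7s_count_zero D B (v7s_orbB D B hIB) T hT ε hεI]
  · push Not at hεI
    by_cases hε : ε = 1
    · rw [hε, v7s_cnt_one, v7s_cnt_one]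
      exact h1
    · have h2 := v7s_count_eps D (A ⊓ B) h (v7s_orbAB D A B hIB hIA) T' hT' hfib' ε hε hεI
      have h3 := v7s_count_eps D B h (v7s_orbB D B hIB) T hT hfib ε hε hεI
      have h4 : B.index ∣ (A ⊓ B).index := Subgroup.index_dvd_of_le inf_le_right
      have h5 : 2 ∣ (A ⊓ B).index := (even_iff_two_dvd.1 hB).trans h4
      have h6 : 2 ∣ B.index := even_iff_two_dvd.1 hB
      unfold Nat.ModEq at h1 h2 h3 ⊢
      omega

/-- The products of the local signs agree. -/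
theorem v7s_final [Finite G] {I : Subgroup D} {φ : D} (h : CycMod I φ)
    (hAB : ∀ g, ∃ b ∈ B, b⁻¹ * g ∈ A) (hA : Odd A.index) (hB : Even B.index)
    (hIB : ∀ g : G, ∀ i ∈ I, g * ((i : D) : G) * g⁻¹ ∈ B)
    (hIA : ∀ x : G ⧸ A, Odd (MulAction.orbit I x).ncard) {Ω Ω' : Type*} (T : G → Ω)
    (hT : Function.Surjective T)
    (hfib : ∀ g g', T g = T g' ↔ ∃ h ∈ B, ∃ d : D, g' = h * g * d) (T' : G → Ω')
    (hT' : Function.Surjective T')
    (hfib' : ∀ g g', T' g = T' g' ↔ ∃ h ∈ A ⊓ B, ∃ d : D, g' = h * g * d)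
    (w : (D →* ℤˣ) → ℕ) (W : Ω → ℤ) (W' : Ω' → ℤ)
    (hW : ∀ g, W (T g) = (-1) ^ (∑ᶠ ε : D →* ℤˣ, (open Classical in
      if ∀ d : D, g * d * g⁻¹ ∈ B → ε d = 1 then w ε else 0)))
    (hW' : ∀ g, W' (T' g) = (-1) ^ (∑ᶠ ε : D →* ℤˣ, (open Classical in
      if ∀ d : D, g * d * g⁻¹ ∈ A ⊓ B → ε d = 1 then w ε else 0))) :
    ∏ᶠ ω, W' ω = ∏ᶠ ω, W ω := by
  classical
  have hfinD : Finite (D →* ℤˣ) :=
    Finite.of_injective (fun f : D →* ℤˣ => (f : D → ℤˣ)) DFunLike.coe_injective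
  have _ : Fintype (D →* ℤˣ) := Fintype.ofFinite _
  rw [v7s_prod D (A ⊓ B) w T' hT' hfib' W' hW', v7s_prod D B w T hT hfib W hW,
    finsum_eq_sum_of_fintype, finsum_eq_sum_of_fintype]
  have h1 : (∑ ε : D →* ℤˣ, v7s_cnt D (A ⊓ B) T' ε * w ε) ≡
      ∑ ε : D →* ℤˣ, v7s_cnt D B T ε * w ε [MOD 2] := by
    rw [← ZMod.natCast_eq_natCast_iff]
    push_cast
    refine Finset.sum_congr rfl fun ε _ => ?_
    rw [(ZMod.natCast_eq_natCast_iff _ _ 2).2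
      (v7s_main D A B h hAB hA hB hIB hIA T hT hfib T' hT' hfib' ε)]
  rw [neg_one_pow_eq_pow_mod_two, h1, ← neg_one_pow_eq_pow_mod_two]

end

end Pool.Agent.H.MP_ac3185_nt
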