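import Pool.Agent.H.MP_ac3185_nt.R.InfP
import Pool.Agent.H.MP_ac3185_nt.R.Ind
import Pool.Agent.H.MP_ac3185_nt.R.CorG
import Pool.Agent.H.MP_ac3185_nt.V2.RootP
import Pool.Agent.H.MP_ac3185_nt.V.RootA

/-! Parities of numbers of orbits of a group which is cyclic modulo a normal subgroup. -/

set_option autoImplicit false

namespace Pool.Agent.H.MP_ac3185_nt

/-- `D / I` is generated by `φ`. -/
structure CycMod {D : Type*} [Group D] (I : Subgroup D) (φ : D) : Prop where
  gen : ∀ d : D, ∃ n : ℕ, ∃ i ∈ I, d = φ ^ n * i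
  comm : ∀ a b : D, a * b * a⁻¹ * b⁻¹ ∈ I

section

variable {D : Type*} [Group D] {I : Subgroup D} {φ : D}

theorem CycMod.conj (h : CycMod I φ) {S : Subgroup D} (hS : I ≤ S) (d : D) {s : D} (hs : s ∈ S) :
    d * s * d⁻¹ ∈ S := by
  have h1 := S.mul_mem (hS (h.comm d s)) hs
  have e : d * s * d⁻¹ * s⁻¹ * s = d * s * d⁻¹ := by group
  rwa [e] at h1

theorem CycMod.normal (h : CycMod I φ) {S : Subgroup D} (hS : I ≤ S) : S.Normal :=
  ⟨fun _ hs d => h.conj hS d hs⟩

variable {M : Type*} [AddCommGroup M] [Module ℚ M] [FiniteDimensional ℚ M]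

theorem v7s_two [Finite D] (h : CycMod I φ) {S : Subgroup D} (hS : I ≤ S)
    (ρ : Representation ℚ D M) :
    Module.finrank ℚ (fixedVec ρ (S : Set D)) ≡
      Module.finrank ℚ (fixedVec ρ ((S : Set D) ∪ {φ * φ})) [MOD 2] := by
  have hmul : ∀ a b x, ρ (a * b) x = ρ a (ρ b x) := fun a b x => by
    rw [map_mul]; rfl
  have hst : ∀ x ∈ fixedVec ρ (S : Set D), ρ φ x ∈ fixedVec ρ (S : Set D) := by
    intro x hx s hs
    have h1 : φ⁻¹ * s * φ ∈ S := by
      have h2 := h.conj hS φ⁻¹ hs
      rwa [inv_inv] at h2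
    have h3 : ρ (φ⁻¹ * s * φ) x = x := hx _ h1
    rw [← hmul]
    have e : s * φ = φ * (φ⁻¹ * s * φ) := by group
    rw [e, hmul, h3]
  let T : Module.End ℚ (fixedVec ρ (S : Set D)) := (ρ φ).restrict hst
  have hT : ∀ x, (T x).1 = ρ φ x.1 := fun x => rfl
  have hTn : ∀ (n : ℕ) x, ((T ^ n) x).1 = ρ (φ ^ n) x.1 := by
    intro n
    induction n with
    | zero =>
      intro x
      rw [pow_zero, pow_zero, map_one]
      rfl
    | succ n ih =>
      intro x
      rw [pow_succ, pow_succ, hmul]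
      show ((T ^ n) (T x)).1 = _
      rw [ih, hT]
  have hT1 : T ^ Nat.card D = 1 := by
    refine LinearMap.ext fun x => Subtype.ext ?_
    rw [hTn, pow_card_eq_one', map_one]
    rfl
  have h4 : ¬ IsSquare (-1 : ℚ) := by
    rintro ⟨a, ha⟩
    nlinarith [mul_self_nonneg a]
  have h5 := finrank_parity_op h4 (Nat.card D) Nat.card_pos
    (fun p hp _ _ => pstar_nonsquare_rat p hp) T hT1
  refine h5.trans ?_
  have hle : fixedVec ρ ((S : Set D) ∪ {φ * φ}) ≤ fixedVec ρ (S : Set D) :=
    fun x hx s hs => hx s (Or.inl hs)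
  have h6 : LinearMap.ker (T ^ 2 - 1) =
      (fixedVec ρ ((S : Set D) ∪ {φ * φ})).comap (fixedVec ρ (S : Set D)).subtype := by
    ext x
    rw [LinearMap.mem_ker, LinearMap.sub_apply, sub_eq_zero, Submodule.mem_comap]
    constructor
    · intro hx s hs
      rcases hs with hs | hs
      · exact x.2 s hs
      · rw [Set.mem_singleton_iff.1 hs, ← pow_two]
        have h7 := congrArg Subtype.val hx
        rw [hTn] at h7
        exact h7
    · intro hx
      apply Subtype.ext
      rw [hTn, pow_two]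
      exact hx _ (Or.inr rfl)
  rw [h6, (Submodule.comapSubtypeEquivOfLe hle).finrank_eq]

theorem v7s_gen (h : CycMod I φ) (ρ : Representation ℚ D M) {x : M} (h1 : ∀ i ∈ I, ρ i x = x)
    (h2 : ρ φ x = x) (d : D) : ρ d x = x := by
  have hmul : ∀ a b x, ρ (a * b) x = ρ a (ρ b x) := fun a b x => by
    rw [map_mul]; rfl
  have h3 : ∀ n : ℕ, ρ (φ ^ n) x = x := by
    intro n
    induction n with
    | zero => rw [pow_zero, map_one]; rfl
    | succ n ih => rw [pow_succ, hmul, h2, ih]
  obtain ⟨n, i, hi, rfl⟩ := h.gen d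
  rw [hmul, h1 i hi, h3]

/-- Subgroups of odd index. -/
theorem v7s_odd [Finite D] (h : CycMod I φ) {S : Subgroup D} (hS : I ≤ S) (hodd : Odd S.index)
    (ρ : Representation ℚ D M) :
    Module.finrank ℚ (fixedVec ρ (S : Set D)) ≡
      Module.finrank ℚ (fixedVec ρ ((⊤ : Subgroup D) : Set D)) [MOD 2] := by
  have hmul : ∀ a b x, ρ (a * b) x = ρ a (ρ b x) := fun a b x => by
    rw [map_mul]; rfl
  have hSn : S.Normal := h.normal hS
  have h1 : fixedVec ρ ((S : Set D) ∪ {φ * φ}) = fixedVec ρ ((⊤ : Subgroup D) : Set D) := by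
    apply le_antisymm
    · intro x hx
      have h2 : ρ (φ * φ) x = x := hx _ (Or.inr rfl)
      have h3 : ρ (φ ^ S.index) x = x := hx _ (Or.inl (Subgroup.pow_index_mem S φ))
      have h4 : ∀ n : ℕ, ρ (φ ^ (2 * n)) x = x := by
        intro n
        induction n with
        | zero => rw [mul_zero, pow_zero, map_one]; rfl
        | succ n ih =>
          have e : 2 * (n + 1) = 2 * n + 2 := by ring
          rw [e, pow_add, pow_two, hmul, h2, ih]
      obtain ⟨k, hk⟩ := hodd
      have h5 : ρ φ x = x := by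
        rw [hk, pow_succ', hmul, h4] at h3
        exact h3
      intro d _
      exact v7s_gen h ρ (fun i hi => hx i (Or.inl (hS hi))) h5 d
    · intro x hx d _
      exact hx d (Subgroup.mem_top d)
  rw [← h1]
  exact v7s_two h hS ρ

/-- The elements of a subgroup of even index. -/
theorem v7s_idx [Finite D] (h : CycMod I φ) {S : Subgroup D} (hS : I ≤ S) (heven : Even S.index)
    {s : D} (hs : s ∈ S) : ∃ n : ℕ, ∃ i ∈ I, s = φ ^ (2 * n) * i := by
  have hSn : S.Normal := h.normal hS
  obtain ⟨n, i, hi, rfl⟩ := h.gen s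
  have h1 : φ ^ n ∈ S := by
    have h2 := S.mul_mem hs (S.inv_mem (hS hi))
    rwa [mul_inv_cancel_right] at h2
  let q : D ⧸ S := (φ : D ⧸ S)
  have h2 : q ^ n = 1 := by
    have : ((φ ^ n : D) : D ⧸ S) = 1 := (QuotientGroup.eq_one_iff _).2 h1
    exact this
  have h3 : ∀ y : D ⧸ S, y ∈ Subgroup.zpowers q := by
    intro y
    obtain ⟨d, rfl⟩ := QuotientGroup.mk_surjective y
    obtain ⟨m, j, hj, rfl⟩ := h.gen d
    refine ⟨m, ?_⟩
    show q ^ (m : ℤ) = ((φ ^ m * j : D) : D ⧸ S)
    rw [zpow_natCast]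
    refine QuotientGroup.eq.2 ?_
    have e : (φ ^ m)⁻¹ * (φ ^ m * j) = j := by group
    rw [e]
    exact hS hj
  have h4 : orderOf q = S.index := by
    rw [Subgroup.index]
    exact orderOf_eq_card_of_forall_mem_zpowers h3
  have h5 : S.index ∣ n := by
    rw [← h4]
    exact orderOf_dvd_of_pow_eq_one h2
  obtain ⟨k, hk⟩ := (even_iff_two_dvd.1 heven).trans h5
  exact ⟨k, i, hi, by rw [hk]⟩

/-- Subgroups of even index. -/
theorem v7s_even [Finite D] (h : CycMod I φ) {S : Subgroup D} (hS : I ≤ S)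
    (hs : ∀ s ∈ S, ∃ n : ℕ, ∃ i ∈ I, s = φ ^ (2 * n) * i) (ρ : Representation ℚ D M) :
    Module.finrank ℚ (fixedVec ρ (S : Set D)) ≡
      Module.finrank ℚ (fixedVec ρ (I : Set D)) [MOD 2] := by
  have hmul : ∀ a b x, ρ (a * b) x = ρ a (ρ b x) := fun a b x => by
    rw [map_mul]; rfl
  have h1 : fixedVec ρ ((S : Set D) ∪ {φ * φ}) = fixedVec ρ ((I : Set D) ∪ {φ * φ}) := by
    apply le_antisymm
    · intro x hx d hd
      rcases hd with hd | hd
      · exact hx d (Or.inl (hS hd))
      · exact hx d (Or.inr hd)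
    · intro x hx d hd
      rcases hd with hd | hd
      · obtain ⟨n, i, hi, rfl⟩ := hs d hd
        have h2 : ρ (φ * φ) x = x := hx _ (Or.inr rfl)
        have h4 : ∀ n : ℕ, ρ (φ ^ (2 * n)) x = x := by
          intro n
          induction n with
          | zero => rw [mul_zero, pow_zero, map_one]; rfl
          | succ n ih =>
            have e : 2 * (n + 1) = 2 * n + 2 := by ring
            rw [e, pow_add, pow_two, hmul, h2, ih]
        rw [hmul, hx i (Or.inl hi), h4]
      · exact hx d (Or.inr hd)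
  have h2 := v7s_two h hS ρ
  rw [h1] at h2
  exact h2.trans (v7s_two h le_rfl ρ).symm

/-- The number of orbits of a group with orbits of odd length. -/
theorem v7s_orb {X : Type*} [MulAction D X] [Finite X]
    (h : ∀ x : X, Odd (MulAction.orbit D x).ncard) :
    Nat.card (MulAction.orbitRel.Quotient D X) ≡ Nat.card X [MOD 2] := by
  classical
  have hfin : Finite (MulAction.orbitRel.Quotient D X) := Quotient.finite _
  have _ : Fintype (MulAction.orbitRel.Quotient D X) := Fintype.ofFinite _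
  have e := MulAction.selfEquivSigmaOrbits' D X
  have h1 : Nat.card X = ∑ ω : MulAction.orbitRel.Quotient D X, Nat.card ω.orbit := by
    rw [Nat.card_congr e, Nat.card_sigma]
  rw [h1, ← ZMod.natCast_eq_natCast_iff]
  push_cast
  have h2 : ∀ ω : MulAction.orbitRel.Quotient D X, ((Nat.card ω.orbit : ℕ) : ZMod 2) = 1 := by
    intro ω
    induction ω using Quotient.inductionOn' with
    | h x =>
      have h3 := h x
      have h4 : Nat.card (MulAction.orbitRel.Quotient.orbit
          (Quotient.mk'' x : MulAction.orbitRel.Quotient D X)) =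
          (MulAction.orbit D x).ncard := rfl
      rw [h4]
      exact (ZMod.natCast_eq_one_iff_odd).2 h3
  rw [Finset.sum_congr rfl fun ω _ => h2 ω, Finset.sum_const, nsmul_eq_mul, mul_one,
    Finset.card_univ, Nat.card_eq_fintype_card]

end

end Pool.Agent.H.MP_ac3185_nt
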