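import Pool.Agent.H.MP_ac3185_nt.R.UnrB
import Pool.Agent.H.MP_ac3185_nt.R.CommB
import Pool.Agent.H.MP_ac3185_nt.R.PlC
import Pool.Agent.H.MP_ac3185_nt.V7.SignA

/-! The decomposition group is generated by a Frobenius element and the inertia group, at every finite
level. -/

set_option autoImplicit false

open NumberField IsDedekindDomain
open scoped Pointwise

namespace Pool.Agent.H.MP_ac3185_nt

universe u

theorem v7f_surj {k L : Type u} [Field k] [Field L] [Algebra k L] [IsGalois k L]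
    (P : Ideal (𝓞 k)) (Q : Ideal (𝓞 L)) [Q.IsPrime] [Q.LiesOver P] :
    Function.Surjective (Ideal.Quotient.stabilizerHom Q P (L ≃ₐ[k] L)) := by
  let : TopologicalSpace (𝓞 L) := ⊥
  have : DiscreteTopology (𝓞 L) := ⟨rfl⟩
  have : ContinuousSMul (L ≃ₐ[k] L) (𝓞 L) := by
    rw [continuousSMul_iff_stabilizer_isOpen]
    intro x
    have := stabilizer_isOpen_of_isIntegral (K := k) (x : L)
    convert this using 2
    ext g
    rw [MulAction.mem_stabilizer_iff, MulAction.mem_stabilizer_iff]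
    constructor
    · intro hh
      rw [AlgEquiv.smul_def, ← coe_gal_smul, hh]
    · intro hh
      exact RingOfIntegers.ext hh
  have : Algebra.IsInvariant (𝓞 k) (𝓞 L) (L ≃ₐ[k] L) := invariant
  exact Ideal.Quotient.stabilizerHom_surjective_of_profinite P Q

variable {K : Type u} [Field K] [NumberField K]

/-- A Frobenius element. -/
theorem v7f_frob (v : HeightOneSpectrum (𝓞 K)) (𝔓 : Ideal (𝓞 (AlgebraicClosure K)))
    (h𝔓 : Above 𝔓 v) : ∃ φ ∈ decompGrp K 𝔓, ∀ x : 𝓞 (AlgebraicClosure K),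
      galInt φ x - x ^ Nat.card (𝓞 K ⧸ v.asIdeal) ∈ 𝔓 := by
  obtain ⟨hP, hcomap⟩ := h𝔓
  have hv : v.asIdeal.IsMaximal := v.isMaximal
  have hlies : 𝔓.LiesOver v.asIdeal := ⟨hcomap.symm⟩
  have hmax : 𝔓.IsMaximal :=
    Ideal.isMaximal_of_isIntegral_of_isMaximal_comap (R := 𝓞 K) 𝔓 (by rw [hcomap]; exact hv)
  let _ : Field (𝓞 (AlgebraicClosure K) ⧸ 𝔓) := Ideal.Quotient.field 𝔓
  let _ : Field (𝓞 K ⧸ v.asIdeal) := Ideal.Quotient.field v.asIdeal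
  have _ : Finite (𝓞 K ⧸ v.asIdeal) := inferInstance
  let _ : Fintype (𝓞 K ⧸ v.asIdeal) := Fintype.ofFinite _
  have hint : Algebra.IsIntegral (𝓞 K ⧸ v.asIdeal) (𝓞 (AlgebraicClosure K) ⧸ 𝔓) :=
    inferInstance
  have halg : Algebra.IsAlgebraic (𝓞 K ⧸ v.asIdeal) (𝓞 (AlgebraicClosure K) ⧸ 𝔓) :=
    Algebra.IsIntegral.isAlgebraic
  have hG : IsGalois K (AlgebraicClosure K) := IsAlgClosure.isGalois K (AlgebraicClosure K)
  obtain ⟨⟨φ, hφ⟩, hh⟩ := v7f_surj v.asIdeal 𝔓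
    (FiniteField.frobeniusAlgEquivOfAlgebraic (𝓞 K ⧸ v.asIdeal) (𝓞 (AlgebraicClosure K) ⧸ 𝔓))
  refine ⟨φ, (plc_decomp 𝔓 φ).2 hφ, fun x => ?_⟩
  have h1 := DFunLike.congr_fun hh (Ideal.Quotient.mk 𝔓 x)
  have h2 : Ideal.Quotient.mk 𝔓 (φ • x) =
      Ideal.Quotient.mk 𝔓 (x ^ Nat.card (𝓞 K ⧸ v.asIdeal)) := by
    rw [map_pow, Nat.card_eq_fintype_card]
    exact h1
  exact Ideal.Quotient.eq.1 h2

/-- The elements of the decomposition group act on the residue field of `F` by powers of Frobenius. -/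
theorem v7f_pow (F : IntermediateField K (AlgebraicClosure K)) [FiniteDimensional K F]
    [IsGalois K F] (v : HeightOneSpectrum (𝓞 K)) (𝔓 : Ideal (𝓞 (AlgebraicClosure K)))
    (h𝔓 : Above 𝔓 v) (d : AlgebraicClosure K ≃ₐ[K] AlgebraicClosure K)
    (hd : d ∈ decompGrp K 𝔓) : ∃ n : ℕ, ∀ x : 𝓞 F,
      galInt d (algebraMap (𝓞 F) (𝓞 (AlgebraicClosure K)) x) -
        (algebraMap (𝓞 F) (𝓞 (AlgebraicClosure K)) x) ^
          (Nat.card (𝓞 K ⧸ v.asIdeal) ^ n) ∈ 𝔓 := by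
  have hnf : NumberField F := NumberField.of_module_finite K F
  have hp := unrb_isPrime F h𝔓
  have hc := unrb_comap F h𝔓
  set P : Ideal (𝓞 F) := unrb_prime F 𝔓 with hP
  have hover : P.LiesOver v.asIdeal := ⟨hc.symm⟩
  have hP0 : P ≠ ⊥ := by
    intro h0
    apply v.ne_bot
    rw [← hc, h0]
    exact Ideal.comap_bot_of_injective _ (RingOfIntegers.algebraMap.injective K F)
  have hmax : P.IsMaximal := hp.isMaximal hP0
  have hmaxv : v.asIdeal.IsMaximal := v.isMaximal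
  let _ : Field (𝓞 F ⧸ P) := Ideal.Quotient.field P
  let _ : Field (𝓞 K ⧸ v.asIdeal) := Ideal.Quotient.field v.asIdeal
  have _ : Finite (𝓞 F ⧸ P) := Ideal.finiteQuotientOfFreeOfNeBot P hP0
  have _ : Finite (𝓞 K ⧸ v.asIdeal) := inferInstance
  let _ : Fintype (𝓞 K ⧸ v.asIdeal) := Fintype.ofFinite _
  let α := Ideal.Quotient.stabilizerHom P v.asIdeal (F ≃ₐ[K] F)
    ⟨AlgEquiv.restrictNormalHom F d, unrb_decomp F 𝔓 d hd⟩
  obtain ⟨n, hn⟩ := (FiniteField.bijective_frobeniusAlgEquivOfAlgebraic_pow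
    (𝓞 K ⧸ v.asIdeal) (𝓞 F ⧸ P)).2 α
  refine ⟨n, fun x => ?_⟩
  have h1 := DFunLike.congr_fun hn (Ideal.Quotient.mk P x)
  have h2 : Ideal.Quotient.mk P (AlgEquiv.restrictNormalHom F d • x) =
      Ideal.Quotient.mk P (x ^ (Nat.card (𝓞 K ⧸ v.asIdeal) ^ (n : ℕ))) := by
    rw [map_pow, Nat.card_eq_fintype_card]
    have h3 : α (Ideal.Quotient.mk P x) =
      Ideal.Quotient.mk P (AlgEquiv.restrictNormalHom F d • x) := rfl
    rw [← h3, ← h1]
    show (FiniteField.frobeniusAlgEquivOfAlgebraic (𝓞 K ⧸ v.asIdeal) (𝓞 F ⧸ P) ^ (n : ℕ))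
      (Ideal.Quotient.mk P x) = _
    rw [AlgEquiv.coe_pow, FiniteField.coe_frobeniusAlgEquivOfAlgebraic_iterate]
  have h3 := Ideal.Quotient.eq.1 h2
  have h4 : algebraMap (𝓞 F) (𝓞 (AlgebraicClosure K)) (AlgEquiv.restrictNormalHom F d • x -
      x ^ (Nat.card (𝓞 K ⧸ v.asIdeal) ^ (n : ℕ))) ∈ 𝔓 := h3
  rw [map_sub, map_pow] at h4
  have h5 : algebraMap (𝓞 F) (𝓞 (AlgebraicClosure K)) (AlgEquiv.restrictNormalHom F d • x) =
      galInt d (algebraMap (𝓞 F) (𝓞 (AlgebraicClosure K)) x) := unrb_galInt F d x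
  rw [h5] at h4
  exact h4

/-- `D = ⟨φ⟩ I (D ∩ Gal(Kbar/F))`. -/
theorem v7f_gen (v : HeightOneSpectrum (𝓞 K)) (𝔓 : Ideal (𝓞 (AlgebraicClosure K)))
    (h𝔓 : Above 𝔓 v) : ∃ φ ∈ decompGrp K 𝔓, ∀ (F : IntermediateField K (AlgebraicClosure K))
      [FiniteDimensional K F] [IsGalois K F], ∀ d ∈ decompGrp K 𝔓,
      ∃ n : ℕ, ∃ i ∈ inertiaGrp K 𝔓, ∃ h ∈ F.fixingSubgroup, d = φ ^ n * i * h := by
  obtain ⟨φ, hφ, hfrob⟩ := v7f_frob v 𝔓 h𝔓
  refine ⟨φ, hφ, fun F _ _ d hd => ?_⟩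
  obtain ⟨n, hn⟩ := v7f_pow F v 𝔓 h𝔓 d hd
  have hPp := h𝔓.1
  set q := Nat.card (𝓞 K ⧸ v.asIdeal) with hq
  -- the powers of Frobenius
  have hpow : ∀ (m : ℕ) (x : 𝓞 (AlgebraicClosure K)), galInt (φ ^ m) x - x ^ (q ^ m) ∈ 𝔓 := by
    intro m
    induction m with
    | zero =>
      intro x
      rw [pow_zero, pow_zero, pow_one]
      have h1 : galInt (1 : AlgebraicClosure K ≃ₐ[K] AlgebraicClosure K) x = x := one_smul _ x
      rw [h1, sub_self]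
      exact zero_mem _
    | succ m ih =>
      intro x
      rw [pow_succ, pow_succ]
      have h1 : galInt (φ ^ m * φ) x = galInt (φ ^ m) (galInt φ x) := pla_mul _ _ _
      have h2 : galInt (φ ^ m) (galInt φ x) - galInt (φ ^ m) (x ^ q) ∈ 𝔓 := by
        rw [← pla_sub]
        exact (Subgroup.pow_mem (decompGrp K 𝔓) hφ m _).2 (hfrob x)
      have h3 := ih (x ^ q)
      rw [h1]
      have h4 := 𝔓.add_mem h2 h3
      rw [sub_add_sub_cancel, ← pow_mul, mul_comm q] at h4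
      exact h4
  let d' := (φ ^ n)⁻¹ * d
  have hd' : d' ∈ decompGrp K 𝔓 :=
    (decompGrp K 𝔓).mul_mem ((decompGrp K 𝔓).inv_mem (Subgroup.pow_mem _ hφ n)) hd
  have hfix : ∀ x : 𝓞 F, galInt d' (algebraMap (𝓞 F) (𝓞 (AlgebraicClosure K)) x) -
      algebraMap (𝓞 F) (𝓞 (AlgebraicClosure K)) x ∈ 𝔓 := by
    intro x
    set y := algebraMap (𝓞 F) (𝓞 (AlgebraicClosure K)) x with hy
    rw [← (Subgroup.pow_mem (decompGrp K 𝔓) hφ n _), pla_sub, ← pla_mul]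
    have e : φ ^ n * d' = d := mul_inv_cancel_left _ _
    rw [e]
    have h1 := 𝔓.sub_mem (hn x) (hpow n y)
    rw [sub_sub_sub_cancel_right] at h1
    exact h1
  -- the residue field of `F`
  have hG : IsGalois K (AlgebraicClosure K) := IsAlgClosure.isGalois K (AlgebraicClosure K)
  have hG' : IsGalois F (AlgebraicClosure K) :=
    IsGalois.tower_top_of_isGalois K F (AlgebraicClosure K)
  have hlies : 𝔓.LiesOver (unrb_prime F 𝔓) := ⟨rfl⟩
  have hst : d' ∈ MulAction.stabilizer (AlgebraicClosure K ≃ₐ[K] AlgebraicClosure K) 𝔓 :=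
    commb_stab 𝔓 d' hd'
  have hliesv : 𝔓.LiesOver v.asIdeal := ⟨h𝔓.2.symm⟩
  let α₀ := Ideal.Quotient.stabilizerHom 𝔓 v.asIdeal
    (AlgebraicClosure K ≃ₐ[K] AlgebraicClosure K) ⟨d', hst⟩
  let α : (𝓞 (AlgebraicClosure K) ⧸ 𝔓) ≃ₐ[𝓞 F ⧸ unrb_prime F 𝔓]
      (𝓞 (AlgebraicClosure K) ⧸ 𝔓) :=
    { α₀.toRingEquiv with
      commutes' := by
        intro c
        obtain ⟨x, rfl⟩ := Ideal.Quotient.mk_surjective c
        exact Ideal.Quotient.eq.2 (hfix x) }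
  obtain ⟨⟨h, hh⟩, hhα⟩ := v7f_surj (unrb_prime F 𝔓) 𝔓 α
  let h' : AlgebraicClosure K ≃ₐ[K] AlgebraicClosure K := h.restrictScalars K
  have hh' : h' ∈ F.fixingSubgroup := by
    rw [IntermediateField.mem_fixingSubgroup_iff]
    intro x hx
    exact h.commutes ⟨x, hx⟩
  have hact : ∀ x : 𝓞 (AlgebraicClosure K), galInt d' x - galInt h' x ∈ 𝔓 := by
    intro x
    have h1 := DFunLike.congr_fun hhα (Ideal.Quotient.mk 𝔓 x)
    have h2 : Ideal.Quotient.mk 𝔓 (h • x) = Ideal.Quotient.mk 𝔓 (d' • x) := h1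
    exact Ideal.Quotient.eq.1 h2.symm
  refine ⟨n, d' * h'⁻¹, ?_, h', hh', ?_⟩
  · intro x
    have h1 := hact (galInt h'⁻¹ x)
    rw [← pla_mul, pla_inv'] at h1
    exact h1
  · show d = φ ^ n * (d' * h'⁻¹) * h'
    rw [mul_assoc, inv_mul_cancel_right, mul_inv_cancel_left]

end Pool.Agent.H.MP_ac3185_nt
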