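import Pool.Agent.H.MP_ac3185_nt.V4.Root
import Pool.Agent.H.MP_ac3185_nt.V4.Types
import Pool.Agent.H.MP_ac3185_nt.R.UnrC
import Pool.Agent.H.MP_ac3185_nt.R.FinC
import Pool.Agent.H.MP_ac3185_nt.V7.SignC
import Pool.Agent.H.MP_ac3185_nt.V7.SignD

/-! The products of the local root numbers of `LM` and `M` above a place of `K`. -/

set_option autoImplicit false

open CategoryTheory AlgebraicGeometry NumberField IsDedekindDomain
open scoped MonObj Pointwise

namespace Pool.Agent.H.MP_ac3185_nt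

universe u

variable {K : Type u} [Field K] [NumberField K]

omit [NumberField K] in
/-- The restriction to `F` of an automorphism. -/
theorem v7g_mem [CharZero K] (F N : IntermediateField K (AlgebraicClosure K)) [IsGalois K F]
    (hN : N ≤ F) (s : AlgebraicClosure K ≃ₐ[K] AlgebraicClosure K) :
    AlgEquiv.restrictNormalHom F s ∈ relGal F N ↔ s ∈ N.fixingSubgroup := by
  have key : ∀ x : F,
      ((AlgEquiv.restrictNormalHom F s x : F) : AlgebraicClosure K) = s (x : AlgebraicClosure K) :=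
    fun x => AlgEquiv.restrictNormal_commutes s F x
  rw [IntermediateField.mem_fixingSubgroup_iff]
  constructor
  · intro h x hx
    rw [← key ⟨x, hN hx⟩, h ⟨x, hN hx⟩ hx]
  · intro h x hx
    apply Subtype.ext
    rw [key]
    exact h x hx

theorem v7g_inf (F L M : IntermediateField K (AlgebraicClosure K)) [IsGalois K F] (hL : L ≤ F)
    (hM : M ≤ F) : relGal F (L ⊔ M) = relGal F L ⊓ relGal F M := by
  ext g
  obtain ⟨s, rfl⟩ := AlgEquiv.restrictNormalHom_surjective (F := K) (K₁ := F)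
    (AlgebraicClosure K) g
  rw [Subgroup.mem_inf, v7g_mem F _ (sup_le hL hM), v7g_mem F _ hL, v7g_mem F _ hM,
    IntermediateField.fixingSubgroup_sup, Subgroup.mem_inf]

theorem v7g_index (F N : IntermediateField K (AlgebraicClosure K)) [IsGalois K F] (hN : N ≤ F) :
    (relGal F N).index = Module.finrank K N := by
  rw [IntermediateField.finrank_eq_fixingSubgroup_index, ← map_fixingSubgroup F N hN]
  exact Subgroup.index_map_eq _ (AlgEquiv.restrictNormalHom_surjective (F := K) (K₁ := F)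
    (AlgebraicClosure K)) (ker_le_fixingSubgroup F N hN)

theorem v7g_one (F : IntermediateField K (AlgebraicClosure K)) [IsGalois K F]
    (s : AlgebraicClosure K ≃ₐ[K] AlgebraicClosure K) (hs : s ∈ F.fixingSubgroup) :
    AlgEquiv.restrictNormalHom F s = 1 := by
  ext x
  have h1 : ((AlgEquiv.restrictNormalHom F s x : F) : AlgebraicClosure K) =
      s (x : AlgebraicClosure K) := AlgEquiv.restrictNormal_commutes s F x
  rw [h1, (IntermediateField.mem_fixingSubgroup_iff _ _).1 hs _ x.2]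
  rfl

/-- The decomposition group of `F / K` modulo the inertia group is cyclic. -/
theorem v7g_cyc (F : IntermediateField K (AlgebraicClosure K)) [FiniteDimensional K F]
    [IsGalois K F] (v : HeightOneSpectrum (𝓞 K)) (𝔓 : Ideal (𝓞 (AlgebraicClosure K)))
    (h𝔓 : Above 𝔓 v) : ∃ φ : (decompGrp K 𝔓).map (AlgEquiv.restrictNormalHom F),
      CycMod (((inertiaGrp K 𝔓).map (AlgEquiv.restrictNormalHom F)).subgroupOf
        ((decompGrp K 𝔓).map (AlgEquiv.restrictNormalHom F))) φ := by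
  obtain ⟨φ, hφ, h⟩ := v7f_gen v 𝔓 h𝔓
  refine ⟨⟨AlgEquiv.restrictNormalHom F φ, Subgroup.mem_map_of_mem _ hφ⟩, ⟨?_, ?_⟩⟩
  · rintro ⟨_, d, hd, rfl⟩
    obtain ⟨n, i, hi, t, ht, e⟩ := h F d hd
    refine ⟨n, ⟨AlgEquiv.restrictNormalHom F i,
      Subgroup.mem_map_of_mem _ (inertiaGrp_le 𝔓 hi)⟩, ?_, ?_⟩
    · rw [Subgroup.mem_subgroupOf]
      exact Subgroup.mem_map_of_mem _ hi
    · apply Subtype.ext
      show AlgEquiv.restrictNormalHom F d =
        (AlgEquiv.restrictNormalHom F φ) ^ n * AlgEquiv.restrictNormalHom F i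
      rw [e, map_mul, map_mul, map_pow, v7g_one F t ht, mul_one]
  · rintro ⟨_, a, ha, rfl⟩ ⟨_, b, hb, rfl⟩
    rw [Subgroup.mem_subgroupOf]
    refine ⟨a * b * a⁻¹ * b⁻¹, commutator_mem v 𝔓 h𝔓 a b ha hb, ?_⟩
    rw [map_mul, map_mul, map_mul, map_inv, map_inv]
    rfl

/-- The orbits of the inertia group. -/
theorem v7g_orbit (F L : IntermediateField K (AlgebraicClosure K)) [FiniteDimensional K F]
    [IsGalois K F] (hL : L ≤ F) (v : HeightOneSpectrum (𝓞 K))
    (𝔓 : Ideal (𝓞 (AlgebraicClosure K))) (h𝔓 : Above 𝔓 v) (hLv : OddRam L v)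
    (x : (F ≃ₐ[K] F) ⧸ relGal F L) :
    Odd (MulAction.orbit (((inertiaGrp K 𝔓).map (AlgEquiv.restrictNormalHom F)).subgroupOf
        ((decompGrp K 𝔓).map (AlgEquiv.restrictNormalHom F))) x).ncard := by
  obtain ⟨g, rfl⟩ := QuotientGroup.mk_surjective x
  obtain ⟨s, rfl⟩ := AlgEquiv.restrictNormalHom_surjective (F := K) (K₁ := F)
    (AlgebraicClosure K) g
  have h1 : MulAction.orbit (((inertiaGrp K 𝔓).map (AlgEquiv.restrictNormalHom F)).subgroupOf
        ((decompGrp K 𝔓).map (AlgEquiv.restrictNormalHom F)))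
        ((AlgEquiv.restrictNormalHom F s : F ≃ₐ[K] F) : (F ≃ₐ[K] F) ⧸ relGal F L) =
      MulAction.orbit ((inertiaGrp K 𝔓).map (AlgEquiv.restrictNormalHom F))
        ((AlgEquiv.restrictNormalHom F s : F ≃ₐ[K] F) : (F ≃ₐ[K] F) ⧸ relGal F L) := by
    ext y
    constructor
    · rintro ⟨⟨⟨d, hd⟩, hd'⟩, rfl⟩
      exact ⟨⟨d, hd'⟩, rfl⟩
    · rintro ⟨⟨d, hd⟩, rfl⟩
      have hd' : d ∈ (decompGrp K 𝔓).map (AlgEquiv.restrictNormalHom F) :=
        Subgroup.map_mono (inertiaGrp_le 𝔓) hd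
      exact ⟨⟨⟨d, hd'⟩, hd⟩, rfl⟩
  rw [h1, v2p_orbit]
  have h2 : ((inertiaGrp K 𝔓).map (AlgEquiv.restrictNormalHom F)).map
      (MulAut.conj (AlgEquiv.restrictNormalHom F s)⁻¹).toMonoidHom =
      (inertiaGrp K (s⁻¹ • 𝔓)).map (AlgEquiv.restrictNormalHom F) := by
    ext y
    constructor
    · rintro ⟨_, ⟨i, hi, rfl⟩, rfl⟩
      refine ⟨s⁻¹ * i * s, ?_, ?_⟩
      · show s⁻¹ * i * s ∈ inertia K (s⁻¹ • 𝔓)
        rw [inertia_smul]
        have e : s⁻¹⁻¹ * (s⁻¹ * i * s) * s⁻¹ = i := by group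
        rw [e]
        exact hi
      · rw [map_mul, map_mul, map_inv]
        simp
    · rintro ⟨j, hj, rfl⟩
      have hj' : j ∈ inertia K (s⁻¹ • 𝔓) := hj
      rw [inertia_smul, inv_inv] at hj'
      refine ⟨_, ⟨s * j * s⁻¹, hj', rfl⟩, ?_⟩
      rw [map_mul, map_mul, map_inv]
      simp [mul_assoc]
  rw [h2, ← Subgroup.relIndex_comap]
  have h3 : (relGal F L).comap (AlgEquiv.restrictNormalHom F) = L.fixingSubgroup := by
    ext t
    rw [Subgroup.mem_comap]
    exact v7g_mem F L hL t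
  rw [h3]
  exact hLv _ (above_smul v 𝔓 h𝔓 s⁻¹)

/-- The products of the local signs of `LM` and of `M` above `v`, if they are given by numbers of
characters. -/
theorem v7g_place (L M : IntermediateField K (AlgebraicClosure K))
    (hodd : Odd (Module.finrank K L)) (hT : TransOn L M.fixingSubgroup)
    (heven : Even (Module.finrank K M)) (v : HeightOneSpectrum (𝓞 K)) (hLv : OddRam L v)
    (hMv : UnramifiedIn M v) (F : IntermediateField K (AlgebraicClosure K))
    [FiniteDimensional K F] [IsGalois K F] (hF : L ⊔ M ≤ F)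
    (𝔓 : Ideal (𝓞 (AlgebraicClosure K))) (h𝔓 : Above 𝔓 v) (W : LocalSigns K)
    (w : ((decompGrp K 𝔓).map (AlgEquiv.restrictNormalHom F) →* ℤˣ) → ℕ)
    (hw : ∀ N : IntermediateField K (AlgebraicClosure K), N = M ∨ N = L ⊔ M →
      ∀ (σ : AlgebraicClosure K ≃ₐ[K] AlgebraicClosure K) (x : HeightOneSpectrum (𝓞 N)),
        PrimeOver N (σ • 𝔓) x → W N x =
          (-1) ^ (∑ᶠ ε : (decompGrp K 𝔓).map (AlgEquiv.restrictNormalHom F) →* ℤˣ,
              (open Classical in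
                if ∀ d : (decompGrp K 𝔓).map (AlgEquiv.restrictNormalHom F),
                  AlgEquiv.restrictNormalHom F σ * d * (AlgEquiv.restrictNormalHom F σ)⁻¹ ∈
                    relGal F N → ε d = 1 then w ε else 0))) :
    ∏ᶠ x : {x : HeightOneSpectrum (𝓞 (L ⊔ M : IntermediateField K (AlgebraicClosure K))) //
      Divides (L ⊔ M) x v}, W (L ⊔ M) x.1 =
    ∏ᶠ x : {x : HeightOneSpectrum (𝓞 M) // Divides M x v}, W M x.1 := by
  have hLF : L ≤ F := le_sup_left.trans hF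
  have hMF : M ≤ F := le_sup_right.trans hF
  obtain ⟨φ, hφ⟩ := v7g_cyc F v 𝔓 h𝔓
  obtain ⟨T, hT1, hT2, hT3⟩ := exists_T F M hMF v 𝔓 h𝔓
  obtain ⟨T', hT1', hT2', hT3'⟩ := exists_T F (L ⊔ M) hF v 𝔓 h𝔓
  have hsurj := AlgEquiv.restrictNormalHom_surjective (F := K) (K₁ := F) (AlgebraicClosure K)
  have hinf := v7g_inf F L M hLF hMF
  refine v7s_final ((decompGrp K 𝔓).map (AlgEquiv.restrictNormalHom F)) (relGal F L)
    (relGal F M) hφ ?_ ?_ ?_ ?_ ?_ T hT1 hT2 T' hT1' ?_ w (fun x => W M x.1)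
    (fun x => W (L ⊔ M) x.1) ?_ ?_
  · intro g
    obtain ⟨s, rfl⟩ := hsurj g
    obtain ⟨t, ht1, ht2⟩ := hT s
    refine ⟨AlgEquiv.restrictNormalHom F t, (v7g_mem F M hMF t).2 ht1, ?_⟩
    rw [← map_inv, ← map_mul]
    exact (v7g_mem F L hLF _).2 ht2
  · rw [v7g_index F L hLF]
    exact hodd
  · rw [v7g_index F M hMF]
    exact heven
  · rintro g ⟨x, hd⟩ ⟨i, hi, hid⟩
    obtain ⟨s, rfl⟩ := hsurj g
    have hid' : AlgEquiv.restrictNormalHom F i = x := hid
    show AlgEquiv.restrictNormalHom F s * x * (AlgEquiv.restrictNormalHom F s)⁻¹ ∈ relGal F M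
    rw [← hid', ← map_inv, ← map_mul, ← map_mul]
    refine (v7g_mem F M hMF _).2 (hMv (s • 𝔓) (above_smul v 𝔓 h𝔓 s) ?_)
    rw [inertia_smul]
    have e : s⁻¹ * (s * i * s⁻¹) * s = i := by group
    rw [e]
    exact hi
  · exact v7g_orbit F L hLF v 𝔓 h𝔓 hLv
  · intro g g'
    rw [hT2' g g', hinf]
  · intro g
    obtain ⟨s, rfl⟩ := hsurj g
    refine (hw M (Or.inl rfl) s _ (hT3 s)).trans ?_
    congr 1
    exact finsum_congr fun ε => by congr
  · intro g
    obtain ⟨s, rfl⟩ := hsurj g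
    have h1 := hw (L ⊔ M) (Or.inr rfl) s _ (hT3' s)
    rw [hinf] at h1
    refine h1.trans ?_
    congr 1
    exact finsum_congr fun ε => by congr

end Pool.Agent.H.MP_ac3185_nt
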