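import Pool.Agent.H.MP_ac3185_nt.V4.Root
import Pool.Agent.H.MP_ac3185_nt.V4.Types
import Pool.Agent.H.MP_ac3185_nt.V2.Root
import Pool.Agent.H.MP_ac3185_nt.V7.SignE

/-! The root numbers over `LM` and over `M`, for `[M : K]` even. -/

set_option autoImplicit false

open CategoryTheory AlgebraicGeometry NumberField IsDedekindDomain
open scoped MonObj Pointwise

namespace Pool.Agent.H.MP_ac3185_nt

universe u

variable {K : Type u} [Field K] [NumberField K]

/-- An unramified place is unramified in the normal closure. -/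
theorem v7g_normal (N : IntermediateField K (AlgebraicClosure K)) (v : HeightOneSpectrum (𝓞 K))
    (hN : UnramifiedIn N v) :
    UnramifiedIn (IntermediateField.normalClosure K N (AlgebraicClosure K)) v := by
  intro 𝔓 h𝔓 i hi
  have h1 : IntermediateField.normalClosure K N (AlgebraicClosure K) ≤
      IntermediateField.fixedField (Subgroup.zpowers i) := by
    rw [IntermediateField.normalClosure_def'', iSup_le_iff]
    intro f
    rw [IntermediateField.le_iff_le, Subgroup.zpowers_le,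
      IntermediateField.mem_fixingSubgroup_iff]
    rintro _ ⟨x, hx, rfl⟩
    have h2 : f⁻¹ * i * f ∈ N.fixingSubgroup := by
      refine hN (f⁻¹ • 𝔓) (above_smul v 𝔓 h𝔓 f⁻¹) ?_
      rw [inertia_smul]
      have e : f⁻¹⁻¹ * (f⁻¹ * i * f) * f⁻¹ = i := by group
      rw [e]
      exact hi
    have h3 : (f⁻¹ * i * f) x = x := (IntermediateField.mem_fixingSubgroup_iff _ _).1 h2 x hx
    show i (f x) = f x
    have h4 : f ((f⁻¹ * i * f) x) = i (f x) := by
      rw [AlgEquiv.mul_apply, AlgEquiv.mul_apply, ← AlgEquiv.mul_apply, mul_inv_cancel,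
        AlgEquiv.one_apply]
    rw [← h4, h3]
  rw [IntermediateField.le_iff_le, Subgroup.zpowers_le] at h1
  exact h1

/-- The local signs at an unramified place, as numbers of characters. -/
theorem v7g_unr (F : IntermediateField K (AlgebraicClosure K)) [FiniteDimensional K F]
    [IsGalois K F] (A : Over (Spec (.of K))) [GrpObj A] [IsAbVar A] (W : LocalSigns K)
    (hW : IsRootNumbers A W) (v : HeightOneSpectrum (𝓞 K)) (hF : UnramifiedIn F v)
    (𝔓 : Ideal (𝓞 (AlgebraicClosure K))) (h𝔓 : Above 𝔓 v) :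
    ∃ w : ((decompGrp K 𝔓).map (AlgEquiv.restrictNormalHom F) →* ℤˣ) → ℕ,
      ∀ N : IntermediateField K (AlgebraicClosure K), N ≤ F →
        ∀ (σ : AlgebraicClosure K ≃ₐ[K] AlgebraicClosure K) (x : HeightOneSpectrum (𝓞 N)),
        PrimeOver N (σ • 𝔓) x → W N x =
          (-1) ^ (∑ᶠ ε : (decompGrp K 𝔓).map (AlgEquiv.restrictNormalHom F) →* ℤˣ,
              (open Classical in
                if ∀ d : (decompGrp K 𝔓).map (AlgEquiv.restrictNormalHom F),
                  AlgEquiv.restrictNormalHom F σ * d * (AlgEquiv.restrictNormalHom F σ)⁻¹ ∈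
                    relGal F N → ε d = 1 then w ε else 0)) := by
  obtain ⟨a, b₀, hab⟩ := hW.unramified v
  have hin : ∀ N : IntermediateField K (AlgebraicClosure K), N ≤ F → ∀ 𝔔, Above 𝔔 v →
      inertia K 𝔔 ⊆ (N.fixingSubgroup : Set (AlgebraicClosure K ≃ₐ[K] AlgebraicClosure K)) :=
    fun N hN 𝔔 h𝔔 => (hF 𝔔 h𝔔).trans (IntermediateField.fixingSubgroup_antitone hN)
  -- the sign `a`
  have ha : a = 1 ∨ a = -1 := by
    obtain ⟨w, hw1, -⟩ := exists_placeBelow (⊥ : IntermediateField K (AlgebraicClosure K)) v 𝔓 h𝔓 1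
    rw [one_smul] at hw1
    have h1 := hab ⊥ w 𝔓 hw1 h𝔓 (hin ⊥ bot_le 𝔓 h𝔓)
    have h2 : (⊥ : IntermediateField K (AlgebraicClosure K)).fixingSubgroup.relIndex
        (decompGrp K 𝔓) = 1 := by
      rw [IntermediateField.fixingSubgroup_bot, Subgroup.relIndex_top_left]
    rw [← h1.1 (by rw [h2]; exact odd_one)]
    exact hW.sign ⊥ w
  -- the sign `b`
  obtain ⟨b, hb, hbb⟩ : ∃ b : ℤ, (b = 1 ∨ b = -1) ∧ ((b₀ = 1 ∨ b₀ = -1) → b = b₀) := by
    by_cases h : b₀ = 1 ∨ b₀ = -1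
    · exact ⟨b₀, h, fun _ => rfl⟩
    · exact ⟨1, Or.inl rfl, fun h' => absurd h' h⟩
  have hcyc : IsCyclic ((decompGrp K 𝔓).map (AlgEquiv.restrictNormalHom F)) := by
    obtain ⟨φ, hφ⟩ := v7g_cyc F v 𝔓 h𝔓
    refine ⟨φ, fun d => ?_⟩
    obtain ⟨n, ⟨i, hi'⟩, hi, rfl⟩ := hφ.gen d
    obtain ⟨j, hj, hji⟩ := hi
    have hji' : AlgEquiv.restrictNormalHom F j = i := hji
    have h1 : i = 1 := by
      rw [← hji']
      exact v7g_one F j (hF 𝔓 h𝔓 hj)
    have h2 : (⟨i, hi'⟩ : (decompGrp K 𝔓).map (AlgEquiv.restrictNormalHom F)) = 1 :=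
      Subtype.ext h1
    rw [h2, mul_one]
    exact Subgroup.npow_mem_zpowers φ n
  obtain ⟨w, hw⟩ := cyclic_parity (C := (decompGrp K 𝔓).map (AlgEquiv.restrictNormalHom F))
    a b ha hb
  refine ⟨w, ?_⟩
  intro N hN σ x hx
  let S : Subgroup ((decompGrp K 𝔓).map (AlgEquiv.restrictNormalHom F)) :=
    (relGal F N).comap
      ((MulAut.conj ((AlgEquiv.restrictNormalHom F) σ)).toMonoidHom.comp
        ((decompGrp K 𝔓).map (AlgEquiv.restrictNormalHom F)).subtype)
  have hmem : ∀ d : (decompGrp K 𝔓).map (AlgEquiv.restrictNormalHom F), d ∈ S ↔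
      AlgEquiv.restrictNormalHom F σ * d * (AlgEquiv.restrictNormalHom F σ)⁻¹ ∈ relGal F N :=
    fun d => Iff.rfl
  have hidx : N.fixingSubgroup.relIndex (decompGrp K (σ • 𝔓)) = S.index := by
    refine relIndex_eq (AlgEquiv.restrictNormalHom F) (decompGrp K 𝔓) N.fixingSubgroup
      (ker_le_fixingSubgroup F N hN) σ (decompGrp K (σ • 𝔓)) (fun g => decomp_smul 𝔓 σ g) S ?_
    intro d
    rw [map_fixingSubgroup F N hN]
    exact hmem d
  have hfd : FiniteDimensional K N := finc_fin F N hN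
  have hab' : Above (σ • 𝔓) v := above_smul v 𝔓 h𝔓 σ
  have h1 := hab N x (σ • 𝔓) hx hab' (hin N hN _ hab')
  rw [hidx] at h1
  rcases Nat.even_or_odd S.index with he | ho
  · have h2 : W N x = b := by
      have h3 := hW.sign N x
      rw [h1.2 he] at h3 ⊢
      exact (hbb h3).symm
    rw [h2]
    convert (hw S).2 he
    exact (hmem _).symm
  · rw [h1.1 ho]
    convert (hw S).1 ho
    exact (hmem _).symm

/-- The local signs at a semistable place, as numbers of characters. -/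
theorem v7g_semi (F : IntermediateField K (AlgebraicClosure K)) [FiniteDimensional K F]
    [IsGalois K F] (A : Over (Spec (.of K))) [GrpObj A] [IsAbVar A] (W : LocalSigns K)
    (hW : IsRootNumbers A W) (v : HeightOneSpectrum (𝓞 K))
    (hss : ∀ 𝔓, Above 𝔓 v → SemistableOver A ⊥ 𝔓)
    (𝔓 : Ideal (𝓞 (AlgebraicClosure K))) (h𝔓 : Above 𝔓 v) :
    ∃ w : ((decompGrp K 𝔓).map (AlgEquiv.restrictNormalHom F) →* ℤˣ) → ℕ,
      ∀ N : IntermediateField K (AlgebraicClosure K), N ≤ F →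
        ∀ (σ : AlgebraicClosure K ≃ₐ[K] AlgebraicClosure K) (x : HeightOneSpectrum (𝓞 N)),
        PrimeOver N (σ • 𝔓) x → W N x =
          (-1) ^ (∑ᶠ ε : (decompGrp K 𝔓).map (AlgEquiv.restrictNormalHom F) →* ℤˣ,
              (open Classical in
                if ∀ d : (decompGrp K 𝔓).map (AlgEquiv.restrictNormalHom F),
                  AlgEquiv.restrictNormalHom F σ * d * (AlgEquiv.restrictNormalHom F σ)⁻¹ ∈
                    relGal F N → ε d = 1 then w ε else 0)) := by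
  obtain ⟨B, hB⟩ := exists_bound v 𝔓 h𝔓
  obtain ⟨ℓ, hℓF, hℓB, h4, hp⟩ := exists_good_prime (Nat.card (F ≃ₐ[K] F)) Nat.card_pos.ne' B
  have hℓ𝔓 : (ℓ : 𝓞 (AlgebraicClosure K)) ∉ 𝔓 := hB ℓ hℓF.out hℓB
  obtain ⟨w, hw⟩ := local_semistable F A v 𝔓 h𝔓 (hss 𝔓 h𝔓) ℓ hℓ𝔓 h4 hp
  refine ⟨w, fun N hN σ x hx => ?_⟩
  have hfd : FiniteDimensional K N := finc_fin F N hN
  have h1 := hW.semistable N x (σ • 𝔓) hx
    ((hss _ (above_smul v 𝔓 h𝔓 σ)).mono N) ℓ (by
      rw [natCast_mem_smul']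
      exact hℓ𝔓)
  rw [h1, neg_one_pow_eq_pow_mod_two, hw N hN σ, ← neg_one_pow_eq_pow_mod_two]

/-- The places of `LM` correspond to the places of `M`, if the decomposition groups are transitive. -/
theorem v7g_trans (L M : IntermediateField K (AlgebraicClosure K)) [FiniteDimensional K L]
    [FiniteDimensional K M] (hodd : Odd (Module.finrank K L)) (A : Over (Spec (.of K))) [GrpObj A]
    [IsAbVar A] (W : LocalSigns K) (hW : IsRootNumbers A W) (v : HeightOneSpectrum (𝓞 K))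
    (hss : ∀ 𝔓, Above 𝔓 v → SemistableOver A ⊥ 𝔓)
    (ht : ∀ 𝔓, Above 𝔓 v → TransOn L (decompGrp K 𝔓 ⊓ M.fixingSubgroup)) :
    ∏ᶠ x : {x : HeightOneSpectrum (𝓞 (L ⊔ M : IntermediateField K (AlgebraicClosure K))) //
      Divides (L ⊔ M) x v}, W (L ⊔ M) x.1 =
    ∏ᶠ x : {x : HeightOneSpectrum (𝓞 M) // Divides M x v}, W M x.1 := by
  obtain ⟨𝔓, h𝔓⟩ := exists_above v
  have h1 : ∀ x : {x : HeightOneSpectrum (𝓞 (L ⊔ M : IntermediateField K
      (AlgebraicClosure K))) // Divides (L ⊔ M) x v},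
      ∃ (P : Ideal (𝓞 (AlgebraicClosure K)))
        (y : {y : HeightOneSpectrum (𝓞 M) // Divides M y v}),
        Above P v ∧ PrimeOver (L ⊔ M) P x.1 ∧ PrimeOver M P y.1 := by
    intro x
    obtain ⟨σ, hσ⟩ := exists_translate (L ⊔ M) v 𝔓 h𝔓 x.1 x.2
    obtain ⟨y, hy1, hy2⟩ := exists_placeBelow M v 𝔓 h𝔓 σ
    exact ⟨σ • 𝔓, ⟨y, hy2⟩, above_smul v 𝔓 h𝔓 σ, hσ, hy1⟩
  choose P y hP1 hP2 hP3 using h1
  have hle : (L ⊔ M : IntermediateField K (AlgebraicClosure K)).fixingSubgroup ≤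
      M.fixingSubgroup := IntermediateField.fixingSubgroup_antitone le_sup_right
  refine finprod_eq_of_bijective y ⟨?_, ?_⟩ ?_
  · intro x x' hx
    apply Subtype.ext
    have h2 : PrimeOver M (P x') (y x).1 := by
      rw [hx]
      exact hP3 x'
    exact (v4r_one L M (P x) (P x') (y x).1 (hP3 x) h2 (ht _ (hP1 x)) x.1 x'.1 (hP2 x)
      (hP2 x')).symm
  · intro z
    obtain ⟨σ, hσ⟩ := exists_translate M v 𝔓 h𝔓 z.1 z.2
    obtain ⟨x, hx1, hx2⟩ := exists_placeBelow (L ⊔ M) v 𝔓 h𝔓 σ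
    refine ⟨⟨x, hx2⟩, Subtype.ext ?_⟩
    obtain ⟨h, hh, he⟩ := v4r_gal (L ⊔ M) (P ⟨x, hx2⟩) (σ • 𝔓) x (hP2 ⟨x, hx2⟩) hx1
    have h3 := v4r_over M (P ⟨x, hx2⟩) _ (hP3 ⟨x, hx2⟩) h (hle hh)
    rw [he] at h3
    refine HeightOneSpectrum.ext ?_
    rw [← h3.2, ← hσ.2]
  · intro x
    exact v4r_local A W hW v (P x) (hP1 x) L M hodd (ht _ (hP1 x)) (Or.inr (hss _ (hP1 x)))
      x.1 (hP2 x) (y x).1 (hP3 x)

variable (L : IntermediateField K (AlgebraicClosure K)) [FiniteDimensional K L]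

/-- The product at one place. -/
theorem v7g_all (hodd : Odd (Module.finrank K L)) (M : IntermediateField K (AlgebraicClosure K))
    [FiniteDimensional K M] (hT : TransOn L M.fixingSubgroup) (heven : Even (Module.finrank K M))
    (A : Over (Spec (.of K))) [GrpObj A] [IsAbVar A] (W : LocalSigns K) (hW : IsRootNumbers A W)
    (v : HeightOneSpectrum (𝓞 K)) (hA : (∀ 𝔓, Above 𝔓 v → GoodAt A 𝔓) ∨
      UnramifiedIn (L ⊔ M) v ∨
      ((∀ 𝔓, Above 𝔓 v → SemistableOver A ⊥ 𝔓) ∧ ((OddRam L v ∧ UnramifiedIn M v) ∨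
        ∀ 𝔓, Above 𝔓 v → TransOn L (decompGrp K 𝔓 ⊓ M.fixingSubgroup)))) :
    ∏ᶠ x : {x : HeightOneSpectrum (𝓞 (L ⊔ M : IntermediateField K (AlgebraicClosure K))) //
      Divides (L ⊔ M) x v}, W (L ⊔ M) x.1 =
    ∏ᶠ x : {x : HeightOneSpectrum (𝓞 M) // Divides M x v}, W M x.1 := by
  have hNf : FiniteDimensional K (L ⊔ M : IntermediateField K (AlgebraicClosure K)) :=
    inferInstance
  obtain ⟨F, hF⟩ : ∃ F : IntermediateField K (AlgebraicClosure K),
      F = IntermediateField.normalClosure K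
        (L ⊔ M : IntermediateField K (AlgebraicClosure K)) (AlgebraicClosure K) := ⟨_, rfl⟩
  have hFn : Normal K F := by
    rw [hF]
    infer_instance
  have hFg : IsGalois K F := ⟨⟩
  have hFf : FiniteDimensional K F := by
    rw [hF]
    infer_instance
  have hNF : L ⊔ M ≤ F := by
    rw [hF]
    exact IntermediateField.le_normalClosure _
  have hMF : M ≤ F := le_sup_right.trans hNF
  obtain ⟨𝔓, h𝔓⟩ := exists_above v
  rcases hA with hg | hu | ⟨hss, ⟨ho, hM⟩ | ht⟩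
  · have g1 : ∀ x : {x : HeightOneSpectrum (𝓞 (L ⊔ M : IntermediateField K
        (AlgebraicClosure K))) // Divides (L ⊔ M) x v}, W (L ⊔ M) x.1 = 1 := fun x =>
      vr_good A W hW v hg (L ⊔ M) x.1 x.2
    have g2 : ∀ x : {x : HeightOneSpectrum (𝓞 M) // Divides M x v}, W M x.1 = 1 := fun x =>
      vr_good A W hW v hg M x.1 x.2
    rw [finprod_eq_one_of_forall_eq_one g1, finprod_eq_one_of_forall_eq_one g2]
  · have hFv : UnramifiedIn F v := by
      rw [hF]
      exact v7g_normal _ v hu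
    obtain ⟨w, hw⟩ := v7g_unr F A W hW v hFv 𝔓 h𝔓
    refine v7g_place L M hodd hT heven v ?_ ?_ F hNF 𝔓 h𝔓 W w ?_
    · intro 𝔔 h𝔔
      have h1 : inertiaGrp K 𝔔 ≤ L.fixingSubgroup := fun i hi =>
        IntermediateField.fixingSubgroup_antitone (le_sup_left : L ≤ L ⊔ M) (hu 𝔔 h𝔔 hi)
      rw [Subgroup.relIndex_eq_one.2 h1]
      exact odd_one
    · intro 𝔔 h𝔔 i hi
      exact IntermediateField.fixingSubgroup_antitone (le_sup_right : M ≤ L ⊔ M) (hu 𝔔 h𝔔 hi)
    · rintro N' (rfl | rfl)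
      · exact hw _ hMF
      · exact hw _ hNF
  · obtain ⟨w, hw⟩ := v7g_semi F A W hW v hss 𝔓 h𝔓
    refine v7g_place L M hodd hT heven v ho hM F hNF 𝔓 h𝔓 W w ?_
    rintro N' (rfl | rfl)
    · exact hw _ hMF
    · exact hw _ hNF
  · exact v7g_trans L M hodd A W hW v hss ht

/-- The root numbers over `LM` and over `M`, if `[M : K]` is even. At a place `v` of `K` which is
unramified in `LM` nothing is assumed about `A`. -/
theorem v7_sign (hodd : Odd (Module.finrank K L)) (M : IntermediateField K (AlgebraicClosure K))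
    [FiniteDimensional K M] (hT : TransOn L M.fixingSubgroup) (heven : Even (Module.finrank K M))
    (A : Over (Spec (.of K))) [GrpObj A] [IsAbVar A] (W : LocalSigns K) (hW : IsRootNumbers A W)
    (hA : ∀ v : HeightOneSpectrum (𝓞 K), (∀ 𝔓, Above 𝔓 v → GoodAt A 𝔓) ∨
      UnramifiedIn (L ⊔ M) v ∨
      ((∀ 𝔓, Above 𝔓 v → SemistableOver A ⊥ 𝔓) ∧ ((OddRam L v ∧ UnramifiedIn M v) ∨
        ∀ 𝔓, Above 𝔓 v → TransOn L (decompGrp K 𝔓 ⊓ M.fixingSubgroup))))
    (g : ℕ) :
    signOver W g (L ⊔ M) = (-1) ^ (g * (Nat.card (InfinitePlace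
      (L ⊔ M : IntermediateField K (AlgebraicClosure K))) + Nat.card (InfinitePlace M))) *
        signOver W g M := by
  have hNf : FiniteDimensional K (L ⊔ M : IntermediateField K (AlgebraicClosure K)) :=
    inferInstance
  have h0 : ∏ᶠ x : HeightOneSpectrum (𝓞 (L ⊔ M : IntermediateField K (AlgebraicClosure K))),
      W (L ⊔ M) x = ∏ᶠ x : HeightOneSpectrum (𝓞 M), W M x := by
    refine (finprod_places (L ⊔ M) (W (L ⊔ M)) (hW.almost (L ⊔ M))).2.trans ?_
    refine Eq.trans ?_ (finprod_places M (W M) (hW.almost M)).2.symm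
    exact finprod_congr fun v => v7g_all L hodd M hT heven A W hW v (hA v)
  unfold signOver
  rw [h0, ← mul_assoc, ← pow_add]
  congr 1
  have h1 : g * (Nat.card (InfinitePlace (L ⊔ M : IntermediateField K (AlgebraicClosure K))) +
      Nat.card (InfinitePlace M)) + g * Nat.card (InfinitePlace M) =
      g * Nat.card (InfinitePlace (L ⊔ M : IntermediateField K (AlgebraicClosure K))) +
        2 * (g * Nat.card (InfinitePlace M)) := by ring
  rw [h1, pow_add, pow_mul (-1 : ℤ) 2, neg_one_sq, one_pow, mul_one]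

end Pool.Agent.H.MP_ac3185_nt
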