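import Pool.Agent.H.MP_ac3185_nt.V7.Even
import Pool.Agent.H.MP_ac3185_nt.V4.Quad
import Pool.Agent.H.MP_ac3185_nt.V8.Gen

/-! One step over `M`. -/

set_option autoImplicit false

open CategoryTheory AlgebraicGeometry NumberField IsDedekindDomain
open scoped MonObj

namespace Pool.Agent.H.MP_ac3185_nt

universe u

variable {K : Type u} [Field K] [NumberField K] (L F : IntermediateField K (AlgebraicClosure K))
  [FiniteDimensional K L] [FiniteDimensional K F]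

/-- One step over `M`, from `v8_gen`. -/
theorem v7_step (hodd : Odd (Module.finrank K L))
    (M : IntermediateField K (AlgebraicClosure K)) [FiniteDimensional K M]
    (hTF : TransOn F M.fixingSubgroup)
    {A : Over (Spec (.of K))} [GrpObj A] [IsAbVar A]
    (N N' H : AddSubgroup (Pts A (AlgebraicClosure K))) (hf : ModFrame F N N' H)
    (hlin : ∀ s, ∃ w ∈ M.fixingSubgroup, (∀ x ∈ N', act A w x - x ∈ N) ∧
      w⁻¹ * s ∈ L.fixingSubgroup)
    (U E : Set (Ideal (𝓞 (AlgebraicClosure K)))) (P : Set (AlgebraicClosure K →+* ℂ))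
    (hcls : TrivF L F (relSets F N' H) M.fixingSubgroup U E P)
    (hU : ∀ 𝔓 ∈ U, FinPrime 𝔓 ∧ (EtaleQuot F N' H 𝔓 ∨ (2 ∉ 𝔓 ∧
      (TransOn L (decompGrp K 𝔓 ⊓ (F.fixingSubgroup ⊓ M.fixingSubgroup)) ∨
        EvenQuot (L ⊔ M) F N' H ∅ 𝔓))))
    (hE : ∀ 𝔓 ∈ E, EvenQuot (L ⊔ M) F N' H ∅ 𝔓)
    (hP : ∀ e ∈ P, ∀ s ∈ F.fixingSubgroup, (∀ z, e (s z) = starRingEnd ℂ (e z)) →
      ∀ x, act A s x - x ∈ N' → act A s x - x ∈ H) :
    ∀ x ∈ ratPts A (L.fixingSubgroup ⊓ M.fixingSubgroup) N',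
      ∃ y ∈ ratPts A M.fixingSubgroup N', ∃ z ∈ ratPts A (L.fixingSubgroup ⊓ M.fixingSubgroup) N,
        x = y + z := by
  classical
  have hfd : FiniteDimensional K (F ⊔ M : IntermediateField K (AlgebraicClosure K)) :=
    IntermediateField.finiteDimensional_sup F M
  have hcore : ∀ x ∈ N', (∀ g ∈ M.fixingSubgroup, act A g x ∈ H) → x ∈ N := by
    intro x hx h
    refine hf.core x hx fun g => ?_
    obtain ⟨m, hm, hmg⟩ := hTF g⁻¹
    have h1 := hf.stab _ (inv_mem hmg) _ (h m⁻¹ (inv_mem hm))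
    rwa [← v2s_act_mul, mul_inv_rev, inv_inv, inv_inv, mul_assoc, mul_inv_cancel, mul_one] at h1
  obtain ⟨u, β, hu0, -, hall⟩ := v8_gen L F M hodd hf hcore hlin
  have hT := v8_lin L F M.fixingSubgroup hf hlin
  have hFM : (F ⊔ M : IntermediateField K (AlgebraicClosure K)).fixingSubgroup =
      F.fixingSubgroup ⊓ M.fixingSubgroup := IntermediateField.fixingSubgroup_sup
  have hsup : ∀ s, s ∈ (L ⊔ M ⊔ F : IntermediateField K (AlgebraicClosure K)).fixingSubgroup ↔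
      s ∈ L.fixingSubgroup ⊓ (F.fixingSubgroup ⊓ M.fixingSubgroup) := by
    intro s
    rw [IntermediateField.fixingSubgroup_sup, IntermediateField.fixingSubgroup_sup]
    constructor
    · rintro ⟨⟨h1, h2⟩, h3⟩
      exact ⟨h1, h3, h2⟩
    · rintro ⟨h1, h3, h2⟩
      exact ⟨⟨h1, h2⟩, h3⟩
  have hgrp : (L ⊔ M ⊔ F : IntermediateField K (AlgebraicClosure K)).fixingSubgroup =
      L.fixingSubgroup ⊓ (F.fixingSubgroup ⊓ M.fixingSubgroup) := Subgroup.ext hsup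
  have hLFM : L ⊔ (F ⊔ M) = L ⊔ M ⊔ F := by
    rw [sup_comm F M, sup_assoc]
  intro Q hQ
  obtain ⟨hβ, hs, ⟨d, hd, hN⟩, hrel, -, hfin⟩ := hall Q hQ
  have hsg : ∀ s ∈ L.fixingSubgroup ⊓ (F.fixingSubgroup ⊓ M.fixingSubgroup),
      (act A s (β Q) - β Q ∈ H ↔ s (u Q) = u Q) := by
    rintro s ⟨h1, h2, h3⟩
    rw [hs s h1 h2 h3, ← sgH_eq_one]
    constructor
    · intro h
      rw [h, one_mul]
    · intro h
      exact mul_right_cancel₀ (hu0 Q) (by rw [h, one_mul])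
  have hc0 : u Q * u Q ≠ 0 := mul_ne_zero (hu0 Q) (hu0 Q)
  have hcfix : FixG (L.fixingSubgroup ⊓ (F.fixingSubgroup ⊓ M.fixingSubgroup)) (u Q * u Q) := by
    rintro s ⟨h1, h2, h3⟩
    have h4 := sgH_mul_self (H := H) (act A s (β Q) - β Q)
    rw [map_mul, hs s h1 h2 h3]
    linear_combination (u Q * u Q) * h4
  have hcL : u Q * u Q ∈ (L ⊔ M ⊔ F : IntermediateField K (AlgebraicClosure K)) := by
    apply vn_mem
    intro s h
    exact hcfix s ((hsup s).1 h)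
  have hsqrt : ∀ s : AlgebraicClosure K ≃ₐ[K] AlgebraicClosure K, s (u Q) = u Q →
      ∀ z, z * z = u Q * u Q → s z = z := by
    intro s hs z hz
    rcases mul_self_eq_mul_self_iff.1 hz with h6 | h6
    · rw [h6, hs]
    · rw [h6, map_neg, hs]
  have hEv : ∀ 𝔓, EvenQuot (L ⊔ M) F N' H ∅ 𝔓 → EvenAt (L ⊔ M ⊔ F) 𝔓 (u Q * u Q) := by
    intro 𝔓 hE
    refine hE (β Q) (u Q) (hu0 Q) hcL (fun s hs' => ?_) (fun s hs' => hsg s ((hsup s).1 hs'))
      (fun v hv => absurd hv (Finset.notMem_empty v))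
    rw [IntermediateField.fixingSubgroup_sup] at hs'
    exact hβ s hs'
  have hunr : ∀ 𝔓 ∈ U, UnrG (L.fixingSubgroup ⊓ (F.fixingSubgroup ⊓ M.fixingSubgroup)) 𝔓
      (u Q * u Q) := by
    intro 𝔓 h𝔓U
    obtain ⟨h𝔓, h | ⟨h2, h⟩⟩ := hU 𝔓 h𝔓U
    · intro s hs' hsH
      obtain ⟨Z, _, ζ, hζ, hζ'⟩ := h
      apply hsqrt
      apply (hsg s hsH).1
      apply hζ' _ (hβ s ⟨hsH.1, hsH.2.2⟩)
      rw [map_sub, hζ s hs' hsH.2.1, sub_self]
    · have h3 : EvenAt (L ⊔ M ⊔ F) 𝔓 (u Q * u Q) := by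
        rcases h with h | h
        · rw [← hFM] at hT h hcfix hd hN
          have h4 := v4_even L hodd (F ⊔ M) hT 𝔓 h𝔓 h hc0 hcfix hd hN
          rwa [hLFM] at h4
        · exact hEv 𝔓 h
      have h4 := vu_unr (L ⊔ M ⊔ F) h𝔓 h2 hcL h3
      intro s hs' hsH z hz
      exact h4 s hs' ((hsup s).2 hsH) z hz
  have hev : ∀ 𝔓 ∈ E, EvenG (L.fixingSubgroup ⊓ (F.fixingSubgroup ⊓ M.fixingSubgroup)) 𝔓
      (u Q * u Q) := by
    intro 𝔓 h
    rw [← hgrp, v7_evenG_iff]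
    exact hEv 𝔓 (hE 𝔓 h)
  have hpos : ∀ e ∈ P, PosG (L.fixingSubgroup ⊓ (F.fixingSubgroup ⊓ M.fixingSubgroup)) e
      (u Q * u Q) := by
    intro e heP he
    have hLM : ∀ x ∈ (L ⊔ M ⊔ F : IntermediateField K (AlgebraicClosure K)),
        starRingEnd ℂ (e x) = e x := by
      intro x hx
      apply he
      intro s hs'
      exact (IntermediateField.mem_fixingSubgroup_iff _ _).1 ((hsup s).2 hs') x hx
    obtain ⟨s, hs'⟩ := v2s_conj e (fun x => hLM _ (algebraMap_mem _ x))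
    have hsLM : s ∈ (L ⊔ M ⊔ F : IntermediateField K (AlgebraicClosure K)).fixingSubgroup := by
      rw [IntermediateField.mem_fixingSubgroup_iff]
      intro x hx
      apply e.injective
      rw [hs']
      exact hLM x hx
    have hsH := (hsup s).1 hsLM
    have h6 := (hsg s hsH).1 (hP e heP s hsH.2.1 hs' _ (hβ s ⟨hsH.1, hsH.2.2⟩))
    have h7 : starRingEnd ℂ (e (u Q)) = e (u Q) := by
      rw [← hs', h6]
    obtain ⟨y, hy⟩ := Complex.conj_eq_iff_real.1 h7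
    refine ⟨y * y, ?_, ?_⟩
    · have hy0 : y ≠ 0 := by
        intro h
        rw [h] at hy
        exact hu0 Q (e.injective (by rw [hy, map_zero]; rfl))
      exact mul_self_pos.2 hy0
    · rw [map_mul, hy]
      push_cast
      rfl
  have hFrep : ∀ q : (AlgebraicClosure K ≃ₐ[K] AlgebraicClosure K) ⧸ F.fixingSubgroup,
      ∃ g ∈ M.fixingSubgroup,
        (g : (AlgebraicClosure K ≃ₐ[K] AlgebraicClosure K) ⧸ F.fixingSubgroup) = q := by
    intro q
    induction q using QuotientGroup.induction_on with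
    | H s =>
      obtain ⟨t, ht, hts⟩ := hTF s
      exact ⟨t, ht, QuotientGroup.eq.2 hts⟩
  obtain ⟨z, hz, hzu⟩ := hcls (u Q * u Q) ⟨⟨hc0, hcfix, ⟨d, hd, hN⟩, hunr, hpos⟩, hev,
    fun Ω hΩ => by
      obtain ⟨d', h1, h2⟩ := hrel Ω (fun q _ => hFrep q) hΩ
      exact ⟨d', h1, h2⟩⟩
  obtain ⟨y0, x, hy0, hx, hyx⟩ := hfin fun s h1 h2 h3 => by
    rcases mul_self_eq_mul_self_iff.1 hzu with h6 | h6
    · rw [h6]
      exact hz s ⟨h1, h2, h3⟩
    · rw [h6, map_neg, hz s ⟨h1, h2, h3⟩]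
  exact ⟨y0, hy0, x, hx, hyx⟩

end Pool.Agent.H.MP_ac3185_nt
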