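import Pool.Agent.H.MP_ac3185_nt.V7.Quad
import Pool.Agent.H.MP_ac3185_nt.V4.TowerA

/-! The class condition in the fields contained in a Galois `2`-extension of `K`: the induction. -/

set_option autoImplicit false

open NumberField IsDedekindDomain
open scoped Pointwise

namespace Pool.Agent.H.MP_ac3185_nt

universe u

variable {K : Type u} [Field K] [NumberField K] (L F : IntermediateField K (AlgebraicClosure K))
  [FiniteDimensional K L] [FiniteDimensional K F]

/-- Induction over a chain of subgroups from the Galois group to `Gal(Kbar/M)`, each of index `2` in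
the preceding one, as in `v4_tower`. -/
theorem v7_tower
    (Rel : Set (Set ((AlgebraicClosure K ≃ₐ[K] AlgebraicClosure K) ⧸ F.fixingSubgroup)))
    (hRel : StabR Rel) (W : Subgroup (AlgebraicClosure K ≃ₐ[K] AlgebraicClosure K))
    (hW : ∀ w ∈ W, ∀ g : AlgebraicClosure K ≃ₐ[K] AlgebraicClosure K,
      g⁻¹ * w * g ∈ F.fixingSubgroup)
    (hodd : Odd (Module.finrank K L)) (hoddF : Odd (Module.finrank K F)) (hlin : TransOn L W)
    (M E' : IntermediateField K (AlgebraicClosure K)) [FiniteDimensional K M]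
    [FiniteDimensional K E'] [IsGalois K E'] (hME : M ≤ E') (h2 : IsPGroup 2 (E' ≃ₐ[K] E'))
    (U E : Set (Ideal (𝓞 (AlgebraicClosure K)))) (P : Set (AlgebraicClosure K →+* ℂ))
    (hUs : StabU F.fixingSubgroup U) (hEs : StabU F.fixingSubgroup E)
    (hPs : StabP F.fixingSubgroup P)
    (hU : ∀ 𝔓 ∈ U, TransOn L (decompGrp K 𝔓 ⊓ F.fixingSubgroup) ∨
      ∀ s ∈ inertia K 𝔓, s ∈ F.fixingSubgroup → s ∈ M.fixingSubgroup)
    (hE : ∀ 𝔓 ∈ E, FinPrime 𝔓 ∧ ∀ s ∈ inertia K 𝔓, s ∈ F.fixingSubgroup → s ∈ M.fixingSubgroup)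
    (hP : ∀ e ∈ P, ∀ s ∈ F.fixingSubgroup, (∀ z, e (s z) = starRingEnd ℂ (e z)) →
      s ∈ M.fixingSubgroup)
    (h : TrivF L F Rel ⊤ U E P) :
    TransOn F M.fixingSubgroup ∧ TransOn L (W ⊓ M.fixingSubgroup) ∧
      (∀ 𝔓, TransOn L (decompGrp K 𝔓 ⊓ F.fixingSubgroup) →
        TransOn L (decompGrp K 𝔓 ⊓ (F.fixingSubgroup ⊓ M.fixingSubgroup))) ∧
      TrivF L F Rel M.fixingSubgroup U E P := by
  have hker : (AlgEquiv.restrictNormalHom (F := K) (K₁ := AlgebraicClosure K) E').ker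
      = E'.fixingSubgroup := E'.restrictNormalHom_ker
  have hnormal : E'.fixingSubgroup.Normal := hker ▸ MonoidHom.normal_ker _
  have hle : E'.fixingSubgroup ≤ M.fixingSubgroup :=
    IntermediateField.fixingSubgroup_antitone hME
  obtain ⟨k, hk⟩ := IsPGroup.iff_card.1 h2
  have htop : E'.fixingSubgroup.relIndex ⊤ = 2 ^ k := by
    rw [Subgroup.relIndex_top_right, ← hker, Subgroup.index_ker,
      MonoidHom.range_eq_top.2 (AlgEquiv.restrictNormalHom_surjective (AlgebraicClosure K)),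
      Subgroup.card_top, hk]
  have hmul := Subgroup.relIndex_mul_relIndex E'.fixingSubgroup M.fixingSubgroup ⊤ hle le_top
  obtain ⟨n, hnk, hn⟩ := (Nat.dvd_prime_pow Nat.prime_two).1
    (htop ▸ Dvd.intro _ hmul : E'.fixingSubgroup.relIndex M.fixingSubgroup ∣ 2 ^ k)
  have key : ∀ (j : ℕ) (G : Subgroup (AlgebraicClosure K ≃ₐ[K] AlgebraicClosure K)),
      M.fixingSubgroup ≤ G → E'.fixingSubgroup.relIndex G = 2 ^ (n + j) → TransOn F G →
      TransOn L (W ⊓ G) →
      (∀ 𝔓, TransOn L (decompGrp K 𝔓 ⊓ F.fixingSubgroup) →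
        TransOn L (decompGrp K 𝔓 ⊓ (F.fixingSubgroup ⊓ G))) →
      TrivF L F Rel G U E P →
      TransOn F M.fixingSubgroup ∧ TransOn L (W ⊓ M.fixingSubgroup) ∧
        (∀ 𝔓, TransOn L (decompGrp K 𝔓 ⊓ F.fixingSubgroup) →
          TransOn L (decompGrp K 𝔓 ⊓ (F.fixingSubgroup ⊓ M.fixingSubgroup))) ∧
        TrivF L F Rel M.fixingSubgroup U E P := by
    intro j
    induction j with
    | zero =>
      intro G hMG hj hTF hT hTd hS
      have h1 := Subgroup.relIndex_mul_relIndex E'.fixingSubgroup M.fixingSubgroup G hle hMG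
      rw [hn, hj, add_zero] at h1
      have h3 : M.fixingSubgroup.relIndex G = 1 :=
        Nat.eq_of_mul_eq_mul_left (pow_pos (by norm_num : 0 < 2) n) (by rw [h1, mul_one])
      have hG : G = M.fixingSubgroup := le_antisymm (Subgroup.relIndex_eq_one.1 h3) hMG
      subst hG
      exact ⟨hTF, hT, hTd, hS⟩
    | succ j ih =>
      intro G hMG hj hTF hT hTd hS
      obtain ⟨G', hMG', hG', hj', hi⟩ := TowerA_group E'.fixingSubgroup M.fixingSubgroup G hle hMG
        hn (k := n + j) (by rw [hj]; rfl) (Nat.le_add_right n j)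
      have hi2 : IndexTwo G' G := hi
      refine ih G' hMG' hj' ?_ ?_ ?_ ?_
      · have := v4_trans F hoddF G G' hTF hi2
        rwa [inf_eq_right.2 hG'] at this
      · have h3 : IndexTwo G' (W ⊓ G) := fun s hs t ht => hi2 s hs.2 t ht.2
        have := v4_trans L hodd (W ⊓ G) G' hT h3
        rwa [inf_assoc, inf_eq_right.2 hG'] at this
      · intro 𝔓 h𝔓
        have h3 : IndexTwo G' (decompGrp K 𝔓 ⊓ (F.fixingSubgroup ⊓ G)) :=
          fun s hs t ht => hi2 s hs.2.2 t ht.2.2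
        have := v4_trans L hodd (decompGrp K 𝔓 ⊓ (F.fixingSubgroup ⊓ G)) G' (hTd 𝔓 h𝔓) h3
        rwa [inf_assoc, inf_assoc, inf_eq_right.2 hG'] at this
      · refine v7_quad L F Rel hRel W hW hodd hoddF G' G hG' hi2 M hMG' hT hTF U E P hUs hEs hPs
          ?_ ?_ ?_ hS
        · intro 𝔓 h𝔓
          rcases hU 𝔓 h𝔓 with h4 | h4
          · exact Or.inl (hTd 𝔓 h4)
          · exact Or.inr fun s hs hsF => hMG' (h4 s hs hsF.1)
        · exact fun 𝔓 h𝔓 => ⟨(hE 𝔓 h𝔓).1, fun s hs hsF => hMG' ((hE 𝔓 h𝔓).2 s hs hsF.1)⟩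
        · exact fun e he s hsF hs => hMG' (hP e he s hsF.1 hs)
  refine key (k - n) ⊤ le_top ?_ (fun s => ⟨s, Subgroup.mem_top s, by simp⟩) ?_
    (fun 𝔓 h𝔓 => ?_) h
  · rw [htop, Nat.add_sub_cancel' hnk]
  · rwa [inf_top_eq]
  · rwa [inf_top_eq]

end Pool.Agent.H.MP_ac3185_nt
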