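import Pool.Agent.H.MP_ac3185_nt.V7.Base
import Pool.Agent.H.MP_ac3185_nt.V7.Tower
import Pool.Agent.H.MP_ac3185_nt.V7.Step
import Pool.Agent.H.MP_ac3185_nt.V7.Sign
import Pool.Agent.H.MP_ac3185_nt.V7.Prime
import Pool.Agent.H.MP_ac3185_nt.V4.TowerT
import Pool.Agent.H.MP_ac3185_nt.V4.Inf
import Pool.Agent.H.MP_ac3185_nt.V4.Rank
import Pool.Agent.H.MP_ac3185_nt.V2.Count
import Pool.Agent.H.MP_ac3185_nt.V8.Div
import Pool.Agent.H.MP_ac3185_nt.W.DivPts

/-! Rank stability in towers. -/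

set_option autoImplicit false

open CategoryTheory AlgebraicGeometry NumberField IsDedekindDomain
open scoped MonObj

namespace Pool.Agent.H.MP_ac3185_nt

universe u

/-- The group of the automorphisms which act trivially on `N' / N`. -/
noncomputable def trivGrp {K : Type u} [Field K] {A : Over (Spec (.of K))} [GrpObj A] [IsAbVar A]
    (N N' : AddSubgroup (Pts A (AlgebraicClosure K))) (h : ∀ s, ∀ x ∈ N, act A s x ∈ N)
    (h' : ∀ s, ∀ x ∈ N', act A s x ∈ N') :
    Subgroup (AlgebraicClosure K ≃ₐ[K] AlgebraicClosure K) where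
  carrier := {s | ∀ x ∈ N', act A s x - x ∈ N}
  one_mem' := by
    intro x _
    rw [v2s_act_one, sub_self]
    exact N.zero_mem
  mul_mem' := by
    intro s t hs ht x hx
    rw [v2s_act_mul]
    have h1 := hs _ (h' t x hx)
    have h2 := ht x hx
    have h3 := N.add_mem h1 h2
    rwa [sub_add_sub_cancel] at h3
  inv_mem' := by
    intro s hs x hx
    have h1 := hs _ (h' s⁻¹ x hx)
    rw [← v2s_act_mul, mul_inv_cancel, v2s_act_one] at h1
    have h2 := N.neg_mem h1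
    rwa [neg_sub] at h2

/-- The set of relations is stable under the Galois group. -/
theorem v7_stab_rel {K : Type u} [Field K] (F : IntermediateField K (AlgebraicClosure K))
    {A : Over (Spec (.of K))} [GrpObj A] [IsAbVar A]
    (N' H : AddSubgroup (Pts A (AlgebraicClosure K)))
    (h' : ∀ s, ∀ x ∈ N', act A s x ∈ N') : StabR (relSets F N' H) := by
  intro g Ω hΩ x hx
  have h3 := hΩ _ (h' g x hx)
  have h4 : (fun q : (AlgebraicClosure K ≃ₐ[K] AlgebraicClosure K) ⧸ F.fixingSubgroup => g • q) ''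
      ({q | g • q ∈ Ω} ∩ shadow F H x) = Ω ∩ shadow F H (act A g x) := by
    ext q
    constructor
    · rintro ⟨q', ⟨h5, h, h6, h7⟩, rfl⟩
      refine ⟨h5, g * h, ?_, ?_⟩
      · rw [← h6]
        rfl
      · rwa [← v2s_act_mul, mul_inv_rev, inv_mul_cancel_right]
    · rintro ⟨h5, h, h6, h7⟩
      refine ⟨g⁻¹ • q, ⟨?_, g⁻¹ * h, ?_, ?_⟩, smul_inv_smul g q⟩
      · show g • g⁻¹ • q ∈ Ω
        rwa [smul_inv_smul]
      · rw [← h6]
        rfl
      · rw [← v2s_act_mul] at h7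
        rwa [mul_inv_rev, inv_inv]
  rw [← h4, Set.ncard_image_of_injective _ (MulAction.injective g)] at h3
  exact h3

/-- One step. -/
theorem v7_layer {K : Type u} [Field K] [NumberField K]
    (L : IntermediateField K (AlgebraicClosure K)) [FiniteDimensional K L]
    (hodd : Odd (Module.finrank K L))
    (M E : IntermediateField K (AlgebraicClosure K)) [FiniteDimensional K M]
    [FiniteDimensional K E] [IsGalois K E] (hME : M ≤ E) (h2 : IsPGroup 2 (E ≃ₐ[K] E))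
    (F : IntermediateField K (AlgebraicClosure K)) [FiniteDimensional K F]
    (T : Set (HeightOneSpectrum (𝓞 F))) (R : Set (F →+* ℂ))
    {A : Over (Spec (.of K))} [GrpObj A] [IsAbVar A]
    (N N' H : AddSubgroup (Pts A (AlgebraicClosure K))) (hf : PureLayer L M F T R N N' H) :
    ∀ x ∈ ratPts A (L.fixingSubgroup ⊓ M.fixingSubgroup) N',
      ∃ y ∈ ratPts A M.fixingSubgroup N', ∃ z ∈ ratPts A (L.fixingSubgroup ⊓ M.fixingSubgroup) N,
        x = y + z := by
  have hconj : ∀ w ∈ trivGrp N N' hf.stabN hf.stabN',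
      ∀ g : AlgebraicClosure K ≃ₐ[K] AlgebraicClosure K, g⁻¹ * w * g ∈ F.fixingSubgroup := by
    intro w hw g
    refine hf.sub _ fun x hx => ?_
    have h1 := hf.stabN g⁻¹ _ (hw _ (hf.stabN' g x hx))
    have h3 : act A (g⁻¹ * w * g) x = act A g⁻¹ (act A w (act A g x)) := by
      rw [← v2s_act_mul, ← v2s_act_mul, mul_assoc]
    have h4 : act A g⁻¹ (act A g x) = x := by
      rw [← v2s_act_mul, inv_mul_cancel, v2s_act_one]
    rwa [v2s_act_sub, h4, ← h3] at h1
  have hlin : TransOn L (trivGrp N N' hf.stabN hf.stabN') := by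
    intro s
    obtain ⟨t, ht, hw⟩ := hf.lin s⁻¹
    have hw' : t⁻¹ * s⁻¹ ∈ trivGrp N N' hf.stabN hf.stabN' := hw
    refine ⟨(t⁻¹ * s⁻¹)⁻¹, inv_mem hw', ?_⟩
    have h3 : ((t⁻¹ * s⁻¹)⁻¹)⁻¹ * s = t⁻¹ := by group
    rw [h3]
    exact inv_mem ht
  have hlinF : TransOn L F.fixingSubgroup := by
    intro s
    obtain ⟨t, ht, hts⟩ := hlin s
    refine ⟨t, ?_, hts⟩
    have h3 := hconj t ht 1
    rwa [inv_one, one_mul, mul_one] at h3
  have hRel : StabR (relSets F N' H) := v7_stab_rel F N' H hf.stabN'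
  obtain ⟨hTF, hT, hone, htriv⟩ := v7_tower L F (relSets F N' H) hRel _ hconj hodd hf.deg hlin
    M E hME h2 (unrF F T) (evenF L F T) (posF L F R) (v7_stab_unr F T) (v7_stab_even L F T)
    (v7_stab_pos L F R)
    (by
      rintro 𝔓 ⟨v, hv, -⟩
      rcases hf.unr v with h3 | h3
      · exact Or.inl (h3 𝔓 hv)
      · exact Or.inr (h3 𝔓 hv))
    (by
      rintro 𝔓 ⟨v, hv, -, -, h3⟩
      exact ⟨v7_fin F hv, (hf.unr v).resolve_left h3 𝔓 hv⟩)
    (fun e he s hs hse => (hf.inf e s he.1 hs hse).resolve_left he.2)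
    (v7_base L F _ hodd hlinF T R hf.cls)
  refine v7_step L F hodd M hTF N N' H hf.toModFrame ?_ _ _ _ htriv ?_ ?_ ?_
  · intro s
    obtain ⟨t, ⟨htW, htM⟩, hts⟩ := hT s
    exact ⟨t, htM, htW, hts⟩
  · rintro 𝔓 ⟨v, hv, hv'⟩
    refine ⟨v7_fin F hv, ?_⟩
    rcases hv' with hv' | hv'
    · have h2' : 2 ∉ 𝔓 := v7_two F hv hv'
      rcases hf.away v hv' with h4 | h4 | h4
      · exact Or.inr ⟨h2', Or.inl (hone 𝔓 (h4 𝔓 hv))⟩
      · exact Or.inl (h4 𝔓 hv)
      · exact Or.inr ⟨h2', Or.inr (h4 𝔓 hv)⟩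
    · exact Or.inl (hf.etale v hv' 𝔓 hv)
  · rintro 𝔓 ⟨v, hv, h3, h4, h5⟩
    exact (hf.two v h4 h3).resolve_left h5 𝔓 hv
  · exact fun e he s hs hse => hf.real e s he.1 hs hse

/-- The decomposition for a chain. -/
theorem v7_chain {K : Type u} [Field K] [NumberField K]
    (L : IntermediateField K (AlgebraicClosure K)) [FiniteDimensional K L]
    (hodd : Odd (Module.finrank K L))
    (M E : IntermediateField K (AlgebraicClosure K)) [FiniteDimensional K M]
    [FiniteDimensional K E] [IsGalois K E] (hME : M ≤ E) (h2 : IsPGroup 2 (E ≃ₐ[K] E))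
    (A : Over (Spec (.of K))) [GrpObj A] [IsAbVar A]
    (N : AddSubgroup (Pts A (AlgebraicClosure K))) (hh : LayerChain L M A N) :
    ∀ x ∈ ratPts A (L.fixingSubgroup ⊓ M.fixingSubgroup) N,
      ∃ y ∈ ratPts A M.fixingSubgroup N, ∃ z ∈ ratPts A (L.fixingSubgroup ⊓ M.fixingSubgroup) ⊥,
        x = y + z := by
  induction hh with
  | zero =>
    intro x hx
    exact ⟨0, zero_mem _, x, hx, (zero_add x).symm⟩
  | step N N' H F T R _ hf ih =>
    intro x hx
    obtain ⟨y, hy, z, hz, rfl⟩ := v7_layer L hodd M E hME h2 F T R N N' H hf x hx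
    obtain ⟨y', hy', z', hz', rfl⟩ := ih z hz
    refine ⟨y + y', add_mem hy ?_, z', hz', (add_assoc y y' z').symm⟩
    exact fun s hs => hf.le' (hf.le (hy' s hs))

/-- Rank stability over all extensions `M` of `K` which are contained in a Galois `2`-extension of
`K` and satisfy the conditions in `LayerChain`. -/
theorem v7_main {K : Type u} [Field K] [NumberField K]
    (L : IntermediateField K (AlgebraicClosure K)) [FiniteDimensional K L]
    (hodd : Odd (Module.finrank K L))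
    (M E : IntermediateField K (AlgebraicClosure K)) [FiniteDimensional K M]
    [FiniteDimensional K E] [IsGalois K E] (hME : M ≤ E) (h2 : IsPGroup 2 (E ≃ₐ[K] E))
    (A : Over (Spec (.of K))) [GrpObj A] [IsAbVar A]
    (m : ℕ) (hm : 0 < m) (N : AddSubgroup (Pts A (AlgebraicClosure K)))
    (hN : ∀ x, x ∈ N ↔ (2 ^ m : ℕ) • x = 0) (hh : LayerChain L M A N) :
    (∀ x : Pts A (L ⊔ M : IntermediateField K (AlgebraicClosure K)), ∃ n : ℕ, Odd n ∧
      n • x ∈ (ptsa_j A (le_sup_right : M ≤ L ⊔ M)).range) ∧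
    Module.rank ℤ (Pts A (L ⊔ M : IntermediateField K (AlgebraicClosure K))) =
      Module.rank ℤ (Pts A M) ∧
    rk A (L ⊔ M) = rk A M ∧
    ∀ g : ℕ, topologicalKrullDim A.left = g → ∀ W : LocalSigns K, IsRootNumbers A W →
      (∀ v : HeightOneSpectrum (𝓞 K), (∀ 𝔓, Above 𝔓 v → GoodAt A 𝔓) ∨
        (OneAbove L v ∧
          (UnramifiedIn (L ⊔ M) v ∨ ∀ 𝔓, Above 𝔓 v → SemistableOver A ⊥ 𝔓)) ∨
        (M ≠ ⊥ ∧ (UnramifiedIn (L ⊔ M) v ∨
          ((∀ 𝔓, Above 𝔓 v → SemistableOver A ⊥ 𝔓) ∧ OddRam L v ∧ UnramifiedIn M v)))) →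
        signOver W g (L ⊔ M) = (-1) ^ (g * (Nat.card (InfinitePlace
          (L ⊔ M : IntermediateField K (AlgebraicClosure K))) + Nat.card (InfinitePlace M))) *
            signOver W g M ∧
        (TotReal L ∨ M ≠ ⊥ → signOver W g (L ⊔ M) = signOver W g M ∧
          ((-1) ^ rk A (L ⊔ M) = signOver W g (L ⊔ M) ↔ (-1) ^ rk A M = signOver W g M)) := by
  obtain ⟨hT, hone⟩ := v4_tower_trans L hodd M E hME h2
  have heven : M ≠ ⊥ → Even (Module.finrank K M) := fun h7 => by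
    obtain ⟨k, hk⟩ := IsPGroup.iff_card.1 h2
    rw [IsGalois.card_aut_eq_finrank] at hk
    have h8 : Module.finrank K M ∣ Module.finrank K E :=
      IntermediateField.finrank_dvd_of_le_right hME
    rw [hk] at h8
    obtain ⟨j, -, hj⟩ := (Nat.dvd_prime_pow Nat.prime_two).1 h8
    rw [hj]
    rcases j with _ | j
    · exact absurd (IntermediateField.finrank_eq_one_iff.1 (by rw [hj, pow_zero])) h7
    · exact (even_two).pow_of_ne_zero (Nat.succ_ne_zero j)
  obtain ⟨r1, r2, r3⟩ : (∀ x : Pts A (L ⊔ M : IntermediateField K (AlgebraicClosure K)),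
      ∃ n : ℕ, Odd n ∧ n • x ∈ (ptsa_j A (le_sup_right : M ≤ L ⊔ M)).range) ∧
      Module.rank ℤ (Pts A (L ⊔ M : IntermediateField K (AlgebraicClosure K))) =
        Module.rank ℤ (Pts A M) ∧ rk A (L ⊔ M) = rk A M := by
    refine v4_rank L M hodd hT A m hm (mulMor A (2 ^ m)) (v8_mulMor A _) fun y hy => ?_
    obtain ⟨b, rfl⟩ := gc_div A (2 ^ m) (pow_ne_zero m two_ne_zero) y
    have h3 : ∀ (S : Subgroup (AlgebraicClosure K ≃ₐ[K] AlgebraicClosure K))
        (x : Pts A (AlgebraicClosure K)), x ∈ ratPts A S N ↔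
          ∀ s ∈ S, act A s ((2 ^ m : ℕ) • x) = (2 ^ m : ℕ) • x := by
      intro S x
      rw [mem_ratPts]
      refine forall₂_congr fun s _ => ?_
      rw [hN, smul_sub, v8_act_smul, sub_eq_zero]
    obtain ⟨y1, h4, z, h5, rfl⟩ := v7_chain L hodd M E hME h2 A N hh b
      ((h3 _ b).2 fun s hs => hy s hs.1 hs.2)
    refine ⟨(2 ^ m : ℕ) • y1, z, (h3 _ y1).1 h4, fun s hs hs' =>
      mem_ratPts_bot.1 h5 s ⟨hs, hs'⟩, ?_⟩
    rw [v8_mulMor, smul_add]
  refine ⟨r1, r2, r3, fun g _ W hW hA => ?_⟩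
  have h5 : signOver W g (L ⊔ M) = (-1) ^ (g * (Nat.card (InfinitePlace
      (L ⊔ M : IntermediateField K (AlgebraicClosure K))) + Nat.card (InfinitePlace M))) *
        signOver W g M := by
    by_cases hM : M = ⊥
    · refine v4_sign_gen L hodd M A W hW (fun 𝔓 h𝔓 => ?_) g
      obtain ⟨v, hv⟩ := v2c_above 𝔓 h𝔓
      rcases hA v with h6 | ⟨h6, h7⟩ | ⟨h6, -⟩
      · exact Or.inl (h6 𝔓 hv)
      · refine Or.inr ⟨hone 𝔓 (h6 𝔓 hv), ?_⟩
        rcases h7 with h7 | h7
        · exact Or.inl (h7 𝔓 hv)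
        · exact Or.inr (h7 𝔓 hv)
      · exact absurd hM h6
    · refine v7_sign L hodd M hT (heven hM) A W hW (fun v => ?_) g
      rcases hA v with h6 | ⟨h6, h7⟩ | ⟨-, h6⟩
      · exact Or.inl h6
      · rcases h7 with h7 | h7
        · exact Or.inr (Or.inl h7)
        · exact Or.inr (Or.inr ⟨h7, Or.inr fun 𝔓 hv => hone 𝔓 (h6 𝔓 hv)⟩)
      · rcases h6 with h6 | h6
        · exact Or.inr (Or.inl h6)
        · exact Or.inr (Or.inr ⟨h6.1, Or.inl h6.2⟩)
  refine ⟨h5, fun he => ?_⟩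
  have h6 := v4r_even L M hodd hT g (he.imp_right heven)
  rw [h6.neg_one_pow, one_mul] at h5
  exact ⟨h5, by rw [r3, h5]⟩

end Pool.Agent.H.MP_ac3185_nt
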