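import Pool.Agent.H.MP_ac3185_nt.V7.Even
import Pool.Agent.H.MP_ac3185_nt.V7.Rel
import Pool.Agent.H.MP_ac3185_nt.V4.Quad

/-! The class condition in a quadratic extension. -/

set_option autoImplicit false

open NumberField IsDedekindDomain
open scoped Pointwise

namespace Pool.Agent.H.MP_ac3185_nt

universe u

section even

variable {K : Type u} [Field K]
  {S : Subgroup (AlgebraicClosure K ≃ₐ[K] AlgebraicClosure K)}
  {𝔓 : Ideal (𝓞 (AlgebraicClosure K))}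

theorem v7q_even_sq {a c : AlgebraicClosure K} (ha : EvenG S 𝔓 a) (hc : FixG S c)
    (hc0 : c ≠ 0) : EvenG S 𝔓 (a * (c * c)) := by
  obtain ⟨b, hb, hb0, x, y, hx, hy, h⟩ := ha
  refine ⟨b * c, v4q_fix_mul hb hc, mul_ne_zero hb0 hc0, x, y, hx, hy, ?_⟩
  linear_combination (c * c) * h

theorem v7q_even_mul (hP : 𝔓.IsPrime) {a c : AlgebraicClosure K} (ha : EvenG S 𝔓 a)
    (hc : EvenG S 𝔓 c) : EvenG S 𝔓 (a * c) := by
  obtain ⟨b, hb, hb0, x, y, hx, hy, h⟩ := ha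
  obtain ⟨b', hb', hb0', x', y', hx', hy', h'⟩ := hc
  refine ⟨b * b', v4q_fix_mul hb hb', mul_ne_zero hb0 hb0', x * x', y * y',
    fun h3 => (hP.mem_or_mem h3).elim hx hx', fun h3 => (hP.mem_or_mem h3).elim hy hy', ?_⟩
  push_cast
  linear_combination (c * (y' : AlgebraicClosure K)) * h + (b * b * x) * h'

/-- Transport of evenness by `σ`. -/
theorem v7q_even_gal {σ : AlgebraicClosure K ≃ₐ[K] AlgebraicClosure K}
    (hσ : ∀ s ∈ S, σ⁻¹ * s * σ ∈ S) {a : AlgebraicClosure K} (ha : EvenG S (σ⁻¹ • 𝔓) a) :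
    EvenG S 𝔓 (σ a) := by
  obtain ⟨b, hb, hb0, x, y, hx, hy, h⟩ := ha
  have hmem : ∀ z : 𝓞 (AlgebraicClosure K), z ∉ σ⁻¹ • 𝔓 → galInt σ z ∉ 𝔓 := by
    intro z hz h3
    apply hz
    have h4 := (pla_mem 𝔓 σ⁻¹ (galInt σ z)).2 h3
    rwa [pla_inv] at h4
  refine ⟨σ b, v4q_fix_gal S hσ hb, by rwa [Ne, map_eq_zero], galInt σ x, galInt σ y,
    hmem x hx, hmem y hy, ?_⟩
  have h5 := congrArg σ h
  rw [map_mul, map_mul, map_mul] at h5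
  exact h5

end even

variable {K : Type u} [Field K] [NumberField K] (L F : IntermediateField K (AlgebraicClosure K))
  [FiniteDimensional K L] [FiniteDimensional K F]

/-- The class condition goes up in a quadratic extension. `W` is the group of the automorphisms which
act trivially on `N' / N`. -/
theorem v7_quad
    (Rel : Set (Set ((AlgebraicClosure K ≃ₐ[K] AlgebraicClosure K) ⧸ F.fixingSubgroup)))
    (hRel : StabR Rel) (W : Subgroup (AlgebraicClosure K ≃ₐ[K] AlgebraicClosure K))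
    (hW : ∀ w ∈ W, ∀ g : AlgebraicClosure K ≃ₐ[K] AlgebraicClosure K,
      g⁻¹ * w * g ∈ F.fixingSubgroup)
    (hodd : Odd (Module.finrank K L)) (hoddF : Odd (Module.finrank K F))
    (G' G : Subgroup (AlgebraicClosure K ≃ₐ[K] AlgebraicClosure K)) (hle : G' ≤ G)
    (h2 : IndexTwo G' G) (M : IntermediateField K (AlgebraicClosure K)) [FiniteDimensional K M]
    (hM : M.fixingSubgroup ≤ G') (hT : TransOn L (W ⊓ G)) (hTF : TransOn F G)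
    (U E : Set (Ideal (𝓞 (AlgebraicClosure K)))) (P : Set (AlgebraicClosure K →+* ℂ))
    (hUs : StabU F.fixingSubgroup U) (hEs : StabU F.fixingSubgroup E)
    (hPs : StabP F.fixingSubgroup P)
    (hU : ∀ 𝔓 ∈ U, TransOn L (decompGrp K 𝔓 ⊓ (F.fixingSubgroup ⊓ G)) ∨
      ∀ s ∈ inertia K 𝔓, s ∈ F.fixingSubgroup ⊓ G → s ∈ G')
    (hE : ∀ 𝔓 ∈ E, FinPrime 𝔓 ∧ ∀ s ∈ inertia K 𝔓, s ∈ F.fixingSubgroup ⊓ G → s ∈ G')
    (hP : ∀ e ∈ P, ∀ s ∈ F.fixingSubgroup ⊓ G, (∀ z, e (s z) = starRingEnd ℂ (e z)) → s ∈ G')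
    (h : TrivF L F Rel G U E P) : TrivF L F Rel G' U E P := by
  by_cases hne : ∃ s ∈ G, s ∉ G'
  swap
  · push Not at hne
    have hGG : G' = G := le_antisymm hle hne
    rw [hGG]
    exact h
  have hWF : W ≤ F.fixingSubgroup := by
    intro w hw
    have h3 := hW w hw 1
    rwa [inv_one, one_mul, mul_one] at h3
  -- the groups for `FM` and `FM'`
  obtain ⟨Γ, hΓ⟩ : ∃ Γ, Γ = F.fixingSubgroup ⊓ G := ⟨_, rfl⟩
  obtain ⟨Γ', hΓ'⟩ : ∃ Γ', Γ' = F.fixingSubgroup ⊓ G' := ⟨_, rfl⟩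
  have hleΓ : Γ' ≤ Γ := by
    rw [hΓ, hΓ']
    exact inf_le_inf_left _ hle
  have h2Γ' : IndexTwo G' Γ := by
    rw [hΓ]
    exact fun s hs t ht => h2 s hs.2 t ht.2
  have h2Γ : IndexTwo Γ' Γ := by
    rw [hΓ, hΓ']
    intro s hs t ht hs' ht'
    exact ⟨F.fixingSubgroup.mul_mem hs.1 ht.1, h2 s hs.2 t ht.2 (fun h3 => hs' ⟨hs.1, h3⟩)
      fun h3 => ht' ⟨ht.1, h3⟩⟩
  have hTΓ : TransOn L Γ := fun s => by
    obtain ⟨t, ht, h3⟩ := hT s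
    rw [hΓ]
    exact ⟨t, ⟨hWF ht.1, ht.2⟩, h3⟩
  have hTW : TransOn L (W ⊓ G') := by
    have h3 := v4_trans L hodd (W ⊓ G) G' hT fun s hs t ht => h2 s hs.2 t ht.2
    rwa [inf_assoc, inf_eq_right.2 hle] at h3
  have hTF' : TransOn F G' := by
    have h3 := v4_trans F hoddF G G' hTF h2
    rwa [inf_eq_right.2 hle] at h3
  obtain ⟨σ, hσL, hσΓ, hσG'⟩ := v4_sigma L hodd Γ G' hTΓ h2Γ' (by
    obtain ⟨σ, h3, h4, h5⟩ := v4_sigma F hoddF G G' hTF h2 hne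
    rw [hΓ]
    exact ⟨σ, ⟨h3, h4⟩, h5⟩)
  have hσF : σ ∈ F.fixingSubgroup := by
    rw [hΓ] at hσΓ
    exact hσΓ.1
  have hσG : σ ∈ G := by
    rw [hΓ] at hσΓ
    exact hσΓ.2
  have hσΓ' : σ ∉ Γ' := by
    rw [hΓ']
    exact fun h3 => hσG' h3.2
  have hTΓ' : TransOn L Γ' := by
    have h3 := v4_trans L hodd Γ G' hTΓ h2Γ'
    rw [hΓ, inf_assoc, inf_eq_right.2 hle] at h3
    rwa [hΓ']
  have hfdFM : FiniteDimensional K (F ⊔ M : IntermediateField K (AlgebraicClosure K)) :=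
    IntermediateField.finiteDimensional_sup F M
  have hfdLFM : FiniteDimensional K (L ⊔ (F ⊔ M) : IntermediateField K (AlgebraicClosure K)) :=
    IntermediateField.finiteDimensional_sup L (F ⊔ M)
  have hFM : (F ⊔ M : IntermediateField K (AlgebraicClosure K)).fixingSubgroup ≤ Γ' := by
    rw [IntermediateField.fixingSubgroup_sup, hΓ']
    exact inf_le_inf_left _ hM
  have hLFM : (L ⊔ (F ⊔ M) : IntermediateField K (AlgebraicClosure K)).fixingSubgroup ≤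
      L.fixingSubgroup ⊓ Γ' := by
    rw [IntermediateField.fixingSubgroup_sup]
    exact inf_le_inf_left _ hFM
  set Λ := L.fixingSubgroup with hΛ
  have hS : ∀ s ∈ Λ ⊓ Γ', σ⁻¹ * s * σ ∈ Λ ⊓ Γ' := fun s hs =>
    ⟨Λ.mul_mem (Λ.mul_mem (Λ.inv_mem hσL) hs.1) hσL, v4q_conj' hleΓ h2Γ hσΓ hs.2⟩
  have hSG : ∀ s ∈ Γ', σ⁻¹ * s * σ ∈ Γ' := fun s hs => v4q_conj' hleΓ h2Γ hσΓ hs
  have hσσ : ∀ x, FixG (Λ ⊓ Γ') x → σ (σ x) = x := fun x hx =>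
    hx (σ * σ) ⟨mul_mem hσL hσL, v4q_sq h2Γ hσΓ⟩
  have hσσ' : ∀ x, FixG Γ' x → σ (σ x) = x := fun x hx => hx (σ * σ) (v4q_sq h2Γ hσΓ)
  have hlow : ∀ x, FixG Γ' x → FixG (Λ ⊓ Γ') x := fun x hx => v4q_fix_mono inf_le_right hx
  -- the groups for `LM` and `LM'`
  have hTFL : TransOn F (Λ ⊓ G) := v7r_swap L F (by rw [hΓ] at hTΓ; exact hTΓ) hTF
  have hTFL' : TransOn F (Λ ⊓ G') := v7r_swap L F (by rw [hΓ'] at hTΓ'; exact hTΓ') hTF'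
  -- the local conditions over `N'` and over `N`
  have hup : ∀ c d : AlgebraicClosure K, c ≠ 0 → FixG (Λ ⊓ Γ) c → FixG Γ d →
      normG L Γ c = d * d → (∀ 𝔓 ∈ U, UnrG (Λ ⊓ Γ') 𝔓 c) → ∀ 𝔓 ∈ U, UnrG (Λ ⊓ Γ) 𝔓 c := by
    intro c d hc0 hc hd hN hUc 𝔓 h𝔓
    rcases hU 𝔓 h𝔓 with h3 | h3
    · rw [← hΓ] at h3
      exact v4_local L hodd Γ' Γ hleΓ h2Γ (F ⊔ M) hFM hTΓ 𝔓 h3 hc0 hc hd hN (hUc 𝔓 h𝔓)
    · intro s hs hsG z hz
      have h4 : s ∈ F.fixingSubgroup ⊓ G := by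
        rw [← hΓ]
        exact hsG.2
      refine hUc 𝔓 h𝔓 s hs ⟨hsG.1, ?_⟩ z hz
      rw [hΓ']
      exact ⟨h4.1, h3 s hs h4⟩
  have hupE : ∀ c : AlgebraicClosure K, FixG (Λ ⊓ Γ) c →
      (∀ 𝔓 ∈ E, EvenG (Λ ⊓ Γ') 𝔓 c) → ∀ 𝔓 ∈ E, EvenG (Λ ⊓ Γ) 𝔓 c := by
    intro c hc hc' 𝔓 h𝔓
    obtain ⟨h3, h4⟩ := hE 𝔓 h𝔓
    refine v7_even_down (Λ ⊓ Γ') (Λ ⊓ Γ) (inf_le_inf_left _ hleΓ) ?_ (L ⊔ (F ⊔ M)) hLFM h3 ?_ hc
      (hc' 𝔓 h𝔓)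
    · intro s hs t ht hs' ht'
      exact ⟨Λ.mul_mem hs.1 ht.1, h2Γ s hs.2 t ht.2 (fun h5 => hs' ⟨hs.1, h5⟩)
        fun h5 => ht' ⟨ht.1, h5⟩⟩
    · intro s hs hs'
      have h5 : s ∈ F.fixingSubgroup ⊓ G := by
        rw [← hΓ]
        exact hs'.2
      refine ⟨hs'.1, ?_⟩
      rw [hΓ']
      exact ⟨h5.1, h4 s hs h5⟩
  rintro a ⟨⟨ha0, ha, ⟨d', hd', hN'⟩, hUa, hPa⟩, hEa, hRa⟩
  rw [← hΓ'] at ha hd' hN' hUa hPa hEa
  rw [← hΓ']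
  obtain ⟨r, hr⟩ := IsAlgClosed.exists_pow_nat_eq a (n := 2) two_pos
  have hr : r * r = a := by rw [← hr, sq]
  have hr0 : r ≠ 0 := by
    rintro rfl
    exact ha0 (by rw [← hr, mul_zero])
  have hσa0 : σ a ≠ 0 := by
    rw [map_ne_zero]
    exact ha0
  have hrfix : ∀ 𝔓 ∈ U, ∀ s ∈ inertia K 𝔓, s ∈ Λ ⊓ Γ' → s r = r := fun 𝔓 h𝔓 s hs hs' =>
    hUa 𝔓 h𝔓 s hs hs' r hr
  have hd'0 : d' ≠ 0 := by
    rintro rfl
    exact v4_norm_ne L Γ' ha0 (by rw [hN', mul_zero])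
  -- first step: `a σ(a)`
  have hσa : FixG (Λ ⊓ Γ') (σ a) := v4q_fix_gal _ hS ha
  have ha1 : FixG (Λ ⊓ Γ) (a * σ a) := by
    refine v4q_fix_up h2Γ Λ hσL hσΓ hσΓ' (v4q_fix_mul ha hσa) ?_
    rw [map_mul, hσσ a ha, mul_comm]
  have hd1 : FixG Γ (d' * σ d') := by
    refine v4q_fix_up' h2Γ hσΓ hσΓ' (v4q_fix_mul hd' (v4q_fix_gal _ hSG hd')) ?_
    rw [map_mul, hσσ' d' hd', mul_comm]
  have hN1 : normG L Γ (a * σ a) = d' * σ d' * (d' * σ d') := by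
    rw [← v4_norm_le L Γ Γ' hleΓ hTΓ' ha1, v4_norm_mul, v4_norm_conj L Γ' hTΓ' hσL hSG
      (fun g hg => v4q_conj hleΓ h2Γ hσΓ hg) ha, hN', map_mul]
    ring
  have hU1 : ∀ 𝔓 ∈ U, UnrG (Λ ⊓ Γ') 𝔓 (a * σ a) := by
    intro 𝔓 h𝔓 s hs hs' z hz
    have e1 : s r = r := hrfix 𝔓 h𝔓 s hs hs'
    have e2 : (σ⁻¹ * s * σ) r = r := by
      refine hrfix (σ⁻¹ • 𝔓) (hUs σ⁻¹ (inv_mem hσF) 𝔓 h𝔓) _ ?_ (hS s hs')
      rw [inertia_smul, inv_inv]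
      have e3 : σ * (σ⁻¹ * s * σ) * σ⁻¹ = s := by group
      rw [e3]
      exact hs
    have e4 : s (σ r) = σ r := by
      calc s (σ r) = σ ((σ⁻¹ * s * σ) r) := by
            rw [← AlgEquiv.mul_apply, ← AlgEquiv.mul_apply]
            congr 1
            group
        _ = σ r := by rw [e2]
    have e5 : z * z = (r * σ r) * (r * σ r) := by
      rw [hz, ← hr, map_mul]
      ring
    rcases mul_self_eq_mul_self_iff.1 e5 with e6 | e6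
    · rw [e6, map_mul, e1, e4]
    · rw [e6, map_neg, map_mul, e1, e4]
  have hE1 : ∀ 𝔓 ∈ E, EvenG (Λ ⊓ Γ') 𝔓 (a * σ a) := by
    intro 𝔓 h𝔓
    exact v7q_even_mul (hE 𝔓 h𝔓).1.1 (hEa 𝔓 h𝔓)
      (v7q_even_gal hS (hEa _ (hEs σ⁻¹ (inv_mem hσF) 𝔓 h𝔓)))
  have hreal : ∀ e ∈ P, (∀ x, FixG (Λ ⊓ Γ) x → starRingEnd ℂ (e x) = e x) →
      ∀ x, FixG (Λ ⊓ Γ') x → starRingEnd ℂ (e x) = e x := fun e he hx =>
    v4q_real L Γ' Γ hleΓ (F ⊔ M) hFM e (fun s hs hse => by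
      have h4 : s ∈ F.fixingSubgroup ⊓ G := by
        rw [← hΓ]
        exact hs
      rw [hΓ']
      exact ⟨h4.1, hP e he s h4 hse⟩) hx
  have hpa : ∀ e ∈ P, (∀ x, FixG (Λ ⊓ Γ') x → starRingEnd ℂ (e x) = e x) →
      ∃ t : ℝ, 0 < t ∧ e (σ a) = t := by
    intro e he hx
    exact hPa (e.comp (σ : AlgebraicClosure K →+* AlgebraicClosure K)) (hPs σ hσF e he)
      (fun x hx' => hx (σ x) (v4q_fix_gal _ hS hx'))
  -- the relations for `a`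
  have hrela : ∀ Ω ∈ Rel, ∃ d : AlgebraicClosure K, d ≠ 0 ∧
      (∀ s ∈ Λ, s ∈ G' → (∀ q ∈ Ω, s • q ∈ Ω) → s d = d) ∧ relP F (Λ ⊓ G') Ω a = d * d := by
    intro Ω hΩ
    obtain ⟨d, h3, h4⟩ := hRa Ω hΩ
    refine ⟨d, ?_, h3, h4⟩
    rintro rfl
    rw [mul_zero] at h4
    exact v7r_ne F Ω (Λ ⊓ G') ha0 h4
  have haΓ' : FixG (Λ ⊓ (F.fixingSubgroup ⊓ G')) a := by
    rw [← hΓ']
    exact ha
  have hrel1 : ∀ Ω ∈ Rel, ∃ d : AlgebraicClosure K,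
      (∀ s ∈ Λ, s ∈ G → (∀ q ∈ Ω, s • q ∈ Ω) → s d = d) ∧
        relP F (Λ ⊓ G) Ω (a * σ a) = d * d := by
    intro Ω hΩ
    obtain ⟨d₁, -, h₁, e₁⟩ := hrela Ω hΩ
    obtain ⟨d₂, -, h₂, e₂⟩ := hrela _ (hRel σ Ω hΩ)
    exact ⟨d₁ * σ d₂, v7r_sigma L F Ω hle h2 hTFL' hσL hσF hσG hσG' haΓ' h₁ e₁ h₂ e₂⟩
  have hsel1 : a * σ a ∈ selF L F Rel G U E P := by
    refine ⟨⟨mul_ne_zero ha0 hσa0, ?_⟩, ?_⟩
    · rw [← hΓ]
      exact ⟨ha1, ⟨_, hd1, hN1⟩,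
        hup _ _ (mul_ne_zero ha0 hσa0) ha1 hd1 hN1 hU1, fun e he hx => by
          obtain ⟨t, ht, hte⟩ := hPa e he (hreal e he hx)
          obtain ⟨t', ht', hte'⟩ := hpa e he (hreal e he hx)
          exact ⟨t * t', mul_pos ht ht', by rw [map_mul, hte, hte', Complex.ofReal_mul]⟩⟩
    · rw [← hΓ]
      exact ⟨hupE _ ha1 hE1, hrel1⟩
  obtain ⟨e1, he1, hae⟩ := h (a * σ a) hsel1
  rw [← hΓ] at he1
  -- Hilbert 90
  have he10 : e1 ≠ 0 := by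
    rintro rfl
    exact mul_ne_zero ha0 hσa0 (by rw [hae, mul_zero])
  have he1' : FixG (Λ ⊓ Γ') e1 := v4q_fix_mono (inf_le_inf_left _ hleΓ) he1
  have hσe1 : σ e1 = e1 := he1 σ ⟨hσL, hσΓ⟩
  have hγ : FixG (Λ ⊓ Γ') (e1 / a) := v4q_fix_div he1' ha
  have hγσ : σ (e1 / a) = e1 / σ a := by rw [map_div₀, hσe1]
  obtain ⟨b, hb0, hb, hσb⟩ := v4q_hilbert (Λ ⊓ Γ') hS hγ (hσσ _ hγ) (by
    rw [hγσ, div_mul_div_comm, ← hae, div_self (mul_ne_zero ha0 hσa0)])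
  have hσb0 : σ b ≠ 0 := by
    rw [map_ne_zero]
    exact hb0
  have ha0' : FixG (Λ ⊓ Γ) (a / (b * b)) := by
    refine v4q_fix_up h2Γ Λ hσL hσΓ hσΓ' (v4q_fix_div ha (v4q_fix_mul hb hb)) ?_
    rw [map_div₀, map_mul, hσb]
    have e2 : e1 / a * (e1 / a) = σ a / a := by
      rw [div_mul_div_comm, ← hae, mul_div_mul_left _ _ ha0]
    rw [e2]
    field_simp
  have hN0 : normG L Γ (a / (b * b)) = (d' / normG L Γ' b) * (d' / normG L Γ' b) := by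
    rw [← v4_norm_le L Γ Γ' hleΓ hTΓ' ha0']
    have e3 := v4_norm_mul L Γ' (a / (b * b)) (b * b)
    rw [div_mul_cancel₀ _ (mul_ne_zero hb0 hb0), v4_norm_mul, hN'] at e3
    have e4 := v4_norm_ne L Γ' hb0
    rw [div_mul_div_comm, eq_div_iff (mul_ne_zero e4 e4), e3]
  set d := d' / normG L Γ' b with hddef
  have hd : FixG Γ' d := v4q_fix_div hd' (v4_norm_fix L Γ' hTΓ' hb)
  have hd0 : d ≠ 0 := div_ne_zero hd'0 (v4_norm_ne L Γ' hb0)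
  have hab0 : a / (b * b) ≠ 0 := div_ne_zero ha0 (mul_ne_zero hb0 hb0)
  have hNfix : FixG Γ (normG L Γ (a / (b * b))) := v4_norm_fix L Γ hTΓ ha0'
  have ha2 : FixG (Λ ⊓ Γ) (a / (b * b) * normG L Γ (a / (b * b))) :=
    v4q_fix_mul ha0' (v4q_fix_mono inf_le_right hNfix)
  have hN2 : ∃ k : ℕ, normG L Γ (a / (b * b) * normG L Γ (a / (b * b))) =
      normG L Γ (a / (b * b)) ^ k * normG L Γ (a / (b * b)) ^ k := by
    obtain ⟨k, hk⟩ := id hodd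
    refine ⟨k + 1, ?_⟩
    rw [v4_norm_mul, v4_norm_pow L Γ hTΓ hNfix, hk]
    ring
  obtain ⟨k, hk⟩ := hN2
  have h20 : a / (b * b) * normG L Γ (a / (b * b)) ≠ 0 :=
    mul_ne_zero hab0 (v4_norm_ne L Γ hab0)
  have hU2 : ∀ 𝔓 ∈ U, UnrG (Λ ⊓ Γ') 𝔓 (a / (b * b) * normG L Γ (a / (b * b))) := by
    intro 𝔓 h𝔓 s hs hs' z hz
    have e1 : s r = r := hrfix 𝔓 h𝔓 s hs hs'
    have e5 : z * z = (r / b * d) * (r / b * d) := by
      rw [hz, hN0, ← hr]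
      field_simp
    have e6 : s (r / b * d) = r / b * d := by
      rw [map_mul, map_div₀, e1, hb s hs', hd s hs'.2]
    rcases mul_self_eq_mul_self_iff.1 e5 with e7 | e7
    · rw [e7, e6]
    · rw [e7, map_neg, e6]
  have e7 : a / (b * b) * normG L Γ (a / (b * b)) = a * (d / b * (d / b)) := by
    rw [hN0]
    field_simp
  have hE2 : ∀ 𝔓 ∈ E, EvenG (Λ ⊓ Γ') 𝔓 (a / (b * b) * normG L Γ (a / (b * b))) := by
    intro 𝔓 h𝔓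
    rw [e7]
    exact v7q_even_sq (hEa 𝔓 h𝔓) (v4q_fix_div (hlow d hd) hb) (div_ne_zero hd0 hb0)
  -- the relations
  have hrel2 : ∀ Ω ∈ Rel, ∃ d : AlgebraicClosure K,
      (∀ s ∈ Λ, s ∈ G → (∀ q ∈ Ω, s • q ∈ Ω) → s d = d) ∧
        relP F (Λ ⊓ G) Ω (a / (b * b) * normG L Γ (a / (b * b))) = d * d := by
    intro Ω hΩ
    obtain ⟨dΩ, -, h₁, e₁⟩ := hrela Ω hΩ
    have hB0 : relP F (Λ ⊓ G') Ω b ≠ 0 := v7r_ne F Ω (Λ ⊓ G') hb0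
    have hbF : FixG (F.fixingSubgroup ⊓ (Λ ⊓ G')) b := v4q_fix_mono (by
      rw [hΓ', ← inf_assoc, ← inf_assoc, inf_comm F.fixingSubgroup Λ]) hb
    have ha0F : FixG (F.fixingSubgroup ⊓ (Λ ⊓ G)) (a / (b * b)) := v4q_fix_mono (by
      rw [hΓ, ← inf_assoc, ← inf_assoc, inf_comm F.fixingSubgroup Λ]) ha0'
    have hy : relP F (Λ ⊓ G) Ω (a / (b * b)) =
        dΩ / relP F (Λ ⊓ G') Ω b * (dΩ / relP F (Λ ⊓ G') Ω b) := by
      rw [← v7r_low F Ω (Λ ⊓ G) (inf_le_inf_left _ hle) hTFL' ha0F,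
        v7r_div F Ω _ _ _ (mul_ne_zero hb0 hb0), v7r_mul, e₁, div_mul_div_comm]
    have hw : ∀ s ∈ Λ, s ∈ G' → (∀ q ∈ Ω, s • q ∈ Ω) →
        s (dΩ / relP F (Λ ⊓ G') Ω b) = dΩ / relP F (Λ ⊓ G') Ω b := by
      intro s hs hs' hsΩ
      rw [map_div₀, h₁ s hs hs' hsΩ,
        v7r_act F Ω (Λ ⊓ G') hsΩ (v7r_rep F (Λ ⊓ G') hTFL' hbF ⟨hs, hs'⟩)]
    refine ⟨dΩ / relP F (Λ ⊓ G') Ω b * relP F (Λ ⊓ G') Ω d, ?_, ?_⟩
    · exact v7r_norm L F Ω hodd W hW hle h2 hTW (by rw [← hΓ']; exact hTΓ') hTFL'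
        (by rw [← hΓ]; exact ha0') (by rw [← hΓ']; exact hd) (by rw [← hΓ]; exact hN0) hw hy
    · have ha2F : FixG (F.fixingSubgroup ⊓ (Λ ⊓ G)) (d * d) := by
        rw [← hN0]
        exact v4q_fix_mono (by
          rw [hΓ, ← inf_assoc, inf_comm F.fixingSubgroup Λ, inf_assoc]
          exact inf_le_right) hNfix
      rw [v7r_mul, hy, hN0, ← v7r_low F Ω (Λ ⊓ G) (inf_le_inf_left _ hle) hTFL' ha2F, v7r_mul]
      ring
  have hsel2 : a / (b * b) * normG L Γ (a / (b * b)) ∈ selF L F Rel G U E P := by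
    refine ⟨⟨h20, ?_⟩, ?_⟩
    · rw [← hΓ]
      exact ⟨ha2, ⟨_, v4q_fix_pow hNfix k, hk⟩,
        hup _ _ h20 ha2 (v4q_fix_pow hNfix k) hk hU2, fun e he hx => by
          obtain ⟨t, ht, hte⟩ := hPa e he (hreal e he hx)
          obtain ⟨u, hu⟩ := Complex.conj_eq_iff_real.1 (hreal e he hx (d / b)
            (v4q_fix_div (hlow d hd) hb))
          have hu0 : u ≠ 0 := by
            rintro rfl
            rw [Complex.ofReal_zero, map_eq_zero] at hu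
            exact div_ne_zero hd0 hb0 hu
          refine ⟨t * (u * u), mul_pos ht (mul_self_pos.2 hu0), ?_⟩
          rw [e7, map_mul, map_mul, hte, hu]
          push_cast
          rfl⟩
    · rw [← hΓ]
      exact ⟨hupE _ ha2 hE2, hrel2⟩
  obtain ⟨g, hg, hag⟩ := h (a / (b * b) * normG L Γ (a / (b * b))) hsel2
  rw [← hΓ] at hg
  refine ⟨g * (b / d), v4q_fix_mul (v4q_fix_mono (inf_le_inf_left _ hleΓ) hg)
    (v4q_fix_div hb (hlow d hd)), ?_⟩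
  have e8 : g * (b / d) * (g * (b / d)) = (g * g) * (b / d * (b / d)) := by ring
  rw [e8, ← hag, hN0]
  field_simp

end Pool.Agent.H.MP_ac3185_nt
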