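import Pool.Agent.H.MP_ac3185_nt.V7.SignA

/-! Parities of numbers of double cosets. -/

set_option autoImplicit false

namespace Pool.Agent.H.MP_ac3185_nt

/-- `D ∩ g⁻¹ B g` -/
def v7s_stab {G : Type*} [Group G] (D B : Subgroup G) (g : G) : Subgroup D :=
  (B.comap (MulAut.conj g).toMonoidHom).subgroupOf D

theorem v7s_mem_stab {G : Type*} [Group G] (D B : Subgroup G) (g : G) (d : D) :
    d ∈ v7s_stab D B g ↔ g * (d : G) * g⁻¹ ∈ B := Iff.rfl

theorem v7s_card {G P Q : Type*} (f : G → P) (hf : Function.Surjective f) (f' : G → Q)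
    (hf' : Function.Surjective f') (h : ∀ x y, f x = f y ↔ f' x = f' y) :
    Nat.card P = Nat.card Q := by
  refine Nat.card_congr (Equiv.ofBijective (fun p => f' (Function.surjInv hf p)) ⟨?_, ?_⟩)
  · intro p q hpq
    have h1 := (h _ _).2 hpq
    rwa [Function.surjInv_eq hf, Function.surjInv_eq hf] at h1
  · intro q
    obtain ⟨x, rfl⟩ := hf' q
    exact ⟨f x, (h _ _).1 (Function.surjInv_eq hf (f x))⟩

section

variable {G : Type*} [Group G] (D A B : Subgroup G)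

theorem v7s_fib (hAB : ∀ g, ∃ b ∈ B, b⁻¹ * g ∈ A) {Ω Ω' : Type*} (T : G → Ω)
    (hfib : ∀ g g', T g = T g' ↔ ∃ h ∈ B, ∃ d : D, g' = h * g * d) (T' : G → Ω')
    (hT' : Function.Surjective T')
    (hfib' : ∀ g g', T' g = T' g' ↔ ∃ h ∈ A ⊓ B, ∃ d : D, g' = h * g * d) (π : Ω' → Ω)
    (hπ : ∀ g, π (T' g) = T g) (g : G) :
    Nat.card {ω' : Ω' // π ω' = T g} =
      Nat.card (MulAction.orbitRel.Quotient (v7s_stab D B g) (G ⧸ A)) := by
  choose b hb1 hb2 using fun y => hAB (g * y)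
  have hb3 : ∀ y, T ((b y)⁻¹ * g) = T g := by
    intro y
    refine ((hfib _ _).2 ⟨(b y)⁻¹, B.inv_mem (hb1 y), 1, ?_⟩).symm
    simp
  refine v7s_card (G := G) (fun y => ⟨T' ((b y)⁻¹ * g), (hπ _).trans (hb3 y)⟩) ?_
    (fun y => (Quotient.mk'' (y : G ⧸ A) :
      MulAction.orbitRel.Quotient (v7s_stab D B g) (G ⧸ A))) ?_ ?_
  · rintro ⟨ω', hω'⟩
    obtain ⟨x, rfl⟩ := hT' ω'
    rw [hπ] at hω'
    obtain ⟨h, hh, d, rfl⟩ := (hfib _ _).1 hω'.symm
    refine ⟨g⁻¹ * h⁻¹, Subtype.ext ?_⟩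
    show T' ((b (g⁻¹ * h⁻¹))⁻¹ * g) = T' (h * g * d)
    have h1 := hb2 (g⁻¹ * h⁻¹)
    rw [mul_inv_cancel_left] at h1
    have h2 : (b (g⁻¹ * h⁻¹))⁻¹ * h⁻¹ ∈ A ⊓ B :=
      ⟨h1, B.mul_mem (B.inv_mem (hb1 _)) (B.inv_mem hh)⟩
    refine (hfib' _ _).2 ⟨_, (A ⊓ B).inv_mem h2, d, ?_⟩
    group
  · intro q
    induction q using Quotient.inductionOn' with
    | h x =>
      obtain ⟨y, rfl⟩ := QuotientGroup.mk_surjective x
      exact ⟨y, rfl⟩
  · intro y y'
    rw [Subtype.mk.injEq]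
    show T' ((b y)⁻¹ * g) = T' ((b y')⁻¹ * g) ↔
      (Quotient.mk'' (y : G ⧸ A) : MulAction.orbitRel.Quotient (v7s_stab D B g) (G ⧸ A)) =
        Quotient.mk'' (y' : G ⧸ A)
    rw [Quotient.eq'', MulAction.orbitRel_apply, hfib']
    constructor
    · rintro ⟨c, hc, d, hd⟩
      -- `y = d y'` modulo `A`
      have e1 : g * (d : G) * g⁻¹ = b y * c⁻¹ * (b y')⁻¹ := by
        have h1 : g * (d : G) * g⁻¹ = b y * c⁻¹ * (c * ((b y)⁻¹ * g) * d) * g⁻¹ := by group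
        rw [h1, ← hd]
        group
      have hdS : d ∈ v7s_stab D B g := by
        rw [v7s_mem_stab, e1]
        exact B.mul_mem (B.mul_mem (hb1 y) (B.inv_mem hc.2)) (B.inv_mem (hb1 y'))
      refine ⟨⟨d, hdS⟩, ?_⟩
      show (((d : G) * y' : G) : G ⧸ A) = (y : G ⧸ A)
      rw [QuotientGroup.eq]
      have e2 : ((d : G) * y')⁻¹ * y = ((b y')⁻¹ * (g * y'))⁻¹ * c * ((b y)⁻¹ * (g * y)) := by
        have h1 : (d : G) = g⁻¹ * (b y * c⁻¹ * (b y')⁻¹) * g := by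
          rw [← e1]
          group
        rw [h1]
        group
      rw [e2]
      exact A.mul_mem (A.mul_mem (A.inv_mem (hb2 y')) hc.1) (hb2 y)
    · rintro ⟨⟨d, hdS⟩, hd⟩
      have hd' : (((d : G) * y' : G) : G ⧸ A) = (y : G ⧸ A) := hd
      rw [QuotientGroup.eq] at hd'
      rw [v7s_mem_stab] at hdS
      refine ⟨(b y')⁻¹ * (g * (d : G) * g⁻¹)⁻¹ * b y, ⟨?_, ?_⟩, d, ?_⟩
      · have e3 : (b y')⁻¹ * (g * (d : G) * g⁻¹)⁻¹ * b y =
            ((b y')⁻¹ * (g * y')) * (((d : G) * y')⁻¹ * y) * ((b y)⁻¹ * (g * y))⁻¹ := by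
          group
        rw [e3]
        exact A.mul_mem (A.mul_mem (hb2 y') hd') (A.inv_mem (hb2 y))
      · exact B.mul_mem (B.mul_mem (B.inv_mem (hb1 y')) (B.inv_mem hdS)) (hb1 y)
      · group

theorem v7s_fin {Ω : Type*} [Finite G] (T : G → Ω) (hT : Function.Surjective T) : Finite Ω :=
  Finite.of_surjective T hT

theorem v7s_count_one [Finite G] {I : Subgroup D} {φ : D} (h : CycMod I φ)
    (hAB : ∀ g, ∃ b ∈ B, b⁻¹ * g ∈ A) (hA : Odd A.index) (hB : Even B.index)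
    (hIB : ∀ g : G, ∀ i ∈ I, g * ((i : D) : G) * g⁻¹ ∈ B)
    (hIA : ∀ x : G ⧸ A, Odd (MulAction.orbit I x).ncard) {Ω Ω' : Type*} (T : G → Ω)
    (hT : Function.Surjective T)
    (hfib : ∀ g g', T g = T g' ↔ ∃ h ∈ B, ∃ d : D, g' = h * g * d) (T' : G → Ω')
    (hT' : Function.Surjective T')
    (hfib' : ∀ g g', T' g = T' g' ↔ ∃ h ∈ A ⊓ B, ∃ d : D, g' = h * g * d) :
    Nat.card Ω' ≡ Nat.card Ω [MOD 2] := by
  classical
  have hfΩ := v7s_fin T hT
  have hfΩ' := v7s_fin T' hT'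
  have _ : Fintype Ω := Fintype.ofFinite _
  let π : Ω' → Ω := fun ω' => T (Function.surjInv hT' ω')
  have hπ : ∀ g, π (T' g) = T g := by
    intro g
    obtain ⟨c, hc, d, hd⟩ := (hfib' _ _).1 (Function.surjInv_eq hT' (T' g))
    exact (hfib _ _).2 ⟨c, hc.2, d, hd⟩
  let s : Ω → G := Function.surjInv hT
  have hs : ∀ ω, T (s ω) = ω := Function.surjInv_eq hT
  have hcard : Nat.card Ω' = ∑ ω : Ω, Nat.card {ω' : Ω' // π ω' = ω} := by
    rw [← Nat.card_sigma]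
    exact Nat.card_congr (Equiv.sigmaFiberEquiv π).symm
  have hIS : ∀ g, I ≤ v7s_stab D B g := fun g i hi => hIB g i hi
  -- the fibres
  let c : ℕ := Module.finrank ℚ (fixedVec (permRep D (G ⧸ A)) ((⊤ : Subgroup D) : Set D))
  have hfibre : ∀ ω, ((Nat.card {ω' : Ω' // π ω' = ω} : ℕ) : ZMod 2) =
      1 + if Odd (v7s_stab D B (s ω)).index then ((c : ZMod 2) - 1) else 0 := by
    intro ω
    have h1 := v7s_fib D A B hAB T hfib T' hT' hfib' π hπ (s ω)
    rw [hs] at h1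
    rw [h1, ← finrank_permRep]
    by_cases ho : Odd (v7s_stab D B (s ω)).index
    · rw [if_pos ho, add_sub_cancel]
      exact (ZMod.natCast_eq_natCast_iff _ _ 2).2 (v7s_odd h (hIS (s ω)) ho _)
    · rw [if_neg ho, add_zero]
      have h2 := v7s_even h (hIS (s ω))
        (fun x hx => v7s_idx h (hIS (s ω)) (Nat.not_odd_iff_even.1 ho) hx) (permRep D (G ⧸ A))
      have h3 : Module.finrank ℚ (fixedVec (permRep D (G ⧸ A)) (I : Set D)) ≡ A.index [MOD 2] := by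
        rw [finrank_permRep]
        exact v7s_orb hIA
      rw [(ZMod.natCast_eq_natCast_iff _ _ 2).2 (h2.trans h3)]
      exact ZMod.natCast_eq_one_iff_odd.2 hA
  -- the sum of the degrees
  have hsum : ∑ ω : Ω, (v7s_stab D B (s ω)).index = B.index := by
    have h1 := v2p_dc D B (fun ω : Ω => (s ω)⁻¹) (by
      intro i j d hd hh
      rw [inv_inv] at hh
      rw [← hs i, ← hs j]
      refine ((hfib _ _).2 ⟨s i * (d * (s j)⁻¹), hh, ⟨d⁻¹, D.inv_mem hd⟩, ?_⟩).symm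
      show s i = s i * (d * (s j)⁻¹) * s j * d⁻¹
      group) (by
      intro g
      refine ⟨T g⁻¹, ?_⟩
      obtain ⟨x, hx, d, hd⟩ := (hfib _ _).1 (hs (T g⁻¹))
      refine ⟨d, d.2, ?_⟩
      rw [inv_inv]
      have e : s (T g⁻¹) * ((d : G) * g) = x⁻¹ := by
        have e1 : (g : G) = (x * s (T g⁻¹) * d)⁻¹ := by rw [← hd, inv_inv]
        nth_rewrite 2 [e1]
        group
      rw [e]
      exact B.inv_mem hx)
    rw [finsum_eq_sum_of_fintype] at h1
    rw [← h1]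
    refine Finset.sum_congr rfl fun ω _ => ?_
    rw [inv_inv, ← Subgroup.relIndex_comap]
    rfl
  have heven : Even (Finset.univ.filter fun ω : Ω => Odd (v7s_stab D B (s ω)).index).card := by
    rw [← Nat.not_odd_iff_even, ← Finset.odd_sum_iff_odd_card_odd, hsum, Nat.not_odd_iff_even]
    exact hB
  rw [← ZMod.natCast_eq_natCast_iff, hcard]
  push_cast
  rw [Finset.sum_congr rfl fun ω _ => hfibre ω, Finset.sum_add_distrib, Finset.sum_const,
    ← Finset.sum_filter, Finset.sum_const, nsmul_eq_mul, nsmul_eq_mul, mul_one,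
    (ZMod.natCast_eq_zero_iff _ 2).2 (even_iff_two_dvd.1 heven), zero_mul, add_zero,
    Finset.card_univ, Nat.card_eq_fintype_card]

end

end Pool.Agent.H.MP_ac3185_nt
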